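import Mathlib

/-!
# Definitions: groups of families with the uniform topology, reflexivity

For a topological group `X` (written multiplicatively) and a type `I`:

* `Fam I X` is the group `X^I` of all families with the uniform topology, for which the sets
  `U^I`, `U` a neighbourhood of the identity of `X`, are a base at the identity;
* `cZero I X` is the subgroup of families converging to the identity;
* `lInf I X` is the subgroup of families whose set of values is precompact;
* `Reflexive A` says that the evaluation map of `A` into its Pontryagin bidual is an isomorphism of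
  topological groups. Mathlib's `PontryaginDual A` is the group of continuous homomorphisms
  from `A` to the circle with the compact-open topology.
-/

open Filter Topology
open scoped Pointwise

set_option linter.unusedSectionVars false

noncomputable section

namespace C93

/-- The group `X^I` of all families of elements of `X` indexed by `I`. -/
def Fam (I X : Type*) := I → X

instance (I X : Type*) [CommGroup X] : CommGroup (Fam I X) := inferInstanceAs (CommGroup (I → X))

section Basic

variable {I X : Type*} [CommGroup X]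

@[ext] lemma Fam.ext {f g : Fam I X} (h : ∀ i, f i = g i) : f = g := funext h

@[simp] lemma Fam.mul_apply (f g : Fam I X) (i : I) : (f * g) i = f i * g i := rfl

@[simp] lemma Fam.one_apply (i : I) : (1 : Fam I X) i = 1 := rfl

@[simp] lemma Fam.inv_apply (f : Fam I X) (i : I) : f⁻¹ i = (f i)⁻¹ := rfl

lemma Fam.prod_apply {ι : Type*} (s : Finset ι) (f : ι → Fam I X) (i : I) :
    (∏ l ∈ s, f l) i = ∏ l ∈ s, f l i := Finset.prod_apply i s f

end Basic

variable (I X : Type*) [CommGroup X] [TopologicalSpace X] [IsTopologicalGroup X]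

/-- The sets `U^I`, where `U` is a neighbourhood of the identity of `X`. -/
def famBasis : GroupFilterBasis (Fam I X) :=
  groupFilterBasisOfComm {W | ∃ U ∈ 𝓝 (1 : X), W = {f : Fam I X | ∀ i, f i ∈ U}}
    ⟨_, Set.univ, univ_mem, rfl⟩
    (by
      rintro _ _ ⟨U, hU, rfl⟩ ⟨V, hV, rfl⟩
      exact ⟨_, ⟨U ∩ V, inter_mem hU hV, rfl⟩, fun f hf => ⟨fun i => (hf i).1, fun i => (hf i).2⟩⟩)
    (by
      rintro _ ⟨U, hU, rfl⟩ i
      exact mem_of_mem_nhds hU)
    (by
      rintro _ ⟨U, hU, rfl⟩
      obtain ⟨V, hV, h⟩ := exists_nhds_one_split hU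
      refine ⟨_, ⟨V, hV, rfl⟩, ?_⟩
      rintro _ ⟨f, hf, g, hg, rfl⟩ i
      exact h _ (hf i) _ (hg i))
    (by
      rintro _ ⟨U, hU, rfl⟩
      refine ⟨_, ⟨U⁻¹, inv_mem_nhds_one X hU, rfl⟩, fun f hf i => ?_⟩
      have := hf i
      simpa using this)

/-- The uniform topology on `X^I`: the sets `U^I` are a base of neighbourhoods of the identity. -/
instance instTopologicalSpaceFam : TopologicalSpace (Fam I X) := (famBasis I X).topology

instance : IsTopologicalGroup (Fam I X) := (famBasis I X).isTopologicalGroup

/-- The sets `U^I`, `U` a neighbourhood of the identity of `X`, form a base of neighbourhoods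
of the identity of `X^I`. -/
lemma Fam.nhds_one_hasBasis : (𝓝 (1 : Fam I X)).HasBasis (fun U : Set X => U ∈ 𝓝 (1 : X))
    (fun U => {f | ∀ i, f i ∈ U}) := by
  refine (famBasis I X).nhds_one_hasBasis.to_hasBasis ?_ ?_
  · rintro _ ⟨U, hU, rfl⟩
    exact ⟨U, hU, subset_rfl⟩
  · intro U hU
    exact ⟨_, ⟨U, hU, rfl⟩, subset_rfl⟩

instance [T2Space X] : T2Space (Fam I X) := by
  apply IsTopologicalGroup.t2Space_of_one_sep
  intro f hf
  obtain ⟨i, hi⟩ : ∃ i, f i ≠ 1 := by
    by_contra hcon
    push Not at hcon
    exact hf (Fam.ext hcon)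
  exact ⟨_, (Fam.nhds_one_hasBasis I X).mem_of_mem (isOpen_ne.mem_nhds hi.symm),
    fun h => h i rfl⟩

/-- The subgroup `c_0^I(X)` of families converging to the identity: for every neighbourhood `U` of
the identity, all but finitely many members belong to `U`. -/
def cZero : Subgroup (Fam I X) where
  carrier := {f | ∀ U ∈ 𝓝 (1 : X), {i | f i ∉ U}.Finite}
  one_mem' := by
    intro U hU
    have : {i : I | (1 : Fam I X) i ∉ U} = ∅ := by
      ext i
      simpa using mem_of_mem_nhds hU
    rw [this]
    exact Set.finite_empty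
  mul_mem' := by
    intro f g hf hg U hU
    obtain ⟨V, hV, h⟩ := exists_nhds_one_split hU
    refine ((hf V hV).union (hg V hV)).subset fun i hi => ?_
    by_contra hcon
    simp only [Set.mem_union, Set.mem_ofPred_eq, not_or, not_not] at hcon
    exact hi (h _ hcon.1 _ hcon.2)
  inv_mem' := by
    intro f hf U hU
    refine (hf U⁻¹ (inv_mem_nhds_one X hU)).subset fun i hi => ?_
    simpa using hi

variable {I X} in
/-- A subset `S` of a topological group is precompact if, for every neighbourhood `U` of the
identity, it is covered by finitely many translates of `U`. -/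
def Precompact (S : Set X) : Prop := ∀ U ∈ 𝓝 (1 : X), ∃ F : Set X, F.Finite ∧ S ⊆ F * U

section Precompact

variable {X}

omit [IsTopologicalGroup X] in
lemma Precompact.mono {S T : Set X} (hT : Precompact T) (h : S ⊆ T) : Precompact S :=
  fun U hU => (hT U hU).imp fun _ hF => ⟨hF.1, h.trans hF.2⟩

lemma Precompact.mul {S T : Set X} (hS : Precompact S) (hT : Precompact T) :
    Precompact (S * T) := by
  intro U hU
  obtain ⟨V, hV, h⟩ := exists_nhds_one_split hU
  obtain ⟨F, hF, hSF⟩ := hS V hV
  obtain ⟨F', hF', hTF⟩ := hT V hV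
  refine ⟨F * F', hF.mul hF', ?_⟩
  calc S * T ⊆ (F * V) * (F' * V) := Set.mul_subset_mul hSF hTF
    _ = (F * F') * (V * V) := mul_mul_mul_comm _ _ _ _
    _ ⊆ (F * F') * U := Set.mul_subset_mul_left (by
        rintro _ ⟨a, ha, b, hb, rfl⟩
        exact h a ha b hb)

lemma Precompact.inv {S : Set X} (hS : Precompact S) : Precompact S⁻¹ := by
  intro U hU
  obtain ⟨F, hF, h⟩ := hS U⁻¹ (inv_mem_nhds_one X hU)
  refine ⟨F⁻¹, hF.inv, ?_⟩
  calc S⁻¹ ⊆ (F * U⁻¹)⁻¹ := Set.inv_subset_inv.2 h
    _ = F⁻¹ * U := by rw [mul_inv, inv_inv]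

omit [IsTopologicalGroup X] in
lemma precompact_of_finite {S : Set X} (hS : S.Finite) : Precompact S := fun U hU =>
  ⟨S, hS, fun x hx => ⟨x, hx, 1, mem_of_mem_nhds hU, mul_one x⟩⟩

end Precompact

/-- The subgroup `ℓ_∞^I(X)` of families whose set of values is precompact. -/
def lInf : Subgroup (Fam I X) where
  carrier := {f | Precompact (Set.range f)}
  one_mem' := by
    apply precompact_of_finite
    apply (Set.finite_singleton (1 : X)).subset
    rintro _ ⟨i, rfl⟩
    rfl
  mul_mem' := by
    intro f g hf hg
    apply (Precompact.mul hf hg).mono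
    rintro _ ⟨i, rfl⟩
    exact ⟨f i, ⟨i, rfl⟩, g i, ⟨i, rfl⟩, rfl⟩
  inv_mem' := by
    intro f hf
    apply (Precompact.inv hf).mono
    rintro _ ⟨i, rfl⟩
    exact ⟨i, by simp⟩

variable {I X}

/-- A topological abelian group is (Pontryagin) reflexive if the evaluation map into its bidual
(with the compact-open topologies) is an isomorphism of topological groups. -/
def Reflexive (A : Type*) [CommGroup A] [TopologicalSpace A] : Prop :=
  ∃ e : A ≃ₜ* PontryaginDual (PontryaginDual A), ∀ (a : A) (χ : PontryaginDual A), e a χ = χ a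

end C93
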