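import Mathlib
import Pool.Agent.Lib.MP_c93b6d_al.Defs

section

/-!
# The regular representation of a locally compact abelian group, and convolution operators
-/

open MeasureTheory DomMulAct Filter Topology
open scoped ENNReal CompactlySupported

set_option linter.unusedSectionVars false
set_option linter.deprecated false
set_option linter.overlappingInstances false

noncomputable section

namespace C93

lemma continuous_circle_coe : Continuous (fun z : Circle => (z : ℂ)) := continuous_subtype_val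

lemma isInducing_circle_coe : Topology.IsInducing (fun z : Circle => (z : ℂ)) :=
  Topology.IsInducing.subtypeVal

lemma continuous_circle_iff {X : Type*} [TopologicalSpace X] {f : X → Circle} :
    Continuous f ↔ Continuous fun x => (f x : ℂ) := isInducing_circle_coe.continuous_iff

instance fact_two_ne_top : Fact ((2 : ℝ≥0∞) ≠ ∞) := ⟨by simp⟩

section Dense

variable {α : Type*} [TopologicalSpace α] [R1Space α] [LocallyCompactSpace α]
  [MeasurableSpace α] [BorelSpace α] {μ : Measure α} [μ.Regular]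

/-- Density of compactly supported continuous functions in `L^p` on a locally compact space. -/
theorem memLp_approx {p : ℝ≥0∞} (hp : p ≠ ∞) {f : α → ℂ} (hf : MemLp f p μ)
    {ε : ℝ≥0∞} (hε : ε ≠ 0) :
    ∃ g : α → ℂ, HasCompactSupport g ∧ eLpNorm (f - g) p μ ≤ ε ∧ Continuous g ∧ MemLp g p μ := by
  suffices H :
      ∃ g : α → ℂ, eLpNorm (f - g) p μ ≤ ε ∧ Continuous g ∧ MemLp g p μ ∧ HasCompactSupport g by
    rcases H with ⟨g, hg, g_cont, g_mem, g_support⟩
    exact ⟨g, g_support, hg, g_cont, g_mem⟩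
  apply hf.induction_dense hp _ _ _ _ hε
  rotate_left
  · rintro f g ⟨f_cont, f_mem, hf⟩ ⟨g_cont, g_mem, hg⟩
    exact ⟨f_cont.add g_cont, f_mem.add g_mem, hf.add hg⟩
  · rintro f ⟨_f_cont, f_mem, _hf⟩
    exact f_mem.aestronglyMeasurable
  intro c t ht htμ ε hε
  rcases exists_Lp_half ℂ μ p hε with ⟨δ, δpos, hδ⟩
  obtain ⟨η, ηpos, hη⟩ :
      ∃ η : NNReal, 0 < η ∧ ∀ s : Set α, μ s ≤ η → eLpNorm (s.indicator fun _x => c) p μ ≤ δ :=
    exists_eLpNorm_indicator_le hp c δpos.ne'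
  have hη_pos' : (0 : ℝ≥0∞) < η := ENNReal.coe_pos.2 ηpos
  obtain ⟨s, st, s_compact, s_closed, μs⟩ :
      ∃ s, s ⊆ t ∧ IsCompact s ∧ IsClosed s ∧ μ (t \ s) < η :=
    ht.exists_isCompact_isClosed_sdiff_lt htμ.ne hη_pos'.ne'
  have hsμ : μ s < ∞ := (measure_mono st).trans_lt htμ
  have I1 : eLpNorm ((s.indicator fun _y => c) - t.indicator fun _y => c) p μ ≤ δ := by
    rw [← eLpNorm_neg, neg_sub, ← Set.indicator_sdiff st]
    exact hη _ μs.le
  -- an open set slightly bigger than `s`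
  obtain ⟨V, sV, V_open, h'V, hV⟩ :
      ∃ (V : Set α), V ⊇ s ∧ IsOpen V ∧ μ V < ∞ ∧ μ (V \ s) < η :=
    s_closed.measurableSet.exists_isOpen_sdiff_lt hsμ.ne hη_pos'.ne'
  obtain ⟨g, hgs, hgv, hg_supp, hg_range⟩ :=
    exists_continuous_one_zero_of_isCompact s_compact V_open.isClosed_compl
      (Set.disjoint_compl_right_iff_subset.2 sV)
  have g_norm : ∀ x, ‖g x‖ = g x := fun x => by rw [Real.norm_eq_abs, abs_of_nonneg (hg_range x).1]
  have gc_bd0 : ∀ x, ‖g x • c‖ ≤ ‖c‖ := by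
    intro x
    simp only [norm_smul, g_norm x]
    apply mul_le_of_le_one_left (norm_nonneg _)
    exact (hg_range x).2
  have gc_bd :
      ∀ x, ‖g x • c - s.indicator (fun _x => c) x‖ ≤ ‖(V \ s).indicator (fun _x => c) x‖ := by
    intro x
    by_cases hv : x ∈ V
    · rw [← Set.sdiff_union_of_subset sV] at hv
      rcases hv with hsv | hs
      · simpa only [hsv.2, Set.indicator_of_notMem, not_false_iff, sub_zero, hsv,
          Set.indicator_of_mem] using gc_bd0 x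
      · simp [hgs hs, hs]
    · simp [hgv hv, show x ∉ s from fun h => hv (sV h)]
  have gcont : Continuous (fun x => g x • c) := by fun_prop
  have gsupp : HasCompactSupport (fun x => g x • c) := hg_supp.smul_right
  have gmem : MemLp (fun x => g x • c) p μ := gcont.memLp_of_hasCompactSupport gsupp
  have I2 : eLpNorm (fun x => g x • c - s.indicator (fun _y => c) x) p μ ≤ δ :=
    (eLpNorm_mono gc_bd).trans (hη _ hV.le)
  have I3 : eLpNorm ((fun x => g x • c) - t.indicator fun _y => c) p μ ≤ ε := by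
    convert!
      (hδ _ _
          (gmem.aestronglyMeasurable.sub
            (aestronglyMeasurable_const.indicator s_closed.measurableSet))
          ((aestronglyMeasurable_const.indicator s_closed.measurableSet).sub
            (aestronglyMeasurable_const.indicator ht))
          I2 I1).le using 2
    simp only [sub_add_sub_cancel]
  exact ⟨_, I3, gcont, gmem, gsupp⟩

end Dense

section Rep

variable {G : Type*} [CommGroup G] [TopologicalSpace G] [IsTopologicalGroup G]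
  [MeasurableSpace G] [BorelSpace G] (μ : Measure G) [μ.IsMulLeftInvariant]

/-- Left translation on `L²(G)`. -/
def lam (y : G) : Lp ℂ 2 μ →L[ℂ] Lp ℂ 2 μ :=
  LinearMap.mkContinuous
    { toFun := fun ξ => mk y⁻¹ • ξ
      map_add' := fun ξ η => smul_add _ _ _
      map_smul' := fun c ξ => smul_comm _ _ _ } 1 (fun ξ => by simp)

lemma lam_apply (y : G) (ξ : Lp ℂ 2 μ) : lam μ y ξ = mk y⁻¹ • ξ := rfl

@[simp] lemma norm_lam_apply (y : G) (ξ : Lp ℂ 2 μ) : ‖lam μ y ξ‖ = ‖ξ‖ := by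
  rw [lam_apply, norm_smul_Lp]

lemma norm_lam_le (y : G) : ‖lam μ y‖ ≤ 1 :=
  ContinuousLinearMap.opNorm_le_bound _ zero_le_one (fun ξ => by simp)

@[simp] lemma lam_one : lam μ (1 : G) = 1 := by
  ext1 ξ
  rw [lam_apply]
  simp

lemma lam_mul (y z : G) : lam μ (y * z) = lam μ y * lam μ z := by
  ext1 ξ
  rw [ContinuousLinearMap.mul_apply, lam_apply, lam_apply, lam_apply, smul_smul, ← DomMulAct.mk_mul,
    mul_inv_rev]

lemma lam_commute (y z : G) : Commute (lam μ y) (lam μ z) := by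
  rw [Commute, SemiconjBy, ← lam_mul, ← lam_mul, mul_comm]

lemma lam_inv_mul (y : G) : lam μ y⁻¹ * lam μ y = 1 := by
  rw [← lam_mul, inv_mul_cancel, lam_one]

lemma lam_mul_inv (y : G) : lam μ y * lam μ y⁻¹ = 1 := by
  rw [← lam_mul, mul_inv_cancel, lam_one]

lemma star_lam (y : G) : star (lam μ y) = lam μ y⁻¹ := by
  have h1 : star (lam μ y) * lam μ y = 1 := by
    rw [ContinuousLinearMap.star_eq_adjoint]
    have := (ContinuousLinearMap.norm_map_iff_adjoint_comp_self (u := lam μ y)).1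
      (fun ξ => norm_lam_apply μ y ξ)
    exact this
  calc star (lam μ y) = star (lam μ y) * (lam μ y * lam μ y⁻¹) := by rw [lam_mul_inv, mul_one]
    _ = lam μ y⁻¹ := by rw [← mul_assoc, h1, one_mul]

lemma lam_ae (y : G) (ξ : Lp ℂ 2 μ) : lam μ y ξ =ᵐ[μ] fun a => ξ (y⁻¹ * a) := by
  have := smul_Lp_ae_eq (mk y⁻¹) ξ
  exact this

variable [LocallyCompactSpace G] [T2Space G] [μ.Regular]

lemma continuous_lam_apply (ξ : Lp ℂ 2 μ) : Continuous fun y => lam μ y ξ := by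
  have h : Continuous fun y : G => (mk y⁻¹ : Gᵈᵐᵃ) :=
    DomMulAct.continuous_mk.comp continuous_inv
  exact h.smul continuous_const

lemma integrable_T (h : C_c(G, ℂ)) (ξ : Lp ℂ 2 μ) :
    Integrable (fun y => h y • lam μ y ξ) μ := by
  apply Continuous.integrable_of_hasCompactSupport
  · exact h.continuous.smul (continuous_lam_apply μ ξ)
  · exact h.hasCompactSupport.smul_right

lemma integrable_norm_cc (h : C_c(G, ℂ)) : Integrable (fun y => ‖h y‖) μ :=
  (h.continuous.integrable_of_hasCompactSupport h.hasCompactSupport).norm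

/-- The convolution operator `T_h = ∫ h(y) λ_y dμ(y)`. -/
def T (h : C_c(G, ℂ)) : Lp ℂ 2 μ →L[ℂ] Lp ℂ 2 μ :=
  LinearMap.mkContinuous
    { toFun := fun ξ => ∫ y, h y • lam μ y ξ ∂μ
      map_add' := fun ξ η => by
        rw [← integral_add (integrable_T μ h ξ) (integrable_T μ h η)]
        simp only [map_add, smul_add]
      map_smul' := fun c ξ => by
        rw [RingHom.id_apply, ← integral_smul]
        simp only [map_smul, smul_comm c] } (∫ y, ‖h y‖ ∂μ) (fun ξ => by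
          change ‖∫ y, h y • lam μ y ξ ∂μ‖ ≤ _
          refine (norm_integral_le_integral_norm _).trans ?_
          rw [← integral_mul_const]
          simp only [norm_smul, norm_lam_apply]
          exact le_rfl)

lemma T_apply (h : C_c(G, ℂ)) (ξ : Lp ℂ 2 μ) : T μ h ξ = ∫ y, h y • lam μ y ξ ∂μ := rfl

lemma norm_T_le (h : C_c(G, ℂ)) : ‖T μ h‖ ≤ ∫ y, ‖h y‖ ∂μ :=
  LinearMap.mkContinuous_norm_le _ (integral_nonneg fun _ => norm_nonneg _) _

lemma T_sub (h k : C_c(G, ℂ)) : T μ (h - k) = T μ h - T μ k := by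
  ext1 ξ
  rw [ContinuousLinearMap.sub_apply, T_apply, T_apply, T_apply,
    ← integral_sub (integrable_T μ h ξ) (integrable_T μ k ξ)]
  simp only [CompactlySupportedContinuousMap.coe_sub, Pi.sub_apply, sub_smul]

/-- An operator which commutes with all translations commutes with all `T_h`. -/
lemma T_commute (h : C_c(G, ℂ)) (S : Lp ℂ 2 μ →L[ℂ] Lp ℂ 2 μ)
    (hS : ∀ y, Commute S (lam μ y)) : Commute S (T μ h) := by
  change S * T μ h = T μ h * S
  ext1 ξ
  rw [ContinuousLinearMap.mul_apply, ContinuousLinearMap.mul_apply, T_apply, T_apply,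
    ← ContinuousLinearMap.integral_comp_comm S (integrable_T μ h ξ)]
  congr 1
  ext1 y
  rw [map_smul]
  congr 1
  have := congrArg (fun A => A ξ) (hS y).eq
  simpa using this

/-- The translate `y ↦ h (x⁻¹ y)`. -/
def transl (x : G) (h : C_c(G, ℂ)) : C_c(G, ℂ) where
  toFun := fun y => h (x⁻¹ * y)
  continuous_toFun := h.continuous.comp (continuous_const.mul continuous_id)
  hasCompactSupport' := h.hasCompactSupport.comp_homeomorph (Homeomorph.mulLeft x⁻¹)

@[simp] lemma transl_apply (x : G) (h : C_c(G, ℂ)) (y : G) : transl x h y = h (x⁻¹ * y) := rfl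

lemma lam_mul_T (x : G) (h : C_c(G, ℂ)) : lam μ x * T μ h = T μ (transl x h) := by
  ext1 ξ
  rw [ContinuousLinearMap.mul_apply, T_apply, T_apply,
    ← ContinuousLinearMap.integral_comp_comm (lam μ x) (integrable_T μ h ξ),
    ← integral_mul_left_eq_self (fun y => transl x h y • lam μ y ξ) x]
  congr 1
  ext1 y
  rw [map_smul, transl_apply, inv_mul_cancel_left, lam_mul, ContinuousLinearMap.mul_apply]

/-- `‖T_h - T_k‖` is bounded by the `L¹` distance. -/
lemma norm_T_sub_le (h k : C_c(G, ℂ)) : ‖T μ h - T μ k‖ ≤ ∫ y, ‖h y - k y‖ ∂μ := by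
  rw [← T_sub]
  exact norm_T_le μ _

lemma continuous_T_transl (h : C_c(G, ℂ)) : Continuous fun x : G => T μ (transl x h) := by
  have hm : MemLp (fun y => h y) 1 μ := h.continuous.memLp_of_hasCompactSupport h.hasCompactSupport
  rw [continuous_iff_continuousAt]
  intro x0
  have hc : Continuous fun x : G => (mk x⁻¹ : Gᵈᵐᵃ) • (hm.toLp (fun y => h y)) := by
    have h : Continuous fun y : G => (mk y⁻¹ : Gᵈᵐᵃ) :=
      DomMulAct.continuous_mk.comp continuous_inv
    have : Fact ((1 : ℝ≥0∞) ≠ ∞) := ⟨by simp⟩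
    exact h.smul continuous_const
  have h0 : Tendsto (fun x : G => ‖(mk x⁻¹ : Gᵈᵐᵃ) • (hm.toLp (fun y => h y))
      - (mk x0⁻¹ : Gᵈᵐᵃ) • (hm.toLp (fun y => h y))‖) (𝓝 x0) (𝓝 0) := by
    have := (hc.sub continuous_const).norm.tendsto x0 (f := fun x : G => ‖(mk x⁻¹ : Gᵈᵐᵃ) •
      (hm.toLp (fun y => h y)) - (mk x0⁻¹ : Gᵈᵐᵃ) • (hm.toLp (fun y => h y))‖)
    simpa using this
  rw [ContinuousAt, tendsto_iff_norm_sub_tendsto_zero]
  refine squeeze_zero (fun _ => norm_nonneg _) (fun x => ?_) h0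
  refine (norm_T_sub_le μ _ _).trans (le_of_eq ?_)
  rw [mk_smul_toLp, mk_smul_toLp, ← MemLp.toLp_sub, Lp.norm_toLp,
    eLpNorm_one_eq_lintegral_enorm, integral_norm_eq_lintegral_enorm]
  · rfl
  · exact ((transl x h).continuous.sub (transl x0 h).continuous).aestronglyMeasurable

/-! ### Multiplication operators -/

lemma memLp_mul (u : C(G, Circle)) (ξ : Lp ℂ 2 μ) : MemLp (fun a => (u a : ℂ) * ξ a) 2 μ := by
  refine (Lp.memLp ξ).of_le ?_ ?_
  · exact (continuous_circle_coe.comp u.continuous).aestronglyMeasurable.mul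
      (Lp.aestronglyMeasurable ξ)
  · refine Eventually.of_forall fun a => ?_
    rw [norm_mul, Circle.norm_coe, one_mul]

/-- Multiplication by a unimodular continuous function on `L²`. -/
def mulOp (u : C(G, Circle)) : Lp ℂ 2 μ →L[ℂ] Lp ℂ 2 μ :=
  LinearMap.mkContinuous
    { toFun := fun ξ => (memLp_mul μ u ξ).toLp _
      map_add' := fun ξ η => by
        rw [← MemLp.toLp_add]
        apply MemLp.toLp_congr
        filter_upwards [Lp.coeFn_add ξ η] with a ha
        simp only [ha, Pi.add_apply]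
        ring
      map_smul' := fun c ξ => by
        rw [RingHom.id_apply, ← MemLp.toLp_const_smul]
        apply MemLp.toLp_congr
        filter_upwards [Lp.coeFn_smul c ξ] with a ha
        simp only [ha, Pi.smul_apply, smul_eq_mul]
        ring } 1 (fun ξ => by
          change ‖(memLp_mul μ u ξ).toLp _‖ ≤ _
          rw [one_mul, Lp.norm_toLp, Lp.norm_def]
          refine ENNReal.toReal_mono (Lp.eLpNorm_ne_top ξ) (eLpNorm_mono fun a => ?_)
          rw [norm_mul, Circle.norm_coe, one_mul])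

lemma mulOp_ae (u : C(G, Circle)) (ξ : Lp ℂ 2 μ) :
    mulOp μ u ξ =ᵐ[μ] fun a => (u a : ℂ) * ξ a :=
  (memLp_mul μ u ξ).coeFn_toLp

lemma norm_mulOp_le (u : C(G, Circle)) : ‖mulOp μ u‖ ≤ 1 :=
  LinearMap.mkContinuous_norm_le _ zero_le_one _

lemma mulOp_one : mulOp μ (1 : C(G, Circle)) = 1 := by
  ext1 ξ
  apply Lp.ext
  filter_upwards [mulOp_ae μ 1 ξ] with a ha
  rw [ha]
  simp

lemma mulOp_mul (u v : C(G, Circle)) : mulOp μ (u * v) = mulOp μ u * mulOp μ v := by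
  ext1 ξ
  apply Lp.ext
  filter_upwards [mulOp_ae μ (u * v) ξ, mulOp_ae μ u (mulOp μ v ξ), mulOp_ae μ v ξ] with a h1 h2 h3
  rw [ContinuousLinearMap.mul_apply, h1, h2, h3]
  simp [mul_assoc]

lemma norm_mulOp_apply (u : C(G, Circle)) (ξ : Lp ℂ 2 μ) : ‖mulOp μ u ξ‖ = ‖ξ‖ := by
  apply le_antisymm
  · exact (ContinuousLinearMap.le_of_opNorm_le _ (norm_mulOp_le μ u) ξ).trans (by simp)
  · have h1 : ξ = mulOp μ u⁻¹ (mulOp μ u ξ) := by
      rw [← ContinuousLinearMap.mul_apply, ← mulOp_mul, inv_mul_cancel, mulOp_one]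
      rfl
    calc ‖ξ‖ = ‖mulOp μ u⁻¹ (mulOp μ u ξ)‖ := by rw [← h1]
      _ ≤ 1 * ‖mulOp μ u ξ‖ := ContinuousLinearMap.le_of_opNorm_le _ (norm_mulOp_le μ _) _
      _ = _ := one_mul _

lemma star_mulOp (u : C(G, Circle)) : star (mulOp μ u) = mulOp μ u⁻¹ := by
  have h1 : star (mulOp μ u) * mulOp μ u = 1 := by
    rw [ContinuousLinearMap.star_eq_adjoint]
    exact (ContinuousLinearMap.norm_map_iff_adjoint_comp_self (u := mulOp μ u)).1
      (fun ξ => norm_mulOp_apply μ u ξ)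
  calc star (mulOp μ u) = star (mulOp μ u) * (mulOp μ u * mulOp μ u⁻¹) := by
        rw [← mulOp_mul, mul_inv_cancel, mulOp_one, mul_one]
    _ = mulOp μ u⁻¹ := by rw [← mul_assoc, h1, one_mul]

/-- The multiplication operator of a character. -/
def M (γ : PontryaginDual G) : Lp ℂ 2 μ →L[ℂ] Lp ℂ 2 μ := mulOp μ (γ : C(G, Circle))

lemma M_mul_lam (γ : PontryaginDual G) (y : G) :
    M μ γ * lam μ y = (γ y : ℂ) • (lam μ y * M μ γ) := by
  ext1 ξ
  apply Lp.ext
  have h4 : ∀ᵐ a ∂μ, (M μ γ ξ) (y⁻¹ * a) = ((γ (y⁻¹ * a) : Circle) : ℂ) * ξ (y⁻¹ * a) :=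
    (measurePreserving_mul_left μ y⁻¹).quasiMeasurePreserving.ae (mulOp_ae μ (γ : C(G, Circle)) ξ)
  filter_upwards [mulOp_ae μ (γ : C(G, Circle)) (lam μ y ξ), lam_ae μ y ξ,
    lam_ae μ y (M μ γ ξ), h4, Lp.coeFn_smul (γ y : ℂ) (lam μ y (M μ γ ξ))] with a h1 h2 h3 h4 h5
  rw [ContinuousLinearMap.mul_apply, ContinuousLinearMap.smul_apply,
    ContinuousLinearMap.mul_apply, h5, M, h1, h2, Pi.smul_apply]
  change _ = (γ y : ℂ) • ((lam μ y) ((M μ γ) ξ)) a
  rw [h3, h4, map_mul, map_inv, Circle.coe_mul, Circle.coe_inv, smul_eq_mul, ← mul_assoc,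
    ← mul_assoc, mul_inv_cancel₀ (Circle.coe_ne_zero _), one_mul]
  rfl

/-- The product of a compactly supported function with a character. -/
def modul (γ : PontryaginDual G) (h : C_c(G, ℂ)) : C_c(G, ℂ) where
  toFun := fun y => (γ y : ℂ) * h y
  continuous_toFun := (continuous_circle_coe.comp (map_continuous γ)).mul h.continuous
  hasCompactSupport' := h.hasCompactSupport.mul_left

@[simp] lemma modul_apply (γ : PontryaginDual G) (h : C_c(G, ℂ)) (y : G) :
    modul γ h y = (γ y : ℂ) * h y := rfl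

lemma M_mul_T (γ : PontryaginDual G) (h : C_c(G, ℂ)) :
    M μ γ * T μ h = T μ (modul γ h) * M μ γ := by
  ext1 ξ
  rw [ContinuousLinearMap.mul_apply, ContinuousLinearMap.mul_apply, T_apply, T_apply,
    ← ContinuousLinearMap.integral_comp_comm (M μ γ) (integrable_T μ h ξ)]
  congr 1
  ext1 y
  have := congrArg (fun A => A ξ) (M_mul_lam μ γ y)
  simp only [ContinuousLinearMap.mul_apply, ContinuousLinearMap.smul_apply] at this
  rw [map_smul, this, smul_smul, modul_apply, mul_comm (h y)]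

end Rep

end C93
end
end

section

section

/-!
# Pontryagin duals: evaluation, reflexivity, neighbourhoods of the identity
-/

open Filter Topology

noncomputable section

namespace C93

section Defs

variable (A : Type*) [CommGroup A] [TopologicalSpace A]

instance instContinuousEvalConstPD : ContinuousEvalConst (PontryaginDual A) A Circle :=
  inferInstanceAs (ContinuousEvalConst (A →ₜ* Circle) A Circle)

variable {A}

/-- Evaluation at a point, as a character of the dual group. -/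
def ev (a : A) : PontryaginDual (PontryaginDual A) :=
  { toFun := fun χ => χ a
    map_one' := rfl
    map_mul' := fun _ _ => rfl
    continuous_toFun := continuous_eval_const a }

@[simp] lemma ev_apply (a : A) (χ : PontryaginDual A) : ev a χ = χ a := rfl

variable (A) in
/-- The evaluation homomorphism into the bidual. -/
def evHom : A →* PontryaginDual (PontryaginDual A) where
  toFun := ev
  map_one' := PontryaginDual.ext fun χ => map_one χ
  map_mul' := fun a b => PontryaginDual.ext fun χ => map_mul χ a b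

@[simp] lemma evHom_apply (a : A) (χ : PontryaginDual A) : evHom A a χ = χ a := rfl

lemma reflexive_of (hb : Function.Surjective (evHom A)) (hi : Topology.IsInducing (evHom A))
    [T0Space A] : Reflexive A := by
  have hinj : Function.Injective (evHom A) := hi.injective
  refine ⟨{ MulEquiv.ofBijective (evHom A) ⟨hinj, hb⟩ with
    continuous_toFun := hi.continuous
    continuous_invFun := ?_ }, fun a χ => rfl⟩
  rw [hi.continuous_iff]
  convert continuous_id using 1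
  ext x : 1
  exact (MulEquiv.ofBijective (evHom A) ⟨hinj, hb⟩).apply_symm_apply x

lemma Reflexive.surj (h : Reflexive A) : Function.Surjective (evHom A) := by
  obtain ⟨e, he⟩ := h
  intro ω
  refine ⟨e.symm ω, PontryaginDual.ext fun χ => ?_⟩
  rw [evHom_apply, ← he, ContinuousMulEquiv.apply_symm_apply]

lemma Reflexive.inducing (h : Reflexive A) : Topology.IsInducing (evHom A) := by
  obtain ⟨e, he⟩ := h
  have : (evHom A : A → PontryaginDual (PontryaginDual A)) = e := by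
    ext a : 1
    exact PontryaginDual.ext fun χ => (he a χ).symm
  rw [this]
  exact e.toHomeomorph.isInducing

end Defs

section Nhds

variable {A : Type*} [CommGroup A] [TopologicalSpace A]

lemma circle_dist (z w : Circle) : dist z w = ‖(z : ℂ) - w‖ := by
  change dist (z : ℂ) (w : ℂ) = _
  rw [dist_eq_norm]

lemma isInducing_PD : Topology.IsInducing
    (fun χ : PontryaginDual A => (χ : C(A, Circle))) :=
  ContinuousMonoidHom.isInducing_toContinuousMap A Circle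

lemma nhds_hasBasis (χ₀ : PontryaginDual A) : (𝓝 χ₀).HasBasis
    (fun p : Set A × ℝ => IsCompact p.1 ∧ 0 < p.2)
    (fun p => {χ | ∀ a ∈ p.1, ‖(χ a : ℂ) - χ₀ a‖ < p.2}) := by
  rw [isInducing_PD.nhds_eq_comap]
  have h1 := (Metric.uniformity_basis_dist (α := Circle)).compactConvergenceUniformity (α := A)
  have h2 := nhds_basis_uniformity' h1 (x := (χ₀ : C(A, Circle)))
  refine (h2.comap _).to_hasBasis ?_ ?_
  · rintro ⟨K, ε⟩ ⟨hK, hε⟩
    refine ⟨⟨K, ε⟩, ⟨hK, hε⟩, fun χ hχ a ha => ?_⟩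
    change dist (χ₀ a) (χ a) < ε
    rw [dist_comm, circle_dist]
    exact hχ a ha
  · rintro ⟨K, ε⟩ ⟨hK, hε⟩
    refine ⟨⟨K, ε⟩, ⟨hK, hε⟩, fun χ hχ a ha => ?_⟩
    have := hχ a ha
    change dist (χ₀ a) (χ a) < ε at this
    rwa [dist_comm, circle_dist] at this

lemma nhds_one_hasBasis : (𝓝 (1 : PontryaginDual A)).HasBasis
    (fun p : Set A × ℝ => IsCompact p.1 ∧ 0 < p.2)
    (fun p => {χ | ∀ a ∈ p.1, ‖(χ a : ℂ) - 1‖ < p.2}) := nhds_hasBasis 1

lemma mem_nhds_one_of_isCompact {K : Set A} (hK : IsCompact K) {ε : ℝ} (hε : 0 < ε) :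
    {χ : PontryaginDual A | ∀ a ∈ K, ‖(χ a : ℂ) - 1‖ < ε} ∈ 𝓝 (1 : PontryaginDual A) :=
  nhds_one_hasBasis.mem_of_mem (i := ⟨K, ε⟩) ⟨hK, hε⟩

/-- neighbourhoods of `1` in the circle. -/
lemma circle_nhds_one_hasBasis : (𝓝 (1 : Circle)).HasBasis (fun ε : ℝ => 0 < ε)
    (fun ε => {z : Circle | ‖(z : ℂ) - 1‖ < ε}) := by
  have := Metric.nhds_basis_ball (x := (1 : Circle))
  convert this using 2 with ε
  ext z
  rw [Metric.mem_ball, circle_dist]
  rfl

lemma continuous_char_pair' [LocallyCompactSpace A] :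
    Continuous fun p : PontryaginDual A × A => p.1 p.2 := by
  have h := (ContinuousMonoidHom.instContinuousEval (A := A) (B := Circle)).continuous_eval
  exact h

lemma continuous_evHom [LocallyCompactSpace A] : Continuous (evHom A) := by
  refine ContinuousMonoidHom.continuous_of_continuous_uncurry _ ?_
  exact continuous_char_pair'.comp continuous_swap

/-- In a locally compact group, compact sets of characters are equicontinuous. -/
lemma exists_nhds_of_isCompact [LocallyCompactSpace A] {K : Set (PontryaginDual A)}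
    (hK : IsCompact K) {ε : ℝ} (hε : 0 < ε) :
    ∃ U ∈ 𝓝 (1 : A), ∀ χ ∈ K, ∀ y ∈ U, ‖(χ y : ℂ) - 1‖ < ε := by
  have h := hK.eventually_forall_of_forall_eventually (x₀ := (1 : A))
    (P := fun y χ => ‖(χ y : ℂ) - 1‖ < ε) ?_
  · refine ⟨{y | ∀ χ ∈ K, ‖(χ y : ℂ) - 1‖ < ε}, h, fun χ hχ y hy => hy χ hχ⟩
  · intro χ _
    have hc : Continuous fun z : A × PontryaginDual A => ‖((z.2 z.1 : Circle) : ℂ) - 1‖ := by
      have h1 : Continuous fun z : A × PontryaginDual A => z.2 z.1 :=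
        continuous_char_pair'.comp continuous_swap
      have h2 : Continuous fun z : Circle => (z : ℂ) := continuous_subtype_val
      exact ((h2.comp h1).sub continuous_const).norm
    apply hc.continuousAt.eventually_lt continuousAt_const
    simpa using hε

end Nhds

end C93
end
end

section

/-!
# Characters of a commutative C*-algebra generated by translations: abstract part
-/

open MeasureTheory DomMulAct Filter Topology WeakDual
open scoped ENNReal CompactlySupported InnerProductSpace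

set_option linter.unusedSectionVars false
set_option linter.deprecated false
set_option linter.overlappingInstances false

noncomputable section

namespace C93

variable {G : Type*} [CommGroup G] [TopologicalSpace G] [IsTopologicalGroup G]
  [MeasurableSpace G] [BorelSpace G] [LocallyCompactSpace G] [T2Space G]

/-- Translations and convolution operators in a commutative C*-algebra. -/
structure ConvData (G : Type*) [CommGroup G] [TopologicalSpace G] [IsTopologicalGroup G]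
    [MeasurableSpace G] [BorelSpace G] [LocallyCompactSpace G] [T2Space G]
    (B : Type*) [CommCStarAlgebra B] where
  /-- translations -/
  L : G →* B
  norm_L : ∀ y, ‖L y‖ ≤ 1
  /-- convolutions -/
  T : C_c(G, ℂ) → B
  T_sub : ∀ h k, T (h - k) = T h - T k
  L_mul_T : ∀ x h, L x * T h = T (transl x h)
  cont_T : ∀ h, Continuous fun x => T (transl x h)
  /-- conjugation by multiplication with characters -/
  Ad : PontryaginDual G → B →⋆ₐ[ℂ] B
  Ad_L : ∀ γ y, Ad γ (L y) = (γ y : ℂ) • L y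
  Ad_T : ∀ γ h, Ad γ (T h) = T (modul γ h)

namespace ConvData

variable {B : Type*} [CommCStarAlgebra B] [Nontrivial B] (D : ConvData G B)

lemma char_norm_le (φ : characterSpace ℂ B) (b : B) : ‖φ b‖ ≤ ‖b‖ := by
  have : NormOneClass B := ⟨CStarRing.norm_one⟩
  exact AlgHom.norm_apply_le_self φ b

lemma char_L_norm (φ : characterSpace ℂ B) (y : G) : ‖φ (D.L y)‖ = 1 := by
  have hle : ∀ z : G, ‖φ (D.L z)‖ ≤ 1 := fun z =>
    (char_norm_le φ _).trans (D.norm_L z)
  have h1 : φ (D.L y) * φ (D.L y⁻¹) = 1 := by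
    rw [← map_mul, ← map_mul, mul_inv_cancel, map_one, map_one]
  have h2 : ‖φ (D.L y)‖ * ‖φ (D.L y⁻¹)‖ = 1 := by rw [← norm_mul, h1, norm_one]
  refine le_antisymm (hle y) ?_
  calc (1 : ℝ) = ‖φ (D.L y)‖ * ‖φ (D.L y⁻¹)‖ := h2.symm
    _ ≤ ‖φ (D.L y)‖ * 1 := mul_le_mul_of_nonneg_left (hle _) (norm_nonneg _)
    _ = _ := mul_one _

/-- The unimodular homomorphism attached to a character of `B`. -/
def chi (φ : characterSpace ℂ B) : G →* Circle where
  toFun := fun y => ⟨φ (D.L y), mem_sphere_zero_iff_norm.2 (D.char_L_norm φ y)⟩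
  map_one' := Circle.ext (by
    change φ (D.L 1) = 1
    rw [map_one, map_one])
  map_mul' := fun y z => Circle.ext (by
    change φ (D.L (y * z)) = φ (D.L y) * φ (D.L z)
    rw [map_mul, map_mul])

lemma chi_coe (φ : characterSpace ℂ B) (y : G) : (D.chi φ y : ℂ) = φ (D.L y) := rfl

/-- The nondegenerate characters of `B`. -/
def Om0 : Set (characterSpace ℂ B) := {φ | ∃ h, φ (D.T h) ≠ 0}

lemma continuous_char_apply (b : B) : Continuous fun φ : characterSpace ℂ B => φ b :=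
  (gelfandTransform ℂ B b).continuous

omit [Nontrivial B] in
lemma continuous_char_apply' (b : B) : Continuous fun φ : characterSpace ℂ B => φ b :=
  (gelfandTransform ℂ B b).continuous

lemma continuous_char_pair :
    Continuous fun p : characterSpace ℂ B × B => p.1 p.2 := by
  rw [continuous_iff_continuousAt]
  rintro ⟨φ0, b0⟩
  rw [ContinuousAt, tendsto_iff_norm_sub_tendsto_zero]
  have h1 : Tendsto (fun p : characterSpace ℂ B × B =>
      ‖p.2 - b0‖ + ‖p.1 b0 - φ0 b0‖) (𝓝 (φ0, b0)) (𝓝 0) := by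
    have hc : Continuous (fun p : characterSpace ℂ B × B =>
      ‖p.2 - b0‖ + ‖p.1 b0 - φ0 b0‖) :=
      ((continuous_snd.sub continuous_const).norm).add
        ((((continuous_char_apply b0).comp continuous_fst).sub continuous_const).norm)
    have := hc.tendsto (φ0, b0)
    simpa using this
  refine squeeze_zero (fun _ => norm_nonneg _) (fun p => ?_) h1
  have : p.1 p.2 - φ0 b0 = p.1 (p.2 - b0) + (p.1 b0 - φ0 b0) := by
    rw [map_sub]; ring
  rw [this]
  exact (norm_add_le _ _).trans (add_le_add_left (char_norm_le _ _) _)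

lemma isOpen_Om0 : IsOpen D.Om0 := by
  have : D.Om0 = ⋃ h : C_c(G, ℂ), {φ | φ (D.T h) ≠ 0} := by
    ext φ; simp [Om0]
  rw [this]
  exact isOpen_iUnion fun h => isOpen_ne_fun (continuous_char_apply _) continuous_const

lemma continuous_chi_pair :
    Continuous fun p : D.Om0 × G => D.chi p.1.1 p.2 := by
  rw [continuous_circle_iff, continuous_iff_continuousAt]
  rintro ⟨⟨φ0, h, hh⟩, y0⟩
  have hU : ∀ᶠ p : D.Om0 × G in 𝓝 (⟨φ0, h, hh⟩, y0), p.1.1 (D.T h) ≠ 0 := by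
    have hc : Continuous fun p : D.Om0 × G => p.1.1 (D.T h) :=
      (continuous_char_apply _).comp (continuous_subtype_val.comp continuous_fst)
    exact hc.continuousAt.eventually_ne hh
  have hc2 : ContinuousAt (fun p : D.Om0 × G =>
      p.1.1 (D.T (transl p.2 h)) / p.1.1 (D.T h)) (⟨φ0, h, hh⟩, y0) := by
    apply ContinuousAt.div
    · exact (continuous_char_pair.comp ((continuous_subtype_val.comp continuous_fst).prodMk
        ((D.cont_T h).comp continuous_snd))).continuousAt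
    · exact ((continuous_char_apply _).comp
        (continuous_subtype_val.comp continuous_fst)).continuousAt
    · exact hh
  refine hc2.congr ?_
  filter_upwards [hU] with p hp
  change _ = p.1.1 (D.L p.2)
  rw [← D.L_mul_T, map_mul, mul_div_assoc, div_self hp, mul_one]

/-- The point of the dual group attached to a nondegenerate character. -/
def dualChar (φ : D.Om0) : PontryaginDual G :=
  { D.chi φ.1 with
    continuous_toFun := D.continuous_chi_pair.comp (continuous_const.prodMk continuous_id) }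

lemma dualChar_apply (φ : D.Om0) (y : G) : D.dualChar φ y = D.chi φ.1 y := rfl

lemma continuous_dualChar : Continuous D.dualChar :=
  ContinuousMonoidHom.continuous_of_continuous_uncurry _ D.continuous_chi_pair

open Classical in
/-- The function on the character space which is the Gelfand transform of `Θ_h`. -/
def FF (ω : PontryaginDual (PontryaginDual G)) (h : C_c(G, ℂ)) (φ : characterSpace ℂ B) : ℂ :=
  if hφ : φ ∈ D.Om0 then (ω (D.dualChar ⟨φ, hφ⟩) : ℂ) * φ (D.T h) else 0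

lemma norm_FF (ω : PontryaginDual (PontryaginDual G)) (h : C_c(G, ℂ))
    (φ : characterSpace ℂ B) : ‖D.FF ω h φ‖ = ‖φ (D.T h)‖ := by
  by_cases hφ : φ ∈ D.Om0
  · rw [FF, dif_pos hφ, norm_mul, Circle.norm_coe, one_mul]
  · rw [FF, dif_neg hφ, norm_zero]
    have : φ (D.T h) = 0 := by
      by_contra h0
      exact hφ ⟨h, h0⟩
    rw [this, norm_zero]

lemma continuous_FF (ω : PontryaginDual (PontryaginDual G)) (h : C_c(G, ℂ)) :
    Continuous (D.FF ω h) := by
  rw [continuous_iff_continuousAt]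
  intro φ0
  by_cases hφ : φ0 ∈ D.Om0
  · have h1 : ContinuousOn (D.FF ω h) D.Om0 := by
      rw [continuousOn_iff_continuous_restrict]
      have : (fun φ : D.Om0 => D.FF ω h φ.1) =
          fun φ : D.Om0 => (ω (D.dualChar φ) : ℂ) * φ.1 (D.T h) := by
        ext φ
        rw [FF, dif_pos φ.2]
      change Continuous (fun φ : D.Om0 => D.FF ω h φ.1)
      rw [this]
      exact (continuous_circle_coe.comp ((map_continuous ω).comp D.continuous_dualChar)).mul
        ((continuous_char_apply _).comp continuous_subtype_val)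
    exact h1.continuousAt (D.isOpen_Om0.mem_nhds hφ)
  · have h0 : φ0 (D.T h) = 0 := by
      by_contra h0
      exact hφ ⟨h, h0⟩
    rw [ContinuousAt]
    have e : D.FF ω h φ0 = 0 := by rw [FF, dif_neg hφ]
    rw [e, tendsto_zero_iff_norm_tendsto_zero]
    simp only [norm_FF]
    have := ((continuous_char_apply (D.T h)).norm).tendsto φ0
    simpa [h0] using this

/-- The operator `Θ_h`. -/
def Th (ω : PontryaginDual (PontryaginDual G)) (h : C_c(G, ℂ)) : B :=
  (gelfandStarTransform B).symm ⟨D.FF ω h, D.continuous_FF ω h⟩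

lemma char_Th (ω : PontryaginDual (PontryaginDual G)) (h : C_c(G, ℂ))
    (φ : characterSpace ℂ B) : φ (D.Th ω h) = D.FF ω h φ := by
  have h1 : gelfandStarTransform B (D.Th ω h) = ⟨D.FF ω h, D.continuous_FF ω h⟩ :=
    (gelfandStarTransform B).apply_symm_apply _
  exact congrArg (fun f : C(characterSpace ℂ B, ℂ) => f φ) h1

omit [Nontrivial B] in
/-- Elements of `B` are determined by the characters. -/
lemma B_ext {a b : B} (h : ∀ φ : characterSpace ℂ B, φ a = φ b) : a = b := by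
  apply (gelfandStarTransform B).injective
  ext φ
  exact h φ

omit [Nontrivial B] in
lemma char_star (φ : characterSpace ℂ B) (b : B) : φ (star b) = star (φ b) := by
  have h1 : gelfandStarTransform B (star b) = star (gelfandStarTransform B b) :=
    map_star _ _
  exact congrArg (fun f : C(characterSpace ℂ B, ℂ) => f φ) h1

omit [Nontrivial B] in
lemma norm_le_of_char {b : B} {C : ℝ} (hC : 0 ≤ C)
    (h : ∀ φ : characterSpace ℂ B, ‖φ b‖ ≤ C) : ‖b‖ ≤ C := by
  have h1 : ‖gelfandTransform ℂ B b‖ = ‖b‖ :=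
    (gelfandTransform_isometry B).norm_map_of_map_zero (map_zero _) b
  rw [← h1, ContinuousMap.norm_le _ hC]
  exact h

lemma Th_sub (ω : PontryaginDual (PontryaginDual G)) (h k : C_c(G, ℂ)) :
    D.Th ω (h - k) = D.Th ω h - D.Th ω k := by
  apply B_ext
  intro φ
  rw [map_sub, char_Th, char_Th, char_Th]
  by_cases hφ : φ ∈ D.Om0
  · simp only [FF, dif_pos hφ, D.T_sub, map_sub, mul_sub]
  · simp only [FF, dif_neg hφ, sub_zero]

lemma star_Th_mul (ω : PontryaginDual (PontryaginDual G)) (h : C_c(G, ℂ)) :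
    star (D.Th ω h) * D.Th ω h = star (D.T h) * D.T h := by
  apply B_ext
  intro φ
  rw [map_mul, map_mul, char_star, char_star, char_Th]
  have key : ∀ z : ℂ, star z * z = ((‖z‖ ^ 2 : ℝ) : ℂ) := by
    intro z
    rw [Complex.star_def, Complex.conj_mul']
    push_cast
    rfl
  rw [key, key, norm_FF]

/-- `φ ↦ φ ∘ Ad_γ`. -/
def adj (γ : PontryaginDual G) (φ : characterSpace ℂ B) : characterSpace ℂ B :=
  CharacterSpace.compContinuousMap (D.Ad γ) φ

lemma adj_apply (γ : PontryaginDual G) (φ : characterSpace ℂ B) (b : B) :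
    D.adj γ φ b = φ (D.Ad γ b) := rfl

lemma adj_T (γ : PontryaginDual G) (φ : characterSpace ℂ B) (h : C_c(G, ℂ)) :
    D.adj γ φ (D.T h) = φ (D.T (modul γ h)) := by rw [adj_apply, D.Ad_T]

lemma adj_mem (γ : PontryaginDual G) (φ : characterSpace ℂ B) : D.adj γ φ ∈ D.Om0 ↔ φ ∈ D.Om0 := by
  constructor
  · rintro ⟨h, hh⟩
    exact ⟨modul γ h, by rwa [← adj_T]⟩
  · rintro ⟨h, hh⟩
    refine ⟨modul γ⁻¹ h, ?_⟩
    rw [adj_T]
    have : modul γ (modul γ⁻¹ h) = h := by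
      ext y
      have h1 : (γ⁻¹ : PontryaginDual G) y = (γ y)⁻¹ := rfl
      rw [modul_apply, modul_apply, h1, Circle.coe_inv, ← mul_assoc,
        mul_inv_cancel₀ (Circle.coe_ne_zero _), one_mul]
    rwa [this]

lemma dualChar_adj (γ : PontryaginDual G) (φ : characterSpace ℂ B) (h1 : D.adj γ φ ∈ D.Om0)
    (h2 : φ ∈ D.Om0) : D.dualChar ⟨D.adj γ φ, h1⟩ = γ * D.dualChar ⟨φ, h2⟩ := by
  apply PontryaginDual.ext
  intro y
  apply Circle.ext
  change D.adj γ φ (D.L y) = (γ y : ℂ) * φ (D.L y)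
  rw [adj_apply, D.Ad_L, map_smul, smul_eq_mul]

lemma Ad_Th (ω : PontryaginDual (PontryaginDual G)) (γ : PontryaginDual G) (h : C_c(G, ℂ)) :
    D.Ad γ (D.Th ω h) = (ω γ : ℂ) • D.Th ω (modul γ h) := by
  apply B_ext
  intro φ
  rw [← adj_apply, char_Th, map_smul, char_Th, smul_eq_mul]
  by_cases hφ : φ ∈ D.Om0
  · have hφ' := (D.adj_mem γ φ).2 hφ
    rw [FF, dif_pos hφ', FF, dif_pos hφ, D.dualChar_adj γ φ hφ' hφ, map_mul, adj_T,
      Circle.coe_mul, mul_assoc]
  · have hφ' : D.adj γ φ ∉ D.Om0 := fun h => hφ ((D.adj_mem γ φ).1 h)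
    rw [FF, dif_neg hφ', FF, dif_neg hφ, mul_zero]

/-- The set of points of the dual on which the transform of `h` is large. -/
def KK (h : C_c(G, ℂ)) (c : ℝ) : Set (PontryaginDual G) :=
  D.dualChar '' {φ : D.Om0 | c ≤ ‖φ.1 (D.T h)‖}

lemma isCompact_KK (h : C_c(G, ℂ)) {c : ℝ} (hc : 0 < c) : IsCompact (D.KK h c) := by
  apply IsCompact.image _ D.continuous_dualChar
  rw [Topology.IsInducing.subtypeVal.isCompact_iff]
  have : (Subtype.val '' {φ : D.Om0 | c ≤ ‖φ.1 (D.T h)‖} : Set (characterSpace ℂ B)) =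
      {φ | c ≤ ‖φ (D.T h)‖} := by
    ext φ
    constructor
    · rintro ⟨ψ, h1, rfl⟩
      exact h1
    · intro h1
      refine ⟨⟨φ, h, fun h0 => ?_⟩, h1, rfl⟩
      rw [Set.mem_setOf_eq, h0, norm_zero] at h1
      linarith
  rw [this]
  exact (isClosed_le continuous_const (continuous_char_apply _).norm).isCompact

/-- If `x` is close to `1` on the compact set `KK`, then `λ_x T_h` is close to `T_h`. -/
lemma norm_L_mul_T_sub_le {h : C_c(G, ℂ)} {c : ℝ} (hc : 0 < c) (hT : ‖D.T h‖ ≤ 1) {x : G}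
    (hx : ∀ γ ∈ D.KK h c, ‖(γ x : ℂ) - 1‖ ≤ 2 * c) : ‖D.L x * D.T h - D.T h‖ ≤ 2 * c := by
  apply norm_le_of_char (by positivity)
  intro φ
  have e : φ (D.L x * D.T h - D.T h) = (φ (D.L x) - 1) * φ (D.T h) := by
    rw [map_sub, map_mul, sub_mul, one_mul]
  rw [e, norm_mul]
  by_cases hφ : c ≤ ‖φ (D.T h)‖
  · have hφ0 : φ ∈ D.Om0 := ⟨h, fun h0 => by rw [h0, norm_zero] at hφ; linarith⟩
    have h1 := hx (D.dualChar ⟨φ, hφ0⟩) ⟨⟨φ, hφ0⟩, hφ, rfl⟩
    have h2 : ‖φ (D.T h)‖ ≤ 1 := (char_norm_le φ _).trans hT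
    calc ‖φ (D.L x) - 1‖ * ‖φ (D.T h)‖ ≤ (2 * c) * 1 :=
          mul_le_mul h1 h2 (norm_nonneg _) (by positivity)
      _ = 2 * c := mul_one _
  · have h1 : ‖φ (D.L x) - 1‖ ≤ 2 := by
      calc ‖φ (D.L x) - 1‖ ≤ ‖φ (D.L x)‖ + ‖(1 : ℂ)‖ := norm_sub_le _ _
        _ = 2 := by rw [D.char_L_norm, norm_one]; norm_num
    exact mul_le_mul h1 (not_le.1 hφ).le (norm_nonneg _) (by norm_num)

end ConvData

end C93
end
end

section

/-!
# Localised vectors and approximate identities in `L²(G)`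
-/

open MeasureTheory DomMulAct Filter Topology
open scoped ENNReal CompactlySupported InnerProductSpace

set_option linter.unusedSectionVars false
set_option linter.deprecated false
set_option linter.overlappingInstances false

noncomputable section

namespace C93

variable {G : Type*} [CommGroup G] [TopologicalSpace G] [IsTopologicalGroup G]
  [MeasurableSpace G] [BorelSpace G] (μ : Measure G)
  [μ.IsHaarMeasure] [LocallyCompactSpace G] [T2Space G] [μ.Regular]

lemma exists_bump {U : Set G} (hU : U ∈ 𝓝 (1 : G)) :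
    ∃ g : C_c(G, ℝ), (∀ y, 0 ≤ g y) ∧ g 1 = 1 ∧ Function.support g ⊆ U := by
  obtain ⟨g, hg1, hg0, hgs, hgr⟩ := exists_continuous_one_zero_of_isCompact
    (isCompact_singleton (x := (1 : G))) (isOpen_interior (s := U)).isClosed_compl
    (Set.disjoint_compl_right_iff_subset.2 (Set.singleton_subset_iff.2
      (mem_interior_iff_mem_nhds.2 hU)))
  refine ⟨⟨g, hgs⟩, fun y => (hgr y).1, hg1 rfl, fun y hy => ?_⟩
  by_contra hyU
  exact hy (hg0 (fun h => hyU (interior_subset h)))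

lemma exists_kernel {V : Set G} (hV : V ∈ 𝓝 (1 : G)) :
    ∃ h : C_c(G, ℂ), Function.support h ⊆ V ∧ ∫ y, ‖h y‖ ∂μ = 1 ∧ ∫ y, h y ∂μ = 1 := by
  obtain ⟨g, hg0, hg1, hgs⟩ := exists_bump hV
  have hpos : 0 < ∫ y, g y ∂μ :=
    g.continuous.integral_pos_of_hasCompactSupport_nonneg_nonzero g.hasCompactSupport hg0
      (x := 1) (by rw [hg1]; exact one_ne_zero)
  set I := ∫ y, g y ∂μ
  refine ⟨⟨⟨fun y => ((g y / I : ℝ) : ℂ), ?_⟩, ?_⟩, ?_, ?_, ?_⟩
  · exact Complex.continuous_ofReal.comp (g.continuous.div_const I)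
  · have : HasCompactSupport (fun y => g y / I) := by
      refine g.hasCompactSupport.mono (fun y hy => ?_)
      intro h0
      apply hy
      simp [h0]
    exact this.comp_left (g := fun r : ℝ => (r : ℂ)) (by simp)
  · intro y hy
    apply hgs
    intro h0
    apply hy
    change ((g y / I : ℝ) : ℂ) = 0
    simp [h0]
  · have : ∀ y, ‖((g y / I : ℝ) : ℂ)‖ = g y / I := fun y => by
      rw [Complex.norm_real, Real.norm_of_nonneg (div_nonneg (hg0 y) hpos.le)]
    change ∫ y, ‖((g y / I : ℝ) : ℂ)‖ ∂μ = 1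
    simp only [this]
    rw [integral_div, div_self hpos.ne']
  · change ∫ y, ((g y / I : ℝ) : ℂ) ∂μ = 1
    rw [integral_complex_ofReal, integral_div, div_self hpos.ne']
    simp

lemma norm_T_sub_self_le {h : C_c(G, ℂ)} {V : Set G} (hs : Function.support h ⊆ V)
    (h1 : ∫ y, ‖h y‖ ∂μ = 1) (h2 : ∫ y, h y ∂μ = 1) (ξ : Lp ℂ 2 μ) {δ : ℝ}
    (hδ : ∀ y ∈ V, ‖lam μ y ξ - ξ‖ ≤ δ) : ‖T μ h ξ - ξ‖ ≤ δ := by
  have hi : Integrable (fun y => h y) μ :=
    h.continuous.integrable_of_hasCompactSupport h.hasCompactSupport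
  have e : T μ h ξ - ξ = ∫ y, h y • (lam μ y ξ - ξ) ∂μ := by
    simp only [smul_sub]
    rw [integral_sub (integrable_T μ h ξ) (hi.smul_const ξ), integral_smul_const, h2, one_smul,
      T_apply]
  rw [e]
  have hle : ∀ y, ‖h y • (lam μ y ξ - ξ)‖ ≤ ‖h y‖ * δ := by
    intro y
    rw [norm_smul]
    by_cases hy : h y = 0
    · simp [hy]
    · exact mul_le_mul_of_nonneg_left (hδ y (hs hy)) (norm_nonneg _)
  calc ‖∫ y, h y • (lam μ y ξ - ξ) ∂μ‖ ≤ ∫ y, ‖h y • (lam μ y ξ - ξ)‖ ∂μ :=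
        norm_integral_le_integral_norm _
    _ ≤ ∫ y, ‖h y‖ * δ ∂μ := by
        apply integral_mono_of_nonneg (Eventually.of_forall fun _ => norm_nonneg _)
          (hi.norm.mul_const δ) (Eventually.of_forall hle)
    _ = δ := by rw [integral_mul_const, h1, one_mul]

/-- A unit vector in `L²(G)` localised in `U`. -/
lemma exists_localised {U : Set G} (hU : U ∈ 𝓝 (1 : G)) :
    ∃ ξ : Lp ℂ 2 μ, ‖ξ‖ = 1 ∧ ∀ᵐ a ∂μ, a ∉ U → ξ a = 0 := by
  obtain ⟨g, hg0, hg1, hgs⟩ := exists_bump hU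
  have hc : Continuous (fun y => (g y : ℂ)) := Complex.continuous_ofReal.comp g.continuous
  have hcs : HasCompactSupport (fun y => (g y : ℂ)) :=
    g.hasCompactSupport.comp_left (g := fun r : ℝ => (r : ℂ)) (by simp)
  have hm : MemLp (fun y => (g y : ℂ)) 2 μ := hc.memLp_of_hasCompactSupport hcs
  set ξ := hm.toLp _ with hξ
  have hne : ξ ≠ 0 := by
    intro h0
    have h1 : (fun y => (g y : ℂ)) =ᵐ[μ] 0 := by
      have := hm.coeFn_toLp
      rw [← hξ, h0] at this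
      exact this.symm.trans (Lp.coeFn_zero _ _ _)
    have h2 : (fun y => (g y : ℂ)) = 0 := by
      exact (Continuous.ae_eq_iff_eq μ hc continuous_zero).1 h1
    have := congrFun h2 1
    simp [hg1] at this
  refine ⟨((‖ξ‖⁻¹ : ℝ) : ℂ) • ξ, ?_, ?_⟩
  · rw [norm_smul, Complex.norm_real, norm_inv, norm_norm, inv_mul_cancel₀ (norm_ne_zero_iff.2 hne)]
  · filter_upwards [hm.coeFn_toLp, Lp.coeFn_smul ((‖ξ‖⁻¹ : ℝ) : ℂ) ξ] with a h1 h2 ha
    rw [h2, Pi.smul_apply, hξ, h1]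
    have : g a = 0 := by
      by_contra h
      exact ha (hgs h)
    simp [this]

lemma norm_M_sub_self_le {U : Set G} {ξ : Lp ℂ 2 μ} (hξ : ∀ᵐ a ∂μ, a ∉ U → ξ a = 0)
    (γ : PontryaginDual G) {ε : ℝ} (hε : ∀ a ∈ U, ‖(γ a : ℂ) - 1‖ ≤ ε) :
    ‖M μ γ ξ - ξ‖ ≤ ε * ‖ξ‖ := by
  apply Lp.norm_le_mul_norm_of_ae_le_mul
  filter_upwards [hξ, mulOp_ae μ (γ : C(G, Circle)) ξ, Lp.coeFn_sub (M μ γ ξ) ξ] with a h1 h2 h3
  rw [h3, Pi.sub_apply, M, h2]
  by_cases ha : a ∈ U
  · have : ((γ : C(G, Circle)) a : ℂ) * ξ a - ξ a = ((γ a : ℂ) - 1) * ξ a := by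
      rw [sub_mul, one_mul]; rfl
    rw [this, norm_mul]
    exact mul_le_mul_of_nonneg_right (hε a ha) (norm_nonneg _)
  · simp [h1 ha]

/-- If `ξ` is localised in `U` and `λ_x ξ` is close to `ξ`, then `x ∈ U U⁻¹`. -/
lemma mem_of_norm_lam_sub_lt {U : Set G} {ξ : Lp ℂ 2 μ} (hξ1 : ‖ξ‖ = 1)
    (hξ : ∀ᵐ a ∂μ, a ∉ U → ξ a = 0) {x : G} (hx : ‖lam μ x ξ - ξ‖ < 1) :
    ∃ a ∈ U, ∃ b ∈ U, x = a * b⁻¹ := by
  by_contra hcon
  have hdisj : ∀ a, a ∈ U → x⁻¹ * a ∉ U := by
    intro a ha hb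
    exact hcon ⟨a, ha, x⁻¹ * a, hb, by group⟩
  have h0 : ⟪lam μ x ξ, ξ⟫_ℂ = 0 := by
    rw [L2.inner_def]
    have : ∀ᵐ a ∂μ, ⟪(lam μ x ξ) a, ξ a⟫_ℂ = 0 := by
      have h4 : ∀ᵐ a ∂μ, x⁻¹ * a ∉ U → ξ (x⁻¹ * a) = 0 :=
        (measurePreserving_mul_left μ x⁻¹).quasiMeasurePreserving.ae hξ
      filter_upwards [hξ, h4, lam_ae μ x ξ] with a h1 h2 h3
      by_cases ha : a ∈ U
      · rw [h3, h2 (hdisj a ha), inner_zero_left]
      · rw [h1 ha, inner_zero_right]
    rw [integral_congr_ae this, integral_zero]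
  have h1 := norm_sub_sq (𝕜 := ℂ) (lam μ x ξ) ξ
  rw [h0, norm_lam_apply, hξ1] at h1
  simp at h1
  nlinarith [norm_nonneg (lam μ x ξ - ξ)]

lemma norm_toLp_sq {f : G → ℂ} (hf : MemLp f 2 μ) : ‖hf.toLp f‖ ^ 2 = ∫ a, ‖f a‖ ^ 2 ∂μ := by
  have h1 : ((‖hf.toLp f‖ ^ 2 : ℝ) : ℂ) = ((∫ a, ‖f a‖ ^ 2 ∂μ : ℝ) : ℂ) := by
    have h2 := inner_self_eq_norm_sq_to_K (𝕜 := ℂ) (hf.toLp f)
    have h3 : ⟪hf.toLp f, hf.toLp f⟫_ℂ = ∫ a, ((‖f a‖ ^ 2 : ℝ) : ℂ) ∂μ := by
      rw [L2.inner_def]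
      apply integral_congr_ae
      filter_upwards [hf.coeFn_toLp] with a ha
      rw [ha, inner_self_eq_norm_sq_to_K]
      simp
    rw [integral_complex_ofReal] at h3
    rw [← h3, h2]
    simp
  exact_mod_cast h1

end C93
end
end

section

/-!
# The bicommutant of the translations on `L²(G)`
-/

open MeasureTheory DomMulAct Filter Topology WeakDual
open scoped ENNReal CompactlySupported InnerProductSpace

set_option linter.unusedSectionVars false
set_option linter.deprecated false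
set_option linter.overlappingInstances false
set_option linter.unusedVariables false

noncomputable section

namespace C93

variable {G : Type*} [CommGroup G] [TopologicalSpace G] [IsTopologicalGroup G]
  [MeasurableSpace G] [BorelSpace G] (μ : Measure G)
  [μ.IsHaarMeasure]

/-- The commutant of the translations. -/
def NN : StarSubalgebra ℂ (Lp ℂ 2 μ →L[ℂ] Lp ℂ 2 μ) :=
  StarSubalgebra.centralizer ℂ (Set.range (lam μ))

/-- The bicommutant of the translations. -/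
def BB : StarSubalgebra ℂ (Lp ℂ 2 μ →L[ℂ] Lp ℂ 2 μ) :=
  StarSubalgebra.centralizer ℂ (NN μ : Set (Lp ℂ 2 μ →L[ℂ] Lp ℂ 2 μ))

lemma mem_NN {z : Lp ℂ 2 μ →L[ℂ] Lp ℂ 2 μ} : z ∈ NN μ ↔ ∀ y, Commute z (lam μ y) := by
  rw [NN, StarSubalgebra.mem_centralizer_iff]
  constructor
  · intro h y
    exact ((h _ ⟨y, rfl⟩).1).symm
  · rintro h _ ⟨y, rfl⟩
    refine ⟨(h y).symm, ?_⟩
    rw [star_lam]
    exact (h y⁻¹).symm

lemma mem_BB {z : Lp ℂ 2 μ →L[ℂ] Lp ℂ 2 μ} :
    z ∈ BB μ ↔ ∀ n ∈ NN μ, Commute n z := by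
  rw [BB, StarSubalgebra.mem_centralizer_iff]
  constructor
  · intro h n hn
    exact (h n hn).1
  · intro h n hn
    exact ⟨h n hn, h (star n) (star_mem hn)⟩

lemma lam_mem_NN (y : G) : lam μ y ∈ NN μ := (mem_NN μ).2 fun z => lam_commute μ y z

lemma lam_mem_BB (y : G) : lam μ y ∈ BB μ := (mem_BB μ).2 fun _n hn => (mem_NN μ).1 hn y

lemma BB_le_NN : BB μ ≤ NN μ := fun _ hz =>
  (mem_NN μ).2 fun y => ((mem_BB μ).1 hz _ (lam_mem_NN μ y)).symm

instance isClosed_BB : IsClosed (BB μ : Set (Lp ℂ 2 μ →L[ℂ] Lp ℂ 2 μ)) := by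
  have : (BB μ : Set (Lp ℂ 2 μ →L[ℂ] Lp ℂ 2 μ)) =
      ⋂ n ∈ NN μ, {z | n * z = z * n} := by
    ext z
    simp only [SetLike.mem_coe, mem_BB, Set.mem_iInter, Set.mem_setOf_eq]
    rfl
  rw [this]
  exact isClosed_biInter fun n _ =>
    isClosed_eq (continuous_const.mul continuous_id) (continuous_id.mul continuous_const)

instance commCStar_BB : CommCStarAlgebra (BB μ) :=
  { StarSubalgebra.cstarAlgebra (BB μ) with
    mul_comm := fun x y => Subtype.ext ((mem_BB μ).1 y.2 _ (BB_le_NN μ x.2)) }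

variable [LocallyCompactSpace G] [T2Space G] [μ.Regular]

instance nontrivial_L2 : Nontrivial (Lp ℂ 2 μ) := by
  obtain ⟨ξ, h1, -⟩ := exists_localised μ (U := (Set.univ : Set G)) univ_mem
  exact ⟨ξ, 0, fun h => by simp [h] at h1⟩

instance nontrivial_BB : Nontrivial (BB μ) :=
  ⟨1, 0, fun h => one_ne_zero (α := Lp ℂ 2 μ →L[ℂ] Lp ℂ 2 μ) (congrArg Subtype.val h)⟩

lemma M_mul_M_inv (γ : PontryaginDual G) : M μ γ * M μ γ⁻¹ = 1 := by
  rw [M, M, ← mulOp_mul]
  have : (γ : C(G, Circle)) * ((γ⁻¹ : PontryaginDual G) : C(G, Circle)) = 1 := by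
    ext y
    change ((γ y * (γ y)⁻¹ : Circle) : ℂ) = 1
    rw [mul_inv_cancel]; rfl
  rw [this, mulOp_one]

lemma M_inv_mul_M (γ : PontryaginDual G) : M μ γ⁻¹ * M μ γ = 1 := by
  have := M_mul_M_inv μ γ⁻¹
  rwa [inv_inv] at this

lemma star_M (γ : PontryaginDual G) : star (M μ γ) = M μ γ⁻¹ := by
  rw [M, star_mulOp]
  rfl

lemma conj_lam (γ : PontryaginDual G) (y : G) :
    M μ γ * lam μ y * M μ γ⁻¹ = (γ y : ℂ) • lam μ y := by
  rw [M_mul_lam, smul_mul_assoc, mul_assoc, M_mul_M_inv, mul_one]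

lemma conj_T (γ : PontryaginDual G) (h : C_c(G, ℂ)) :
    M μ γ * T μ h * M μ γ⁻¹ = T μ (modul γ h) := by
  rw [M_mul_T, mul_assoc, M_mul_M_inv, mul_one]

lemma conj_mem_NN (γ : PontryaginDual G) {z : Lp ℂ 2 μ →L[ℂ] Lp ℂ 2 μ} (hz : z ∈ NN μ) :
    M μ γ⁻¹ * z * M μ γ ∈ NN μ := by
  rw [mem_NN]
  intro y
  have h1 : M μ γ * lam μ y = (γ y : ℂ) • (lam μ y * M μ γ) := M_mul_lam μ γ y
  have h2 : lam μ y * M μ γ⁻¹ = (γ y : ℂ) • (M μ γ⁻¹ * lam μ y) := by
    have h3 := M_mul_lam μ γ⁻¹ y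
    have h4 : ((γ⁻¹ : PontryaginDual G) y : ℂ) = (γ y : ℂ)⁻¹ := rfl
    rw [h3, h4, smul_smul, mul_inv_cancel₀ (Circle.coe_ne_zero _), one_smul]
  have hz' : z * lam μ y = lam μ y * z := (mem_NN μ).1 hz y
  change M μ γ⁻¹ * z * M μ γ * lam μ y = lam μ y * (M μ γ⁻¹ * z * M μ γ)
  calc M μ γ⁻¹ * z * M μ γ * lam μ y = M μ γ⁻¹ * z * (M μ γ * lam μ y) := by
        simp only [mul_assoc]
    _ = (γ y : ℂ) • (M μ γ⁻¹ * (z * lam μ y) * M μ γ) := by
        rw [h1, mul_smul_comm]; simp only [mul_assoc]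
    _ = (γ y : ℂ) • (M μ γ⁻¹ * lam μ y * z * M μ γ) := by
        rw [hz']; simp only [mul_assoc]
    _ = lam μ y * M μ γ⁻¹ * z * M μ γ := by
        rw [h2]; simp only [smul_mul_assoc]
    _ = lam μ y * (M μ γ⁻¹ * z * M μ γ) := by simp only [mul_assoc]

lemma conj_mem_BB (γ : PontryaginDual G) {z : Lp ℂ 2 μ →L[ℂ] Lp ℂ 2 μ} (hz : z ∈ BB μ) :
    M μ γ * z * M μ γ⁻¹ ∈ BB μ := by
  rw [mem_BB]
  intro n hn
  have h1 : (M μ γ⁻¹ * n * M μ γ) * z = z * (M μ γ⁻¹ * n * M μ γ) :=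
    (mem_BB μ).1 hz _ (conj_mem_NN μ γ hn)
  change n * (M μ γ * z * M μ γ⁻¹) = M μ γ * z * M μ γ⁻¹ * n
  calc n * (M μ γ * z * M μ γ⁻¹) = M μ γ * ((M μ γ⁻¹ * n * M μ γ) * z) * M μ γ⁻¹ := by
        simp only [← mul_assoc, M_mul_M_inv, one_mul]
    _ = M μ γ * (z * (M μ γ⁻¹ * n * M μ γ)) * M μ γ⁻¹ := by rw [h1]
    _ = M μ γ * z * M μ γ⁻¹ * n * (M μ γ * M μ γ⁻¹) := by simp only [mul_assoc]
    _ = _ := by rw [M_mul_M_inv, mul_one]

/-- Conjugation by `M_γ` on `BB`. -/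
def AdB (γ : PontryaginDual G) : BB μ →⋆ₐ[ℂ] BB μ where
  toFun := fun b => ⟨M μ γ * b * M μ γ⁻¹, conj_mem_BB μ γ b.2⟩
  map_one' := Subtype.ext (by
    change M μ γ * 1 * M μ γ⁻¹ = 1
    rw [mul_one, M_mul_M_inv])
  map_mul' := fun a b => Subtype.ext (by
    change M μ γ * ((a : Lp ℂ 2 μ →L[ℂ] Lp ℂ 2 μ) * b) * M μ γ⁻¹ =
      (M μ γ * a * M μ γ⁻¹) * (M μ γ * b * M μ γ⁻¹)
    calc M μ γ * ((a : Lp ℂ 2 μ →L[ℂ] Lp ℂ 2 μ) * b) * M μ γ⁻¹ =
        M μ γ * a * 1 * b * M μ γ⁻¹ := by simp only [mul_assoc, one_mul]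
      _ = M μ γ * a * (M μ γ⁻¹ * M μ γ) * b * M μ γ⁻¹ := by rw [M_inv_mul_M]
      _ = _ := by simp only [mul_assoc])
  map_zero' := Subtype.ext (by
    change M μ γ * 0 * M μ γ⁻¹ = 0
    rw [mul_zero, zero_mul])
  map_add' := fun a b => Subtype.ext (by
    change M μ γ * ((a : Lp ℂ 2 μ →L[ℂ] Lp ℂ 2 μ) + b) * M μ γ⁻¹ =
      (M μ γ * a * M μ γ⁻¹) + (M μ γ * b * M μ γ⁻¹)
    rw [mul_add, add_mul])
  commutes' := fun c => Subtype.ext (by
    change M μ γ * (algebraMap ℂ (Lp ℂ 2 μ →L[ℂ] Lp ℂ 2 μ) c) * M μ γ⁻¹ =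
      algebraMap ℂ (Lp ℂ 2 μ →L[ℂ] Lp ℂ 2 μ) c
    rw [← Algebra.commutes, mul_assoc, M_mul_M_inv, mul_one])
  map_star' := fun a => Subtype.ext (by
    change M μ γ * (star (a : Lp ℂ 2 μ →L[ℂ] Lp ℂ 2 μ)) * M μ γ⁻¹ =
      star (M μ γ * (a : Lp ℂ 2 μ →L[ℂ] Lp ℂ 2 μ) * M μ γ⁻¹)
    rw [star_mul, star_mul, star_M, star_M, inv_inv, mul_assoc])

/-- The convolution data on `L²(G)`. -/
def DD : ConvData G (BB μ) where
  L := { toFun := fun y => ⟨lam μ y, lam_mem_BB μ y⟩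
         map_one' := Subtype.ext (lam_one μ)
         map_mul' := fun y z => Subtype.ext (lam_mul μ y z) }
  norm_L := fun y => norm_lam_le μ y
  T := fun h => ⟨T μ h, (mem_BB μ).2 fun n hn => T_commute μ h n ((mem_NN μ).1 hn)⟩
  T_sub := fun h k => Subtype.ext (T_sub μ h k)
  L_mul_T := fun x h => Subtype.ext (lam_mul_T μ x h)
  cont_T := fun h => (continuous_T_transl μ h).subtype_mk _
  Ad := AdB μ
  Ad_L := fun γ y => Subtype.ext (conj_lam μ γ y)
  Ad_T := fun γ h => Subtype.ext (conj_T μ γ h)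

lemma DD_T_coe (h : C_c(G, ℂ)) : ((DD μ).T h : Lp ℂ 2 μ →L[ℂ] Lp ℂ 2 μ) = T μ h := rfl

lemma DD_L_coe (y : G) : ((DD μ).L y : Lp ℂ 2 μ →L[ℂ] Lp ℂ 2 μ) = lam μ y := rfl

lemma DD_Ad_coe (γ : PontryaginDual G) (b : BB μ) :
    ((DD μ).Ad γ b : Lp ℂ 2 μ →L[ℂ] Lp ℂ 2 μ) = M μ γ * b * M μ γ⁻¹ := rfl

lemma norm_Th_apply (ω : PontryaginDual (PontryaginDual G)) (h : C_c(G, ℂ)) (ξ : Lp ℂ 2 μ) :
    ‖((DD μ).Th ω h : Lp ℂ 2 μ →L[ℂ] Lp ℂ 2 μ) ξ‖ = ‖T μ h ξ‖ := by
  have key : ∀ A : Lp ℂ 2 μ →L[ℂ] Lp ℂ 2 μ, ((‖A ξ‖ ^ 2 : ℝ) : ℂ) = ⟪(star A * A) ξ, ξ⟫_ℂ := by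
    intro A
    rw [ContinuousLinearMap.mul_apply, ContinuousLinearMap.star_eq_adjoint,
      ContinuousLinearMap.adjoint_inner_left, inner_self_eq_norm_sq_to_K]
    push_cast
    rfl
  have h1 : star ((DD μ).Th ω h : Lp ℂ 2 μ →L[ℂ] Lp ℂ 2 μ) *
      ((DD μ).Th ω h : Lp ℂ 2 μ →L[ℂ] Lp ℂ 2 μ) =
      star (T μ h) * T μ h := congrArg Subtype.val ((DD μ).star_Th_mul ω h)
  have h2 : ((‖((DD μ).Th ω h : Lp ℂ 2 μ →L[ℂ] Lp ℂ 2 μ) ξ‖ ^ 2 : ℝ) : ℂ) =
      ((‖T μ h ξ‖ ^ 2 : ℝ) : ℂ) := by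
    rw [key, key, h1]
  have h3 : ‖((DD μ).Th ω h : Lp ℂ 2 μ →L[ℂ] Lp ℂ 2 μ) ξ‖ ^ 2 = ‖T μ h ξ‖ ^ 2 := by
    exact_mod_cast h2
  exact (pow_left_inj₀ (norm_nonneg _) (norm_nonneg _) two_ne_zero).1 h3

include μ in
/-- Embedding part: characters close to `1` on a compact set detect neighbourhoods of `1`. -/
theorem exists_compact_detect {U : Set G} (hU : U ∈ 𝓝 (1 : G)) :
    ∃ K : Set (PontryaginDual G), IsCompact K ∧ ∃ c > 0, ∀ x : G,
      (∀ γ ∈ K, ‖(γ x : ℂ) - 1‖ ≤ c) → x ∈ U := by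
  obtain ⟨V, hV, -, hVinv, hVU⟩ := exists_closed_nhds_one_inv_eq_mul_subset hU
  obtain ⟨ξ, hξ1, hξ⟩ := exists_localised μ hV
  have hW : {y : G | ‖lam μ y ξ - ξ‖ < 1 / 8} ∈ 𝓝 (1 : G) := by
    have hc : Continuous fun y => ‖lam μ y ξ - ξ‖ :=
      ((continuous_lam_apply μ ξ).sub continuous_const).norm
    have : {y : G | ‖lam μ y ξ - ξ‖ < 1 / 8} = (fun y => ‖lam μ y ξ - ξ‖) ⁻¹' Set.Iio (1 / 8) := rfl
    rw [this]
    apply hc.continuousAt.preimage_mem_nhds
    apply Iio_mem_nhds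
    simp
  obtain ⟨h, hs, hn, hi⟩ := exists_kernel μ hW
  have hTξ : ‖T μ h ξ - ξ‖ ≤ 1 / 8 :=
    norm_T_sub_self_le μ hs hn hi ξ (fun y hy => (le_of_lt hy))
  have hT1 : ‖(DD μ).T h‖ ≤ 1 := (norm_T_le μ h).trans hn.le
  refine ⟨(DD μ).KK h (1 / 16), (DD μ).isCompact_KK h (by norm_num), 2 * (1 / 16), by norm_num,
    fun x hx => ?_⟩
  have h1 : ‖(DD μ).L x * (DD μ).T h - (DD μ).T h‖ ≤ 2 * (1 / 16) :=
    (DD μ).norm_L_mul_T_sub_le (by norm_num) hT1 hx
  have h2 : ‖(lam μ x * T μ h - T μ h) ξ‖ ≤ 1 / 8 := by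
    have h3 : ‖lam μ x * T μ h - T μ h‖ ≤ 2 * (1 / 16) := h1
    calc ‖(lam μ x * T μ h - T μ h) ξ‖ ≤ 2 * (1 / 16) * ‖ξ‖ :=
          ContinuousLinearMap.le_of_opNorm_le _ h3 ξ
      _ = 1 / 8 := by rw [hξ1]; norm_num
  have h4 : lam μ x ξ - ξ = -(lam μ x (T μ h ξ - ξ)) + (lam μ x * T μ h - T μ h) ξ +
      (T μ h ξ - ξ) := by
    rw [ContinuousLinearMap.sub_apply, ContinuousLinearMap.mul_apply, map_sub]
    abel
  have h5 : ‖lam μ x ξ - ξ‖ < 1 := by
    rw [h4]
    calc ‖-(lam μ x (T μ h ξ - ξ)) + (lam μ x * T μ h - T μ h) ξ + (T μ h ξ - ξ)‖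
        ≤ ‖-(lam μ x (T μ h ξ - ξ))‖ + ‖(lam μ x * T μ h - T μ h) ξ‖ + ‖T μ h ξ - ξ‖ :=
          norm_add₃_le
      _ ≤ 1 / 8 + 1 / 8 + 1 / 8 := by
          rw [norm_neg, norm_lam_apply]
          gcongr
      _ < 1 := by norm_num
  obtain ⟨a, ha, b, hb, rfl⟩ := mem_of_norm_lam_sub_lt μ hξ1 hξ h5
  apply hVU
  refine Set.mul_mem_mul ha ?_
  rw [← hVinv]
  simpa using hb

/-- Approximate eigenvectors: for every character `ω` of the dual group, every compact set of the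
dual and every `ε > 0` there is a vector `η` with `M_γ η ≈ ω(γ) η` on the compact set. -/
theorem exists_approx_eigen (ω : PontryaginDual (PontryaginDual G)) {U : Set G}
    (hU : U ∈ 𝓝 (1 : G)) {K : Set (PontryaginDual G)} {ε : ℝ} (hε : 0 < ε)
    (hK : ∀ γ ∈ K, ∀ y ∈ U, ‖(γ y : ℂ) - 1‖ ≤ ε) :
    ∃ η : Lp ℂ 2 μ, 1 / 2 ≤ ‖η‖ ∧ ‖η‖ ≤ 1 ∧
      ∀ γ ∈ K, ‖M μ γ η - (ω γ : ℂ) • η‖ ≤ 2 * ε := by
  obtain ⟨ξ, hξ1, hξ⟩ := exists_localised μ hU
  have hW : {y : G | ‖lam μ y ξ - ξ‖ < 1 / 2} ∩ U ∈ 𝓝 (1 : G) := by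
    have hc : Continuous fun y => ‖lam μ y ξ - ξ‖ :=
      ((continuous_lam_apply μ ξ).sub continuous_const).norm
    refine inter_mem ?_ hU
    have : {y : G | ‖lam μ y ξ - ξ‖ < 1 / 2} = (fun y => ‖lam μ y ξ - ξ‖) ⁻¹' Set.Iio (1 / 2) := rfl
    rw [this]
    apply hc.continuousAt.preimage_mem_nhds
    apply Iio_mem_nhds
    simp
  obtain ⟨h, hs, hn, hi⟩ := exists_kernel μ hW
  have hTξ : ‖T μ h ξ - ξ‖ ≤ 1 / 2 :=
    norm_T_sub_self_le μ hs hn hi ξ (fun y hy => (le_of_lt hy.1))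
  have hT1 : ‖T μ h‖ ≤ 1 := (norm_T_le μ h).trans hn.le
  have hT2 : ‖T μ h ξ‖ ≤ 1 := by
    have := ContinuousLinearMap.le_of_opNorm_le _ hT1 ξ
    rwa [hξ1, mul_one] at this
  refine ⟨((DD μ).Th ω h : Lp ℂ 2 μ →L[ℂ] Lp ℂ 2 μ) ξ, ?_, ?_, fun γ hγ => ?_⟩
  · rw [norm_Th_apply]
    have h1 : ‖ξ‖ ≤ ‖T μ h ξ‖ + ‖T μ h ξ - ξ‖ := by
      calc ‖ξ‖ = ‖T μ h ξ - (T μ h ξ - ξ)‖ := by congr 1; abel
        _ ≤ _ := norm_sub_le _ _
    rw [hξ1] at h1
    linarith
  · rw [norm_Th_apply]; exact hT2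
  · -- the main estimate
    have e1 : M μ γ * ((DD μ).Th ω h : Lp ℂ 2 μ →L[ℂ] Lp ℂ 2 μ) =
        (ω γ : ℂ) • (((DD μ).Th ω (modul γ h) : Lp ℂ 2 μ →L[ℂ] Lp ℂ 2 μ) * M μ γ) := by
      have h1 : M μ γ * ((DD μ).Th ω h : Lp ℂ 2 μ →L[ℂ] Lp ℂ 2 μ) * M μ γ⁻¹ =
          (ω γ : ℂ) • ((DD μ).Th ω (modul γ h) : Lp ℂ 2 μ →L[ℂ] Lp ℂ 2 μ) :=
        congrArg Subtype.val ((DD μ).Ad_Th ω γ h)
      calc M μ γ * ((DD μ).Th ω h : Lp ℂ 2 μ →L[ℂ] Lp ℂ 2 μ)
          = M μ γ * ((DD μ).Th ω h : Lp ℂ 2 μ →L[ℂ] Lp ℂ 2 μ) * (M μ γ⁻¹ * M μ γ) := by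
            rw [M_inv_mul_M, mul_one]
        _ = (M μ γ * ((DD μ).Th ω h : Lp ℂ 2 μ →L[ℂ] Lp ℂ 2 μ) * M μ γ⁻¹) * M μ γ := by
            simp only [mul_assoc]
        _ = _ := by rw [h1, smul_mul_assoc]
    have e2 : M μ γ (((DD μ).Th ω h : Lp ℂ 2 μ →L[ℂ] Lp ℂ 2 μ) ξ) =
        (ω γ : ℂ) • (((DD μ).Th ω (modul γ h) : Lp ℂ 2 μ →L[ℂ] Lp ℂ 2 μ) (M μ γ ξ)) :=
      congrArg (fun A => A ξ) e1
    have e3 : ((DD μ).Th ω (modul γ h - h) : Lp ℂ 2 μ →L[ℂ] Lp ℂ 2 μ) =
        ((DD μ).Th ω (modul γ h) : Lp ℂ 2 μ →L[ℂ] Lp ℂ 2 μ) - ((DD μ).Th ω h) :=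
      congrArg Subtype.val ((DD μ).Th_sub ω (modul γ h) h)
    have e4 : M μ γ (((DD μ).Th ω h : Lp ℂ 2 μ →L[ℂ] Lp ℂ 2 μ) ξ) -
        (ω γ : ℂ) • (((DD μ).Th ω h : Lp ℂ 2 μ →L[ℂ] Lp ℂ 2 μ) ξ) =
        (ω γ : ℂ) • (((DD μ).Th ω (modul γ h - h) : Lp ℂ 2 μ →L[ℂ] Lp ℂ 2 μ) (M μ γ ξ) +
          ((DD μ).Th ω h : Lp ℂ 2 μ →L[ℂ] Lp ℂ 2 μ) (M μ γ ξ - ξ)) := by
      rw [e2, e3, ← smul_sub]
      congr 1
      rw [ContinuousLinearMap.sub_apply, map_sub]
      abel
    have hMξ : ‖M μ γ ξ‖ = 1 := by rw [M, norm_mulOp_apply, hξ1]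
    have b1 : ‖((DD μ).Th ω (modul γ h - h) : Lp ℂ 2 μ →L[ℂ] Lp ℂ 2 μ) (M μ γ ξ)‖ ≤ ε := by
      rw [norm_Th_apply]
      have h1 : ‖T μ (modul γ h - h)‖ ≤ ε := by
        refine (norm_T_le μ _).trans ?_
        have hle : ∀ y, ‖(modul γ h - h) y‖ ≤ ‖h y‖ * ε := by
          intro y
          have e : (modul γ h - h) y = ((γ y : ℂ) - 1) * h y := by
            rw [CompactlySupportedContinuousMap.coe_sub, Pi.sub_apply, modul_apply, sub_mul, one_mul]
          rw [e, norm_mul, mul_comm]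
          by_cases hy : h y = 0
          · simp [hy]
          · exact mul_le_mul_of_nonneg_left (hK γ hγ y (hs hy).2) (norm_nonneg _)
        calc ∫ y, ‖(modul γ h - h) y‖ ∂μ ≤ ∫ y, ‖h y‖ * ε ∂μ :=
              integral_mono_of_nonneg (Eventually.of_forall fun _ => norm_nonneg _)
                ((integrable_norm_cc μ h).mul_const ε) (Eventually.of_forall hle)
          _ = ε := by rw [integral_mul_const, hn, one_mul]
      have := ContinuousLinearMap.le_of_opNorm_le _ h1 (M μ γ ξ)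
      rwa [hMξ, mul_one] at this
    have b2 : ‖((DD μ).Th ω h : Lp ℂ 2 μ →L[ℂ] Lp ℂ 2 μ) (M μ γ ξ - ξ)‖ ≤ ε := by
      rw [norm_Th_apply]
      calc ‖T μ h (M μ γ ξ - ξ)‖ ≤ 1 * ‖M μ γ ξ - ξ‖ := ContinuousLinearMap.le_of_opNorm_le _ hT1 _
        _ ≤ 1 * (ε * ‖ξ‖) := by
            gcongr
            exact norm_M_sub_self_le μ hξ γ (hK γ hγ)
        _ = ε := by rw [hξ1]; ring
    rw [e4, norm_smul, Circle.norm_coe, one_mul]
    calc _ ≤ ‖((DD μ).Th ω (modul γ h - h) : Lp ℂ 2 μ →L[ℂ] Lp ℂ 2 μ) (M μ γ ξ)‖ +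
          ‖((DD μ).Th ω h : Lp ℂ 2 μ →L[ℂ] Lp ℂ 2 μ) (M μ γ ξ - ξ)‖ := norm_add_le _ _
      _ ≤ ε + ε := add_le_add b1 b2
      _ = 2 * ε := by ring

end C93
end
end

section

/-!
# The Pontryagin–van Kampen theorem for locally compact abelian groups
-/

open MeasureTheory DomMulAct Filter Topology WeakDual
open scoped ENNReal CompactlySupported InnerProductSpace Pointwise

set_option linter.unusedSectionVars false
set_option linter.deprecated false
set_option linter.overlappingInstances false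
set_option linter.unusedVariables false

noncomputable section

namespace C93

variable {G : Type*} [CommGroup G] [TopologicalSpace G] [IsTopologicalGroup G]
  [LocallyCompactSpace G] [T2Space G]

lemma isInducing_evHom : Topology.IsInducing (evHom G) := by
  let _ : MeasurableSpace G := borel G
  have : BorelSpace G := ⟨rfl⟩
  rw [IsTopologicalGroup.isInducing_iff_nhds_one]
  apply le_antisymm
  · have := (continuous_evHom (A := G)).tendsto 1
    rw [map_one] at this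
    exact this.le_comap
  · intro U hU
    obtain ⟨K, hK, c, hc, h⟩ := exists_compact_detect (μ := Measure.haar) hU
    rw [mem_comap]
    exact ⟨_, mem_nhds_one_of_isCompact hK hc, fun x hx => h x fun γ hγ => (hx γ hγ).le⟩

/-- Pointwise lower bound used for averaging. -/
lemma avg_lower (ω : PontryaginDual (PontryaginDual G)) [MeasurableSpace (PontryaginDual G)]
    [BorelSpace (PontryaginDual G)] (ν : Measure (PontryaginDual G)) [ν.IsHaarMeasure]
    {V : Set (PontryaginDual G)} (hV : IsCompact V)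
    {k : C_c(PontryaginDual G, ℝ)} (hk0 : ∀ γ, 0 ≤ k γ) {C0 : Set (PontryaginDual G)}
    (hk1 : ∀ γ ∈ V, k γ = 1) (hk2 : ∀ γ ∈ V, ∀ γ₀ ∈ C0, k (γ₀ * γ) = 1) {ε : ℝ}
    (hε : 0 ≤ ε)
    {y : G} {γ₀ : PontryaginDual G} (hγ₀ : γ₀ ∈ C0) (hy : ε ≤ ‖(γ₀ y : ℂ) - ω γ₀‖) :
    ε ^ 2 * ν.real V ≤ 4 * ∫ γ, k γ * ‖(γ y : ℂ) - ω γ‖ ^ 2 ∂ν := by
  have hcont : Continuous fun γ : PontryaginDual G => k γ * ‖(γ y : ℂ) - ω γ‖ ^ 2 := by
    have h2 : Continuous fun z : Circle => (z : ℂ) := continuous_subtype_val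
    exact k.continuous.mul (((h2.comp (continuous_eval_const y)).sub
      (h2.comp (map_continuous ω))).norm.pow 2)
  have hsupp : HasCompactSupport fun γ : PontryaginDual G => k γ * ‖(γ y : ℂ) - ω γ‖ ^ 2 :=
    k.hasCompactSupport.mul_right
  have hint : Integrable (fun γ : PontryaginDual G => k γ * ‖(γ y : ℂ) - ω γ‖ ^ 2) ν :=
    hcont.integrable_of_hasCompactSupport hsupp
  set f : PontryaginDual G → ℝ := fun γ => k γ * ‖(γ y : ℂ) - ω γ‖ ^ 2 with hf
  have hf0 : ∀ γ, 0 ≤ f γ := fun γ => mul_nonneg (hk0 γ) (by positivity)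
  have hint2 : Integrable (fun γ => f (γ₀ * γ)) ν := hint.comp_mul_left γ₀
  have hVm : MeasurableSet V := hV.measurableSet
  have key : ∀ γ ∈ V, ε ^ 2 ≤ 2 * f (γ₀ * γ) + 2 * f γ := by
    intro γ hγ
    simp only [hf, hk1 γ hγ, hk2 γ hγ γ₀ hγ₀, one_mul]
    have h1 : ‖(γ₀ y : ℂ) - ω γ₀‖ ≤ ‖((γ₀ * γ) y : ℂ) - ω (γ₀ * γ)‖ + ‖(γ y : ℂ) - ω γ‖ := by
      have e : ((γ₀ y : ℂ) - ω γ₀) * γ y =
          (((γ₀ * γ) y : ℂ) - ω (γ₀ * γ)) - ω γ₀ * ((γ y : ℂ) - ω γ) := by
        have e1 : (((γ₀ * γ) y : Circle) : ℂ) = γ₀ y * γ y := rfl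
        rw [e1, map_mul, Circle.coe_mul]
        ring
      calc ‖(γ₀ y : ℂ) - ω γ₀‖ = ‖((γ₀ y : ℂ) - ω γ₀) * γ y‖ := by
            rw [norm_mul, Circle.norm_coe, mul_one]
        _ ≤ ‖((γ₀ * γ) y : ℂ) - ω (γ₀ * γ)‖ + ‖(ω γ₀ : ℂ) * ((γ y : ℂ) - ω γ)‖ := by
            rw [e]; exact norm_sub_le _ _
        _ = _ := by rw [norm_mul, Circle.norm_coe, one_mul]
    have h2 := hy.trans h1
    have h3 : (0 : ℝ) ≤ ‖((γ₀ * γ) y : ℂ) - ω (γ₀ * γ)‖ := norm_nonneg _
    have h4 : (0 : ℝ) ≤ ‖(γ y : ℂ) - ω γ‖ := norm_nonneg _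
    have h5 : ε ^ 2 ≤ (‖((γ₀ * γ) y : ℂ) - ω (γ₀ * γ)‖ + ‖(γ y : ℂ) - ω γ‖) ^ 2 :=
      pow_le_pow_left₀ hε h2 2
    nlinarith [sq_nonneg (‖((γ₀ * γ) y : ℂ) - ω (γ₀ * γ)‖ - ‖(γ y : ℂ) - ω γ‖)]
  have hVfin : ν V ≠ ∞ := hV.measure_lt_top.ne
  calc ε ^ 2 * ν.real V = ∫ γ in V, ε ^ 2 ∂ν := by
        rw [setIntegral_const, smul_eq_mul, mul_comm]
    _ ≤ ∫ γ in V, (2 * f (γ₀ * γ) + 2 * f γ) ∂ν := by
        apply setIntegral_mono_on _ _ hVm key
        · exact (integrableOn_const (hs := hVfin))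
        · exact ((hint2.const_mul 2).add (hint.const_mul 2)).integrableOn
    _ ≤ ∫ γ, (2 * f (γ₀ * γ) + 2 * f γ) ∂ν := by
        apply setIntegral_le_integral ((hint2.const_mul 2).add (hint.const_mul 2))
        exact Eventually.of_forall fun γ => by
          have h1 := hf0 γ
          have h2 := hf0 (γ₀ * γ)
          change (0 : ℝ) ≤ 2 * f (γ₀ * γ) + 2 * f γ
          linarith
    _ = 4 * ∫ γ, f γ ∂ν := by
        rw [integral_add (hint2.const_mul 2) (hint.const_mul 2), integral_const_mul,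
          integral_const_mul, integral_mul_left_eq_self f γ₀]
        ring

/-- The range of the evaluation map is dense. -/
lemma exists_approx_point (ω : PontryaginDual (PontryaginDual G)) {C0 : Set (PontryaginDual G)}
    (hC0 : IsCompact C0) {ε : ℝ} (hε : 0 < ε) :
    ∃ y : G, ∀ γ ∈ C0, ‖(γ y : ℂ) - ω γ‖ < ε := by
  let _ : MeasurableSpace G := borel G
  have : BorelSpace G := ⟨rfl⟩
  let _ : MeasurableSpace (PontryaginDual G) := borel _
  have : BorelSpace (PontryaginDual G) := ⟨rfl⟩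
  by_contra hcon
  push Not at hcon
  set μ : Measure G := Measure.haar
  set ν : Measure (PontryaginDual G) := Measure.haar
  obtain ⟨V, hVc, hV1⟩ := exists_compact_mem_nhds (1 : PontryaginDual G)
  obtain ⟨k, hk1, -, hks, hkr⟩ := exists_continuous_one_zero_of_isCompact
    (hVc.union (hC0.mul hVc)) (isClosed_empty (X := PontryaginDual G)) (Set.disjoint_empty _)
  set k' : C_c(PontryaginDual G, ℝ) := ⟨k, hks⟩
  have hk'1 : ∀ γ ∈ V, k' γ = 1 := fun γ hγ => hk1 (Or.inl hγ)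
  have hk'2 : ∀ γ ∈ V, ∀ γ₀ ∈ C0, k' (γ₀ * γ) = 1 := fun γ hγ γ₀ hγ₀ =>
    hk1 (Or.inr (Set.mul_mem_mul hγ₀ hγ))
  have hk'0 : ∀ γ, 0 ≤ k' γ := fun γ => (hkr γ).1
  have hkint : Integrable (fun γ => k' γ) ν :=
    k'.continuous.integrable_of_hasCompactSupport k'.hasCompactSupport
  have hVpos : 0 < ν.real V := by
    rw [measureReal_def, ENNReal.toReal_pos_iff]
    exact ⟨Measure.measure_pos_of_mem_nhds ν hV1, hVc.measure_lt_top⟩
  set I := ∫ γ, k' γ ∂ν with hI
  have hI0 : 0 ≤ I := integral_nonneg hk'0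
  -- choose the small parameter
  set c := ε ^ 2 * ν.real V with hc
  have hc0 : 0 < c := by positivity
  obtain ⟨δ, hδ0, hδ4, hδ⟩ : ∃ δ : ℝ, 0 < δ ∧ δ ≤ 1 / 4 ∧ 4 * ((4 * δ) ^ 2 * I) < c / 16 := by
    have hlim : Tendsto (fun δ : ℝ => 4 * ((4 * δ) ^ 2 * I)) (𝓝[>] 0) (𝓝 0) := by
      have : Continuous fun δ : ℝ => 4 * ((4 * δ) ^ 2 * I) := by fun_prop
      have h := this.tendsto 0
      simp only [mul_zero, ne_eq, OfNat.ofNat_ne_zero, not_false_eq_true, zero_pow, zero_mul] at h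
      exact h.mono_left nhdsWithin_le_nhds
    have h1 := hlim.eventually_lt_const (show (0 : ℝ) < c / 16 by positivity)
    have h2 : ∀ᶠ δ : ℝ in 𝓝[>] 0, δ ≤ 1 / 4 :=
      (eventually_nhdsWithin_of_eventually_nhds (eventually_le_nhds (by norm_num)))
    have h3 : ∀ᶠ δ : ℝ in 𝓝[>] 0, 0 < δ := eventually_mem_nhdsWithin
    obtain ⟨δ, ha, hb, hc⟩ := (h1.and (h2.and h3)).exists
    exact ⟨δ, hc, hb, ha⟩
  -- equicontinuity on the support of `k`
  obtain ⟨U, hU, hUK⟩ := exists_nhds_of_isCompact (A := G)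
    (K := tsupport k') k'.hasCompactSupport hδ0
  obtain ⟨η, hη1, hη2, hη⟩ := exists_approx_eigen μ ω hU hδ0
    (fun γ hγ y hy => (hUK γ hγ y hy).le)
  -- approximate by a compactly supported continuous function
  obtain ⟨g, hgs, hgn, hgc, hgm⟩ := memLp_approx (μ := μ) (p := 2) (by simp) (Lp.memLp η)
    (ε := ENNReal.ofReal δ) (by simpa using hδ0)
  set η' : Lp ℂ 2 μ := hgm.toLp g with hη'
  have hdiff : ‖η - η'‖ ≤ δ := by
    have e : η = (Lp.memLp η).toLp η := (Lp.toLp_coeFn η (Lp.memLp η)).symm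
    rw [hη', e, ← MemLp.toLp_sub, Lp.norm_toLp]
    exact ENNReal.toReal_le_of_le_ofReal hδ0.le hgn
  have hη'norm : 1 / 4 ≤ ‖η'‖ := by
    have : ‖η‖ ≤ ‖η - η'‖ + ‖η'‖ := by
      calc ‖η‖ = ‖(η - η') + η'‖ := by rw [sub_add_cancel]
        _ ≤ _ := norm_add_le _ _
    linarith
  have hη'M : ∀ γ ∈ tsupport k', ‖M μ γ η' - (ω γ : ℂ) • η'‖ ≤ 4 * δ := by
    intro γ hγ
    have e : M μ γ η' - (ω γ : ℂ) • η' = (M μ γ η - (ω γ : ℂ) • η) - M μ γ (η - η') +
        (ω γ : ℂ) • (η - η') := by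
      rw [map_sub, smul_sub]; abel
    rw [e]
    calc _ ≤ ‖(M μ γ η - (ω γ : ℂ) • η) - M μ γ (η - η')‖ + ‖(ω γ : ℂ) • (η - η')‖ :=
          norm_add_le _ _
      _ ≤ ‖M μ γ η - (ω γ : ℂ) • η‖ + ‖M μ γ (η - η')‖ + ‖(ω γ : ℂ) • (η - η')‖ := by
          gcongr
          exact norm_sub_le _ _
      _ ≤ 2 * δ + δ + δ := by
          rw [M, norm_mulOp_apply, norm_smul, Circle.norm_coe, one_mul]
          have := hη γ hγ
          rw [M] at this
          gcongr
      _ = 4 * δ := by ring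
  -- the norm as an integral
  have hnorm : ∀ γ, ‖M μ γ η' - (ω γ : ℂ) • η'‖ ^ 2 =
      ∫ y, ‖(γ y : ℂ) - ω γ‖ ^ 2 * ‖g y‖ ^ 2 ∂μ := by
    intro γ
    have h2 : Continuous fun z : Circle => (z : ℂ) := continuous_subtype_val
    have hcont : Continuous fun y => ((γ y : ℂ) - ω γ) * g y :=
      ((h2.comp (map_continuous γ)).sub continuous_const).mul hgc
    have hm : MemLp (fun y => ((γ y : ℂ) - ω γ) * g y) 2 μ :=
      hcont.memLp_of_hasCompactSupport hgs.mul_left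
    have e : M μ γ η' - (ω γ : ℂ) • η' = hm.toLp _ := by
      apply Lp.ext
      filter_upwards [hm.coeFn_toLp, Lp.coeFn_sub (M μ γ η') ((ω γ : ℂ) • η'),
        mulOp_ae μ (γ : C(G, Circle)) η', Lp.coeFn_smul (ω γ : ℂ) η', hgm.coeFn_toLp]
        with a h1 h2 h3 h4 h5
      rw [h1, h2, Pi.sub_apply, M, h3, h4, Pi.smul_apply, hη', h5, sub_mul, smul_eq_mul]
      rfl
    rw [e, norm_toLp_sq]
    congr 1
    ext y
    rw [norm_mul, mul_pow]
  have hη'sq : ‖η'‖ ^ 2 = ∫ y, ‖g y‖ ^ 2 ∂μ := norm_toLp_sq μ hgm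
  -- swap
  have hswap : ∫ γ, (∫ y, k' γ * (‖(γ y : ℂ) - ω γ‖ ^ 2 * ‖g y‖ ^ 2) ∂μ) ∂ν =
      ∫ y, (∫ γ, k' γ * (‖(γ y : ℂ) - ω γ‖ ^ 2 * ‖g y‖ ^ 2) ∂ν) ∂μ := by
    apply integral_integral_swap_of_hasCompactSupport
      (f := fun γ y => k' γ * (‖(γ y : ℂ) - ω γ‖ ^ 2 * ‖g y‖ ^ 2))
    · have h2 : Continuous fun z : Circle => (z : ℂ) := continuous_subtype_val
      exact (k'.continuous.comp continuous_fst).mul
        ((((h2.comp continuous_char_pair').sub
          (h2.comp ((map_continuous ω).comp continuous_fst))).norm.pow 2).mul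
          ((hgc.comp continuous_snd).norm.pow 2))
    · apply HasCompactSupport.intro (k'.hasCompactSupport.isCompact.prod hgs.isCompact)
      rintro ⟨γ, y⟩ hp
      rw [Set.mem_prod, not_and_or] at hp
      rcases hp with hp | hp
      · simp [Function.uncurry, image_eq_zero_of_notMem_tsupport hp]
      · simp [Function.uncurry, image_eq_zero_of_notMem_tsupport hp]
  -- upper bound
  have hup : ∫ γ, (∫ y, k' γ * (‖(γ y : ℂ) - ω γ‖ ^ 2 * ‖g y‖ ^ 2) ∂μ) ∂ν ≤ (4 * δ) ^ 2 * I := by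
    have h1 : ∀ γ, ∫ y, k' γ * (‖(γ y : ℂ) - ω γ‖ ^ 2 * ‖g y‖ ^ 2) ∂μ ≤ k' γ * (4 * δ) ^ 2 := by
      intro γ
      rw [integral_const_mul, ← hnorm]
      by_cases hγ : γ ∈ tsupport k'
      · exact mul_le_mul_of_nonneg_left (pow_le_pow_left₀ (norm_nonneg _) (hη'M γ hγ) 2) (hk'0 γ)
      · simp [image_eq_zero_of_notMem_tsupport hγ]
    calc _ ≤ ∫ γ, k' γ * (4 * δ) ^ 2 ∂ν := by
          apply integral_mono_of_nonneg _ (hkint.mul_const _) (Eventually.of_forall h1)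
          refine Eventually.of_forall fun γ => integral_nonneg fun y => ?_
          have := hk'0 γ
          positivity
      _ = _ := by rw [integral_mul_const, mul_comm]
  -- lower bound
  have hlow : c * ‖η'‖ ^ 2 ≤
      4 * ∫ y, (∫ γ, k' γ * (‖(γ y : ℂ) - ω γ‖ ^ 2 * ‖g y‖ ^ 2) ∂ν) ∂μ := by
    have hg2 : Integrable (fun y => ‖g y‖ ^ 2) μ :=
      (hgc.norm.pow 2).integrable_of_hasCompactSupport (by
        have := hgs.norm.comp_left (g := fun r : ℝ => r ^ 2) (by simp)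
        exact this)
    have h1 : ∀ y, ∫ γ, k' γ * (‖(γ y : ℂ) - ω γ‖ ^ 2 * ‖g y‖ ^ 2) ∂ν =
        (∫ γ, k' γ * ‖(γ y : ℂ) - ω γ‖ ^ 2 ∂ν) * ‖g y‖ ^ 2 := by
      intro y
      rw [← integral_mul_const]
      congr 1
      ext γ
      ring
    have h2 : ∀ y, c * ‖g y‖ ^ 2 ≤
        4 * ∫ γ, k' γ * (‖(γ y : ℂ) - ω γ‖ ^ 2 * ‖g y‖ ^ 2) ∂ν := by
      intro y
      rw [h1, ← mul_assoc]
      obtain ⟨γ₀, hγ₀, hy⟩ := hcon y
      exact mul_le_mul_of_nonneg_right
        (avg_lower ω ν hVc hk'0 hk'1 hk'2 hε.le hγ₀ hy) (by positivity)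
    rw [hη'sq, ← integral_const_mul, ← integral_const_mul]
    apply integral_mono_of_nonneg
    · exact Eventually.of_forall fun y => by
        change 0 ≤ c * ‖g y‖ ^ 2
        positivity
    · apply Integrable.const_mul
      apply Continuous.integrable_of_hasCompactSupport
      · rw [← continuousOn_univ]
        apply continuousOn_integral_of_compact_support (μ := ν) (k := tsupport k')
          k'.hasCompactSupport
        · have h2 : Continuous fun z : Circle => (z : ℂ) := continuous_subtype_val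
          apply Continuous.continuousOn
          exact (k'.continuous.comp continuous_snd).mul
            ((((h2.comp (continuous_char_pair'.comp continuous_swap)).sub
              (h2.comp ((map_continuous ω).comp continuous_snd))).norm.pow 2).mul
              ((hgc.comp continuous_fst).norm.pow 2))
        · intro y γ _ hγ
          simp [image_eq_zero_of_notMem_tsupport hγ]
      · apply HasCompactSupport.intro hgs.isCompact
        intro y hy
        simp [image_eq_zero_of_notMem_tsupport hy]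
    · exact Eventually.of_forall h2
  rw [← hswap] at hlow
  have h16 : 1 / 16 ≤ ‖η'‖ ^ 2 := by nlinarith
  have : c / 16 ≤ 4 * ((4 * δ) ^ 2 * I) := by
    calc c / 16 = c * (1 / 16) := by ring
      _ ≤ c * ‖η'‖ ^ 2 := by gcongr
      _ ≤ _ := hlow.trans (by gcongr)
  linarith

/-- **Pontryagin–van Kampen duality**. -/
theorem reflexive_of_locallyCompact : Reflexive G := by
  refine reflexive_of (fun z => ?_) isInducing_evHom
  -- a compact neighbourhood of `1` in `G`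
  obtain ⟨C, hC, hC1⟩ := exists_compact_mem_nhds (1 : G)
  have hK : IsCompact (evHom G '' C) := hC.image continuous_evHom
  rw [isInducing_evHom.nhds_eq_comap, map_one, mem_comap] at hC1
  obtain ⟨W, hW, hWC⟩ := hC1
  obtain ⟨W', hW'W, hW'o, hW'1⟩ := mem_nhds_iff.1 hW
  -- `z` is in the closure of the range
  have hdense : ∀ O ∈ 𝓝 z, ∃ y : G, evHom G y ∈ O := by
    intro O hO
    obtain ⟨⟨K, ε⟩, ⟨hK, hε⟩, h⟩ := (nhds_hasBasis z).mem_iff.1 hO
    obtain ⟨y, hy⟩ := exists_approx_point z hK hε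
    exact ⟨y, h hy⟩
  -- choose `h ∈ range` with `z ∈ h W'`
  have h1 : {x : PontryaginDual (PontryaginDual G) | x⁻¹ * z ∈ W'} ∈ 𝓝 z := by
    have hc : Continuous fun x : PontryaginDual (PontryaginDual G) => x⁻¹ * z :=
      continuous_inv.mul continuous_const
    exact (hW'o.preimage hc).mem_nhds (by simpa using hW'1)
  obtain ⟨y, hy⟩ := hdense _ h1
  have hz : z ∈ closure ((fun x => evHom G y * x) '' (evHom G '' C)) := by
    rw [mem_closure_iff_nhds]
    intro O hO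
    have h2 : {x : PontryaginDual (PontryaginDual G) | (evHom G y)⁻¹ * x ∈ W'} ∈ 𝓝 z := by
      have hc : Continuous fun x : PontryaginDual (PontryaginDual G) => (evHom G y)⁻¹ * x :=
        continuous_const.mul continuous_id
      exact (hW'o.preimage hc).mem_nhds hy
    obtain ⟨y', hy'⟩ := hdense _ (inter_mem hO h2)
    refine ⟨evHom G y', hy'.1, evHom G (y⁻¹ * y'), ⟨y⁻¹ * y', hWC ?_, rfl⟩, ?_⟩
    · apply hW'W
      have := hy'.2
      rw [Set.mem_setOf_eq, ← map_inv, ← map_mul] at this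
      exact this
    · simp only [map_mul, map_inv, mul_inv_cancel_left]
  have hcl : IsClosed ((fun x => evHom G y * x) '' (evHom G '' C)) :=
    (hK.image (show Continuous fun x : PontryaginDual (PontryaginDual G) => evHom G y * x from
      continuous_const.mul continuous_id)).isClosed
  rw [hcl.closure_eq] at hz
  obtain ⟨_, ⟨x, _, rfl⟩, rfl⟩ := hz
  exact ⟨y * x, map_mul _ _ _⟩

end C93
end
end

section

/-!
# Basic facts on groups of families
-/

open Filter Topology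
open scoped Pointwise

set_option linter.unusedSectionVars false

noncomputable section

namespace C93

variable (I X : Type*) [CommGroup X] [TopologicalSpace X] [IsTopologicalGroup X]

section Precompact

variable {X}

/-- Compact sets are covered by finitely many translates. -/
lemma IsCompact.precompact {S : Set X} (hS : IsCompact S) : Precompact S := by
  intro U hU
  obtain ⟨t, ht⟩ := compact_covered_by_mul_left_translates hS
    (V := U) ⟨1, mem_interior_iff_mem_nhds.2 hU⟩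
  refine ⟨(t : Set X)⁻¹, t.finite_toSet.inv, fun x hx => ?_⟩
  obtain ⟨g, hg, hgx⟩ := Set.mem_iUnion₂.1 (ht hx)
  exact ⟨g⁻¹, by simpa using hg, g * x, hgx, by simp⟩

/-- In a locally compact group, precompact sets are contained in compact sets. -/
lemma Precompact.exists_isCompact [LocallyCompactSpace X] {S : Set X} (hS : Precompact S) :
    ∃ K : Set X, IsCompact K ∧ S ⊆ K := by
  obtain ⟨C, hC, hC1⟩ := exists_compact_mem_nhds (1 : X)
  obtain ⟨F, hF, h⟩ := hS C hC1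
  exact ⟨F * C, hF.isCompact.mul hC, h⟩

end Precompact

variable {I X}

lemma mem_cZero {f : Fam I X} : f ∈ cZero I X ↔ ∀ U ∈ 𝓝 (1 : X), {i | f i ∉ U}.Finite := Iff.rfl

lemma mem_lInf {f : Fam I X} : f ∈ lInf I X ↔ Precompact (Set.range f) := Iff.rfl

open Classical in
/-- The family equal to `x` on `A` and to `1` outside `A`. -/
def blkFun (A : Set I) (x : X) : Fam I X := fun i => if i ∈ A then x else 1

omit [TopologicalSpace X] [IsTopologicalGroup X] in
lemma blkFun_of_mem {A : Set I} {i : I} (h : i ∈ A) (x : X) : blkFun A x i = x := if_pos h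

omit [TopologicalSpace X] [IsTopologicalGroup X] in
lemma blkFun_of_notMem {A : Set I} {i : I} (h : i ∉ A) (x : X) : blkFun A x i = 1 := if_neg h

/-- The family equal to `x` on `A` and to `1` outside `A`, as a homomorphism in `x`. -/
def blk (A : Set I) : X →* Fam I X where
  toFun := blkFun A
  map_one' := by
    ext i
    by_cases h : i ∈ A
    · rw [blkFun_of_mem h]; rfl
    · rw [blkFun_of_notMem h]; rfl
  map_mul' x y := by
    ext i
    rw [Fam.mul_apply]
    by_cases h : i ∈ A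
    · rw [blkFun_of_mem h, blkFun_of_mem h, blkFun_of_mem h]
    · rw [blkFun_of_notMem h, blkFun_of_notMem h, blkFun_of_notMem h, mul_one]

omit [TopologicalSpace X] [IsTopologicalGroup X] in
lemma blk_of_mem {A : Set I} {i : I} (h : i ∈ A) (x : X) : blk A x i = x := if_pos h

omit [TopologicalSpace X] [IsTopologicalGroup X] in
lemma blk_of_notMem {A : Set I} {i : I} (h : i ∉ A) (x : X) : blk A x i = 1 := if_neg h

lemma blk_mem_of_mem {A : Set I} {U : Set X} (hU : U ∈ 𝓝 (1 : X)) {x : X} (hx : x ∈ U) (i : I) :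
    blk A x i ∈ U := by
  by_cases h : i ∈ A
  · rwa [blk_of_mem h]
  · rw [blk_of_notMem h]; exact mem_of_mem_nhds hU

/-- Neighbourhoods of the identity in a subgroup of `X^I`. -/
lemma nhds_one_sub (G : Subgroup (Fam I X)) : (𝓝 (1 : G)).HasBasis
    (fun U : Set X => U ∈ 𝓝 (1 : X)) (fun U => {g : G | ∀ i, g.1 i ∈ U}) := by
  rw [Topology.IsInducing.subtypeVal.nhds_eq_comap]
  exact (Fam.nhds_one_hasBasis I X).comap _

/-- The coordinate homomorphisms. -/
def coordHom (G : Subgroup (Fam I X)) (i : I) : G →ₜ* X where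
  toFun g := g.1 i
  map_one' := rfl
  map_mul' _ _ := rfl
  continuous_toFun := by
    apply continuous_of_continuousAt_one (⟨⟨fun g : G => g.1 i, rfl⟩, fun _ _ => rfl⟩ : G →* X)
    rw [ContinuousAt, map_one, (nhds_one_sub G).tendsto_left_iff]
    intro U hU
    exact ⟨U, hU, fun g hg => hg i⟩

@[simp] lemma coordHom_apply (G : Subgroup (Fam I X)) (i : I) (g : G) :
    coordHom G i g = g.1 i := rfl

/-- The block homomorphisms. -/
def blkHom (G : Subgroup (Fam I X)) (A : Set I) (hA : ∀ x, blk A x ∈ G) : X →ₜ* G :=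
  { (blk A).codRestrict G hA with
    continuous_toFun := by
      apply continuous_of_continuousAt_one ((blk A).codRestrict G hA)
      rw [ContinuousAt, map_one, (nhds_one_sub G).tendsto_right_iff]
      intro U hU
      filter_upwards [hU] with x hx i
      exact blk_mem_of_mem hU hx i }

@[simp] lemma blkHom_coe (G : Subgroup (Fam I X)) (A : Set I) (hA) (x : X) :
    (blkHom G A hA x : Fam I X) = blk A x := rfl

end C93
end
end
end
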