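import Pool.Agent.Lib.MP_c93b6d_al.Fam

section

/-!
# Extending homomorphisms into divisible groups; equicontinuous sets of characters
-/

open Filter Topology
open scoped Pointwise

noncomputable section

namespace C93

section Circle

lemma normSq_exp_sub_one (θ : ℝ) : ‖(Circle.exp θ : ℂ) - 1‖ ^ 2 = 2 - 2 * Real.cos θ := by
  rw [Circle.coe_exp, Complex.exp_mul_I, ← Complex.ofReal_cos, ← Complex.ofReal_sin,
    ← Complex.normSq_eq_norm_sq, Complex.normSq_apply]
  simp only [Complex.sub_re, Complex.add_re, Complex.ofReal_re, Complex.mul_re, Complex.I_re,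
    mul_zero, Complex.ofReal_im, Complex.I_im, mul_one, sub_self, add_zero, Complex.one_re,
    Complex.sub_im, Complex.add_im, Complex.mul_im, zero_add, Complex.one_im, sub_zero]
  nlinarith [Real.sin_sq_add_cos_sq θ]

/-- Roots in the circle which are at least as close to `1` as the original point. -/
lemma exists_root {n : ℕ} (hn : n ≠ 0) (z : Circle) :
    ∃ w : Circle, w ^ n = z ∧ ‖(w : ℂ) - 1‖ ≤ ‖(z : ℂ) - 1‖ := by
  set θ := Complex.arg z with hθ
  have hz : Circle.exp θ = z := Circle.exp_arg z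
  refine ⟨Circle.exp (θ / n), ?_, ?_⟩
  · rw [← Circle.exp_natCast_mul]
    conv_rhs => rw [← hz]
    congr 1
    field_simp
  · rw [← sq_le_sq₀ (norm_nonneg _) (norm_nonneg _), normSq_exp_sub_one]
    conv_rhs => rw [← hz]
    rw [normSq_exp_sub_one]
    have h1 : |θ| ≤ Real.pi := Complex.abs_arg_le_pi _
    have h2 : |θ / n| ≤ |θ| := by
      rw [abs_div, Nat.abs_cast]
      apply div_le_self (abs_nonneg _)
      exact_mod_cast Nat.one_le_iff_ne_zero.2 hn
    have h3 : Real.cos |θ| ≤ Real.cos |θ / n| :=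
      Real.cos_le_cos_of_nonneg_of_le_pi (abs_nonneg _) h1 h2
    rw [Real.cos_abs, Real.cos_abs] at h3
    linarith

/-- The circle has no small subgroups. -/
lemma exists_pow_far {z : Circle} (hz : z ≠ 1) : ∃ n : ℕ, 1 ≤ ‖((z ^ n : Circle) : ℂ) - 1‖ := by
  by_contra hcon
  push Not at hcon
  apply hz
  apply Circle.eq_one_of_forall_pow_mem_centeredArc_pi_div_two
  intro n _
  rw [Circle.mem_centeredArc (by linarith [Real.pi_pos]), Complex.abs_arg_lt_pi_div_two_iff]
  left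
  have h := hcon n
  have h1 : ‖((z ^ n : Circle) : ℂ) - 1‖ ^ 2 = 2 - 2 * ((z ^ n : Circle) : ℂ).re := by
    have h2 : Complex.normSq ((z ^ n : Circle) : ℂ) = 1 := Circle.normSq_coe _
    rw [← Complex.normSq_eq_norm_sq, Complex.normSq_apply]
    rw [Complex.normSq_apply] at h2
    simp only [Complex.sub_re, Complex.one_re, Complex.sub_im, Complex.one_im, sub_zero]
    nlinarith
  have h3 : ‖((z ^ n : Circle) : ℂ) - 1‖ ^ 2 < 1 := by
    have := norm_nonneg (((z ^ n : Circle) : ℂ) - 1)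
    nlinarith
  linarith

lemma norm_mul_sub_one_le (z w : Circle) :
    ‖((z * w : Circle) : ℂ) - 1‖ ≤ ‖(z : ℂ) - 1‖ + ‖(w : ℂ) - 1‖ := by
  have e : ((z * w : Circle) : ℂ) - 1 = z * ((w : ℂ) - 1) + ((z : ℂ) - 1) := by
    rw [Circle.coe_mul]; ring
  rw [e]
  refine (norm_add_le _ _).trans ?_
  rw [norm_mul, Circle.norm_coe, one_mul, add_comm]

lemma norm_inv_sub_one (z : Circle) : ‖((z⁻¹ : Circle) : ℂ) - 1‖ = ‖(z : ℂ) - 1‖ := by
  have e : ((z⁻¹ : Circle) : ℂ) - 1 = -((z⁻¹ : Circle) : ℂ) * ((z : ℂ) - 1) := by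
    have h : ((z⁻¹ : Circle) : ℂ) * z = 1 := by rw [← Circle.coe_mul, inv_mul_cancel]; rfl
    rw [mul_sub, neg_mul, h]
    ring
  rw [e, norm_mul, norm_neg, Circle.norm_coe, one_mul]

lemma norm_div_sub_one (z w : Circle) : ‖((z * w⁻¹ : Circle) : ℂ) - 1‖ = ‖(z : ℂ) - w‖ := by
  have e : ((z * w⁻¹ : Circle) : ℂ) - 1 = ((w⁻¹ : Circle) : ℂ) * ((z : ℂ) - w) := by
    have h : ((w⁻¹ : Circle) : ℂ) * w = 1 := by rw [← Circle.coe_mul, inv_mul_cancel]; rfl
    rw [mul_sub, h, Circle.coe_mul, mul_comm]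
  rw [e, norm_mul, Circle.norm_coe, one_mul]

lemma circle_eq_one_of {z : Circle} (h : ‖(z : ℂ) - 1‖ ≤ 0) : z = 1 := by
  have := norm_le_zero_iff.1 h
  exact Circle.ext (by simpa using sub_eq_zero.1 this)

end Circle

section Ext

variable {P : Type*} [CommGroup P]

/-- Divisible groups are injective. -/
lemma exists_hom_ext {D : Type*} [CommGroup D]
    (hD : ∀ n : ℕ, n ≠ 0 → ∀ d : D, ∃ e : D, e ^ n = d) (P1 : Subgroup P) (Ψ : P1 →* D) :
    ∃ Ψ' : P →* D, ∀ p : P1, Ψ' p = Ψ p := by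
  classical
  have hdiv : ∀ n : ℤ, n ≠ 0 → ∀ d : Additive D, ∃ e : Additive D, n • e = d := by
    intro n hn d
    obtain ⟨e, he⟩ := hD n.natAbs (Int.natAbs_ne_zero.2 hn) d.toMul
    rcases Int.natAbs_eq n with h | h
    · refine ⟨Additive.ofMul e, ?_⟩
      rw [h, natCast_zsmul, ← ofMul_pow, he]
      rfl
    · refine ⟨-Additive.ofMul e, ?_⟩
      rw [h, neg_smul, smul_neg, neg_neg, natCast_zsmul, ← ofMul_pow, he]
      rfl
  let _ : DivisibleBy (Additive D) ℤ :=
    { div := fun d n => if h : n = 0 then 0 else (hdiv n h d).choose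
      div_zero := fun d => by simp
      div_cancel := fun {n} d hn => by
        simp only [hn, dif_neg, not_false_eq_true]
        exact (hdiv n hn d).choose_spec }
  obtain ⟨h, hh⟩ := (Module.Baer.of_divisible (Additive D)).extension_property_addMonoidHom
    (MonoidHom.toAdditive P1.subtype) (by
      intro a b hab
      exact P1.subtype_injective hab) (MonoidHom.toAdditive Ψ)
  refine ⟨MonoidHom.toAdditive.symm h, fun p => ?_⟩
  have := congrArg (fun f => f (Additive.ofMul p)) hh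
  exact this

lemma circle_divisible (n : ℕ) (hn : n ≠ 0) (d : Circle) : ∃ e : Circle, e ^ n = d := by
  obtain ⟨w, hw, -⟩ := exists_root hn d
  exact ⟨w, hw⟩

lemma exists_circle_ext (P1 : Subgroup P) (ψ : P1 →* Circle) :
    ∃ φ : P →* Circle, ∀ p : P1, φ p = ψ p := exists_hom_ext circle_divisible P1 ψ

/-- Characters of `P` trivial on `Q` and far from `1` at a point outside `Q`. -/
lemma exists_char (Q : Subgroup P) {p : P} (hp : p ∉ Q) :
    ∃ h : P →* Circle, (∀ q ∈ Q, h q = 1) ∧ 1 ≤ ‖(h p : ℂ) - 1‖ := by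
  let _ : TopologicalSpace (P ⧸ Q) := ⊥
  have : DiscreteTopology (P ⧸ Q) := ⟨rfl⟩
  have hinj : Function.Injective (evHom (P ⧸ Q)) :=
    (reflexive_of_locallyCompact (G := P ⧸ Q)).inducing.injective
  have hne : (QuotientGroup.mk p : P ⧸ Q) ≠ 1 := by
    rwa [Ne, QuotientGroup.eq_one_iff]
  obtain ⟨χ, hχ⟩ : ∃ χ : PontryaginDual (P ⧸ Q), χ (QuotientGroup.mk p) ≠ 1 := by
    by_contra hcon
    push Not at hcon
    apply hne
    apply hinj
    rw [map_one]
    exact PontryaginDual.ext fun χ => hcon χ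
  obtain ⟨n, hn⟩ := exists_pow_far hχ
  refine ⟨((χ : P ⧸ Q →* Circle).comp (QuotientGroup.mk' Q)) ^ n, fun q hq => ?_, ?_⟩
  · have : (QuotientGroup.mk' Q q) = 1 := (QuotientGroup.eq_one_iff q).2 hq
    rw [MonoidHom.pow_apply, MonoidHom.comp_apply, this, map_one, one_pow]
  · exact hn

end Ext

section Cont

variable {A : Type*} [CommGroup A] [TopologicalSpace A] [IsTopologicalGroup A]

lemma continuous_of_norm_lt {φ : A →* Circle}
    (h : ∀ ε : ℝ, 0 < ε → ∃ U ∈ 𝓝 (1 : A), ∀ a ∈ U, ‖(φ a : ℂ) - 1‖ < ε) : Continuous φ := by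
  apply continuous_of_continuousAt_one
  rw [ContinuousAt, map_one, circle_nhds_one_hasBasis.tendsto_right_iff]
  intro ε hε
  obtain ⟨U, hU, h⟩ := h ε hε
  filter_upwards [hU] with a ha using h a ha

/-- A homomorphism to the circle satisfying the neighbourhood criterion, as a character. -/
def mkChar (φ : A →* Circle)
    (h : ∀ ε : ℝ, 0 < ε → ∃ U ∈ 𝓝 (1 : A), ∀ a ∈ U, ‖(φ a : ℂ) - 1‖ < ε) : PontryaginDual A :=
  { φ with continuous_toFun := continuous_of_norm_lt h }

@[simp] lemma mkChar_apply (φ : A →* Circle) (h) (a : A) : mkChar φ h a = φ a := rfl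

lemma char_nhds (φ : PontryaginDual A) {ε : ℝ} (hε : 0 < ε) :
    ∃ U ∈ 𝓝 (1 : A), ∀ a ∈ U, ‖(φ a : ℂ) - 1‖ < ε := by
  have h := (map_continuous φ).tendsto 1
  rw [map_one, circle_nhds_one_hasBasis.tendsto_right_iff] at h
  exact ⟨_, h ε hε, fun a ha => ha⟩

/-- Equicontinuous sets of characters have compact closure. -/
lemma isCompact_equi {ι : Type*} (V : ι → Set A) (r : ι → ℝ)
    (hV : ∀ ε : ℝ, 0 < ε → ∃ i, V i ∈ 𝓝 (1 : A) ∧ r i < ε) :
    IsCompact {φ : PontryaginDual A | ∀ i, ∀ a ∈ V i, ‖(φ a : ℂ) - 1‖ ≤ r i} := by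
  set S2 : Set (A →ₜ* Circle) := {φ | ∀ i, ∀ a ∈ V i, ‖(φ a : ℂ) - 1‖ ≤ r i} with hS2
  let S3 : Set C(A, Circle) := ContinuousMonoidHom.toContinuousMap '' S2
  let S4 : Set (A → Circle) := ContinuousMap.toFun '' S3
  have hS4 : S4 = {f : A → Circle | f 1 = 1 ∧ (∀ a b, f (a * b) = f a * f b) ∧
      ∀ i, ∀ a ∈ V i, ‖(f a : ℂ) - 1‖ ≤ r i} := by
    ext f
    constructor
    · rintro ⟨_, ⟨φ, hφ, rfl⟩, rfl⟩
      exact ⟨map_one φ, map_mul φ, hφ⟩
    · rintro ⟨h1, h2, h3⟩
      refine ⟨_, ⟨mkChar ⟨⟨f, h1⟩, h2⟩ ?_, h3, rfl⟩, rfl⟩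
      intro ε hε
      obtain ⟨i, hi, hri⟩ := hV ε hε
      exact ⟨V i, hi, fun a ha => (h3 i a ha).trans_lt hri⟩
  have hcl : IsClosed S4 := by
    have h2 : Continuous fun z : Circle => (z : ℂ) := continuous_subtype_val
    rw [hS4]
    apply IsClosed.inter
    · exact isClosed_eq (continuous_apply 1) continuous_const
    apply IsClosed.inter
    · have : {f : A → Circle | ∀ a b, f (a * b) = f a * f b} =
          ⋂ a, ⋂ b, {f : A → Circle | f (a * b) = f a * f b} := by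
        ext f; simp
      change IsClosed {f : A → Circle | ∀ a b, f (a * b) = f a * f b}
      rw [this]
      exact isClosed_iInter fun a => isClosed_iInter fun b =>
        isClosed_eq (continuous_apply _) ((continuous_apply a).mul (continuous_apply b))
    · change IsClosed {f : A → Circle | ∀ i, ∀ a ∈ V i, ‖(f a : ℂ) - 1‖ ≤ r i}
      have : {f : A → Circle | ∀ i, ∀ a ∈ V i, ‖(f a : ℂ) - 1‖ ≤ r i} =
          ⋂ i, ⋂ a ∈ V i, {f : A → Circle | ‖(f a : ℂ) - 1‖ ≤ r i} := by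
        ext f; simp
      rw [this]
      exact isClosed_iInter fun i => isClosed_iInter fun a => isClosed_iInter fun _ =>
        isClosed_le ((h2.comp (continuous_apply a)).sub continuous_const).norm continuous_const
  have heq : Equicontinuous ((↑) ∘ (Subtype.val : S2 → (A →ₜ* Circle))) := by
    apply equicontinuous_of_equicontinuousAt_one
    intro U hU
    obtain ⟨ε, hε, hU⟩ := (Metric.uniformity_basis_dist (α := Circle)).mem_iff.1 hU
    obtain ⟨i, hi, hri⟩ := hV ε hε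
    filter_upwards [hi] with a ha φ
    apply hU
    have h1 : ((⇑) ∘ (Subtype.val : S2 → (A →ₜ* Circle))) φ 1 = 1 := map_one φ.1
    rw [h1]
    change dist (1 : Circle) (φ.1 a) < ε
    rw [dist_comm, circle_dist]
    exact (φ.2 i a ha).trans_lt hri
  have heq3 : Equicontinuous ((↑) : S3 → A → Circle) := by
    intro x₀ U hU
    filter_upwards [heq x₀ U hU] with x hx
    rintro ⟨_, φ, hφ, rfl⟩
    exact hx ⟨φ, hφ⟩
  exact (ContinuousMonoidHom.isInducing_toContinuousMap A Circle).isCompact_iff.mpr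
    (ArzelaAscoli.isCompact_of_equicontinuous S3 hcl.isCompact heq3)

end Cont

section FiniteExt

variable {A : Type*} [CommGroup A]

/-- Quantitative extension of homomorphisms: a homomorphism close to `1` on a suitable finite
subset of `H` has an extension close to `1` on a given finite set. -/
lemma exists_finite_ext (H : Subgroup A) (F : Finset A) {ε : ℝ} (hε : 0 < ε) :
    ∃ K : Set H, K.Finite ∧ ∃ δ : ℝ, 0 < δ ∧ ∀ ψ : H →* Circle,
      (∀ h ∈ K, ‖(ψ h : ℂ) - 1‖ < δ) →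
      ∃ φ : A →* Circle, (∀ h : H, φ h = ψ h) ∧ ∀ a ∈ F, ‖(φ a : ℂ) - 1‖ < ε := by
  let _ : TopologicalSpace A := ⊥
  have : DiscreteTopology A := ⟨rfl⟩
  let ιH : H →ₜ* A := { H.subtype with continuous_toFun := continuous_of_discreteTopology }
  let R : PontryaginDual A →ₜ* PontryaginDual H := PontryaginDual.map ιH
  have hsurj : Function.Surjective (R : PontryaginDual A →* PontryaginDual H) := by
    intro ψ
    obtain ⟨φ, hφ⟩ := exists_circle_ext H (ψ : H →* Circle)
    exact ⟨{ φ with continuous_toFun := continuous_of_discreteTopology },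
      PontryaginDual.ext fun h => hφ h⟩
  have hopen : IsOpenMap (R : PontryaginDual A →* PontryaginDual H) :=
    MonoidHom.isOpenMap_of_sigmaCompact _ hsurj (map_continuous R)
  have hO : {χ : PontryaginDual A | ∀ a ∈ (F : Set A), ‖(χ a : ℂ) - 1‖ < ε} ∈
      𝓝 (1 : PontryaginDual A) :=
    mem_nhds_one_of_isCompact F.finite_toSet.isCompact hε
  have h1 := hopen.image_mem_nhds hO
  rw [map_one, nhds_one_hasBasis.mem_iff] at h1
  obtain ⟨⟨K, δ⟩, ⟨hK, hδ⟩, h⟩ := h1
  refine ⟨K, hK.finite_of_discrete, δ, hδ, fun ψ hψ => ?_⟩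
  obtain ⟨χ, hχ, hχψ⟩ := h (show ({ ψ with continuous_toFun := continuous_of_discreteTopology } :
    PontryaginDual H) ∈ _ from hψ)
  refine ⟨(χ : A →* Circle), fun x => ?_, fun a ha => hχ a ha⟩
  exact DFunLike.congr_fun hχψ x

end FiniteExt

end C93
end
end

section

/-!
# Lifting null sequences through an open subgroup of the dual group
-/

open Filter Topology MeasureTheory
open scoped Pointwise

set_option linter.unusedSectionVars false

noncomputable section

namespace C93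

section General

variable {A : Type*} [CommGroup A] [TopologicalSpace A]

/-- Compact sets of characters converge to `1` uniformly along null sequences. -/
lemma eventually_of_isCompact {C : Set (PontryaginDual A)} (hC : IsCompact C) {g : ℕ → A}
    (hg : Tendsto g atTop (𝓝 1)) {ε : ℝ} (hε : 0 < ε) :
    ∀ᶠ n in atTop, ∀ φ ∈ C, ‖(φ (g n) : ℂ) - 1‖ < ε := by
  have hS : IsCompact (insert 1 (Set.range g)) := hg.isCompact_insert_range
  have key : {z : ℕ × PontryaginDual A | ‖(z.2 (g z.1) : ℂ) - 1‖ < ε} ∈ atTop ×ˢ 𝓝ˢ C := by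
    apply hC.mem_prod_nhdsSet_of_forall
    intro φ _
    have h1 : {ψ : PontryaginDual A | ∀ a ∈ insert 1 (Set.range g), ‖(ψ a : ℂ) - φ a‖ < ε / 2} ∈
        𝓝 φ := (nhds_hasBasis φ).mem_of_mem (i := ⟨_, ε / 2⟩) ⟨hS, half_pos hε⟩
    have h2 : ∀ᶠ n in atTop, ‖(φ (g n) : ℂ) - 1‖ < ε / 2 := by
      have h3 : Tendsto (fun n => φ (g n)) atTop (𝓝 1) := by
        have := ((map_continuous φ).tendsto 1).comp hg
        rwa [map_one] at this
      rw [circle_nhds_one_hasBasis.tendsto_right_iff] at h3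
      exact h3 _ (half_pos hε)
    refine mem_of_superset (prod_mem_prod h2 h1) ?_
    rintro ⟨n, ψ⟩ ⟨hn, hψ⟩
    have h4 := hψ (g n) (Set.mem_insert_of_mem _ ⟨n, rfl⟩)
    change ‖(φ (g n) : ℂ) - 1‖ < ε / 2 at hn
    change ‖(ψ (g n) : ℂ) - 1‖ < ε
    calc ‖(ψ (g n) : ℂ) - 1‖ = ‖((ψ (g n) : ℂ) - φ (g n)) + ((φ (g n) : ℂ) - 1)‖ := by
          congr 1; ring
      _ ≤ ‖(ψ (g n) : ℂ) - φ (g n)‖ + ‖(φ (g n) : ℂ) - 1‖ := norm_add_le _ _
      _ < ε := by linarith
  obtain ⟨t₁, ht₁, t₂, ht₂, h⟩ := mem_prod_iff.1 key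
  filter_upwards [ht₁] with n hn φ hφ
  exact h (show (n, φ) ∈ t₁ ×ˢ t₂ from ⟨hn, subset_of_mem_nhdsSet ht₂ hφ⟩)

end General

section LCA

variable {X : Type*} [CommGroup X] [TopologicalSpace X] [IsTopologicalGroup X]
  [LocallyCompactSpace X] [T2Space X]

lemma exists_detect {U : Set X} (hU : U ∈ 𝓝 (1 : X)) :
    ∃ K : Set (PontryaginDual X), IsCompact K ∧ ∃ c : ℝ, 0 < c ∧
      ∀ x : X, (∀ γ ∈ K, ‖(γ x : ℂ) - 1‖ ≤ c) → x ∈ U := by
  let _ : MeasurableSpace X := borel X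
  have : BorelSpace X := ⟨rfl⟩
  exact exists_compact_detect (μ := Measure.haar) hU

lemma eq_one_of_forall_char {x : X} (h : ∀ χ : PontryaginDual X, χ x = 1) : x = 1 := by
  apply (reflexive_of_locallyCompact (G := X)).inducing.injective
  rw [map_one]
  exact PontryaginDual.ext fun χ => h χ

lemma exists_of_bidual (ζ : PontryaginDual (PontryaginDual X)) :
    ∃ x : X, ∀ χ : PontryaginDual X, ζ χ = χ x := by
  obtain ⟨x, rfl⟩ := (reflexive_of_locallyCompact (G := X)).surj ζ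
  exact ⟨x, fun χ => rfl⟩

/-- A homomorphism `P → 𝕋` defined on the dual group, continuous on an open subgroup, is an
evaluation. -/
lemma exists_of_hom (P1 : Subgroup (PontryaginDual X)) (hP1 : (P1 : Set _) ∈ 𝓝 (1 : PontryaginDual X))
    (h : PontryaginDual X →* Circle) (x₀ : X) (hx₀ : ∀ χ ∈ P1, h χ = χ x₀) :
    ∃ x : X, ∀ χ : PontryaginDual X, h χ = χ x := by
  have hcont : ∀ ε : ℝ, 0 < ε → ∃ U ∈ 𝓝 (1 : PontryaginDual X), ∀ χ ∈ U, ‖(h χ : ℂ) - 1‖ < ε := by
    intro ε hε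
    obtain ⟨U, hU, hU'⟩ := char_nhds (ev x₀) hε
    refine ⟨(P1 : Set _) ∩ U, inter_mem hP1 hU, fun χ hχ => ?_⟩
    rw [hx₀ χ hχ.1]
    exact hU' χ hχ.2
  exact exists_of_bidual (mkChar h hcont)

variable {I : Type*}

/-- The group of double families `θ k i` in the circle tending to `1` uniformly in `i` as
`k → ∞`, and equal to `1` wherever `z k i` holds. -/
def NullGrp (z : ℕ → I → Prop) : Subgroup (ℕ → I → Circle) where
  carrier := {θ | (∀ ε : ℝ, 0 < ε → ∀ᶠ k in atTop, ∀ i, ‖(θ k i : ℂ) - 1‖ < ε) ∧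
    ∀ k i, z k i → θ k i = 1}
  one_mem' := ⟨fun ε hε => Eventually.of_forall fun k i => by simpa using hε, fun _ _ _ => rfl⟩
  mul_mem' := by
    rintro θ η ⟨h1, h2⟩ ⟨h3, h4⟩
    refine ⟨fun ε hε => ?_, fun k i hz => ?_⟩
    · filter_upwards [h1 _ (half_pos hε), h3 _ (half_pos hε)] with k ha hb i
      have := norm_mul_sub_one_le (θ k i) (η k i)
      change ‖((θ k i * η k i : Circle) : ℂ) - 1‖ < ε
      linarith [ha i, hb i]
    · change θ k i * η k i = 1
      rw [h2 k i hz, h4 k i hz, mul_one]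
  inv_mem' := by
    rintro θ ⟨h1, h2⟩
    refine ⟨fun ε hε => ?_, fun k i hz => ?_⟩
    · filter_upwards [h1 _ hε] with k ha i
      change ‖(((θ k i)⁻¹ : Circle) : ℂ) - 1‖ < ε
      rw [norm_inv_sub_one]
      exact ha i
    · change (θ k i)⁻¹ = 1
      rw [h2 k i hz, inv_one]

lemma nullGrp_divisible (z : ℕ → I → Prop) (n : ℕ) (hn : n ≠ 0) (d : NullGrp z) :
    ∃ e : NullGrp z, e ^ n = d := by
  choose w hw1 hw2 using fun u : Circle => exists_root hn u
  refine ⟨⟨fun k i => w (d.1 k i), ⟨fun ε hε => ?_, fun k i hz => ?_⟩⟩, ?_⟩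
  · filter_upwards [d.2.1 ε hε] with k hk i
    exact (hw2 _).trans_lt (hk i)
  · apply circle_eq_one_of
    refine (hw2 _).trans ?_
    rw [d.2.2 k i hz]
    simp
  · apply Subtype.ext
    funext k i
    exact hw1 _

/-- **Lifting lemma.** -/
lemma lift_null (P1 : Subgroup (PontryaginDual X)) (hP1 : IsOpen (P1 : Set (PontryaginDual X)))
    (R : ℕ → Set (PontryaginDual X))
    (hR : ∀ K : Set (PontryaginDual X), IsCompact K → K ⊆ P1 → ∀ᶠ k in atTop, K ⊆ R k)
    (g : ℕ → I → X)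
    (hg : ∀ k, ∀ χ ∈ R k, ∀ i, ‖(χ (g k i) : ℂ) - 1‖ < 1 / ((k : ℝ) + 1)) :
    ∃ g' : ℕ → I → X, (∀ U ∈ 𝓝 (1 : X), ∀ᶠ k in atTop, ∀ i, g' k i ∈ U) ∧
      (∀ k i, ∀ χ ∈ P1, χ (g' k i) = χ (g k i)) ∧ (∀ k i, g k i = 1 → g' k i = 1) := by
  have hP1n : (P1 : Set _) ∈ 𝓝 (1 : PontryaginDual X) := hP1.mem_nhds P1.one_mem
  have hsmall : ∀ ε : ℝ, 0 < ε → ∀ᶠ k : ℕ in atTop, 1 / ((k : ℝ) + 1) < ε := fun ε hε =>
    tendsto_one_div_add_atTop_nhds_zero_nat.eventually_lt_const hε
  -- the homomorphism into the group of null families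
  let Ψ : P1 →* NullGrp (fun k i => g k i = 1) :=
    { toFun := fun χ => ⟨fun k i => χ.1 (g k i), by
        refine ⟨fun ε hε => ?_, fun k i hz => ?_⟩
        · filter_upwards [hR {χ.1} isCompact_singleton (by simp), hsmall ε hε] with k hk hk' i
          exact (hg k χ.1 (hk rfl) i).trans hk'
        · change χ.1 (g k i) = 1
          rw [hz, map_one]⟩
      map_one' := rfl
      map_mul' := fun _ _ => rfl }
  obtain ⟨Ψ', hΨ'⟩ := exists_hom_ext (nullGrp_divisible _) P1 Ψ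
  -- coordinates
  let h : ℕ → I → (PontryaginDual X →* Circle) := fun k i =>
    { toFun := fun χ => (Ψ' χ).1 k i
      map_one' := by rw [map_one]; rfl
      map_mul' := fun a b => by rw [map_mul]; rfl }
  have hh : ∀ k i, ∀ χ ∈ P1, h k i χ = χ (g k i) := by
    intro k i χ hχ
    have := hΨ' ⟨χ, hχ⟩
    change (Ψ' χ).1 k i = _
    rw [this]
    rfl
  have hex := fun k i => exists_of_hom P1 hP1n (h k i) (g k i) (hh k i)
  choose g' hg' using hex
  refine ⟨g', fun U hU => ?_, fun k i χ hχ => ?_, fun k i hk => ?_⟩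
  · obtain ⟨K, hK, c, hc, hdet⟩ := exists_detect hU
    suffices hs : ∀ᶠ k in atTop, ∀ i, ∀ χ ∈ K, ‖(χ (g' k i) : ℂ) - 1‖ ≤ c by
      filter_upwards [hs] with k hk i
      exact hdet _ (hk i)
    refine hK.induction_on (p := fun S => ∀ᶠ k in atTop, ∀ i, ∀ χ ∈ S,
      ‖(χ (g' k i) : ℂ) - 1‖ ≤ c) ?_ ?_ ?_ ?_
    · exact Eventually.of_forall fun k i χ hχ => hχ.elim
    · intro s t hst ht
      filter_upwards [ht] with k hk i χ hχ using hk i χ (hst hχ)
    · intro s t hs ht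
      filter_upwards [hs, ht] with k hk hk' i χ hχ
      exact hχ.elim (hk i χ) (hk' i χ)
    · intro χ₀ hχ₀
      have hcos : IsOpen {χ : PontryaginDual X | χ₀⁻¹ * χ ∈ P1} :=
        hP1.preimage (show Continuous fun χ : PontryaginDual X => χ₀⁻¹ * χ from
          continuous_const.mul continuous_id)
      have hcl : IsClosed {χ : PontryaginDual X | χ₀⁻¹ * χ ∈ P1} :=
        (P1.isClosed_of_isOpen hP1).preimage
          (show Continuous fun χ : PontryaginDual X => χ₀⁻¹ * χ from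
            continuous_const.mul continuous_id)
      refine ⟨K ∩ {χ | χ₀⁻¹ * χ ∈ P1}, ?_, ?_⟩
      · exact inter_mem self_mem_nhdsWithin
          (mem_nhdsWithin_of_mem_nhds (hcos.mem_nhds (by simp)))
      · have hKc : IsCompact ((fun χ : PontryaginDual X => χ₀⁻¹ * χ) ''
            (K ∩ {χ | χ₀⁻¹ * χ ∈ P1})) :=
          (hK.inter_right hcl).image (show Continuous fun χ : PontryaginDual X => χ₀⁻¹ * χ from
            continuous_const.mul continuous_id)
        have hKs : ((fun χ : PontryaginDual X => χ₀⁻¹ * χ) ''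
            (K ∩ {χ | χ₀⁻¹ * χ ∈ P1})) ⊆ P1 := by
          rintro _ ⟨χ, hχ, rfl⟩
          exact hχ.2
        filter_upwards [hR _ hKc hKs, hsmall _ (half_pos hc), (Ψ' χ₀).2.1 _ (half_pos hc)]
          with k h1 h2 h3 i χ hχ
        set ρ := χ₀⁻¹ * χ with hρ
        have hρP : ρ ∈ P1 := hχ.2
        have hρR : ρ ∈ R k := h1 ⟨χ, hχ, rfl⟩
        have e : χ = χ₀ * ρ := by rw [hρ, mul_inv_cancel_left]
        have e2 : χ (g' k i) = χ₀ (g' k i) * ρ (g' k i) := by rw [e]; rfl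
        have e3 : ρ (g' k i) = ρ (g k i) := by rw [← hg', hh k i ρ hρP]
        have e4 : χ₀ (g' k i) = (Ψ' χ₀).1 k i := (hg' k i χ₀).symm
        rw [e2]
        have h5 := norm_mul_sub_one_le (χ₀ (g' k i)) (ρ (g' k i))
        have h6 : ‖(χ₀ (g' k i) : ℂ) - 1‖ < c / 2 := by rw [e4]; exact h3 i
        have h7 : ‖(ρ (g' k i) : ℂ) - 1‖ < c / 2 := by
          rw [e3]; exact (hg k ρ hρR i).trans h2
        linarith
  · rw [← hg', hh k i χ hχ]
  · apply eq_one_of_forall_char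
    intro χ
    rw [← hg']
    exact (Ψ' χ).2.2 k i hk

end LCA

end C93
end
end

section

/-!
# A common framework for `cZero` and `ℓ_∞`; density, surjectivity and openness
-/

open Filter Topology MeasureTheory
open scoped Pointwise

set_option linter.unusedSectionVars false

noncomputable section

namespace C93

variable {I X : Type*} [CommGroup X] [TopologicalSpace X] [IsTopologicalGroup X]

/-- The properties of subgroups `G` of `X^I` which are used in the proof of reflexivity. -/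
structure Good (G : Subgroup (Fam I X)) (𝒜 : Set (Set I)) (Nice : Fam I X → Prop) : Prop where
  blk_mem : ∀ A ∈ 𝒜, ∀ x, blk A x ∈ G
  approx : ∀ S : Set G, IsCompact S → ∀ U ∈ 𝓝 (1 : X), ∃ L : Finset (Set I × I),
    (∀ l ∈ L, l.1 ∈ 𝒜) ∧ ∀ f ∈ S, ∀ j, f.1 j * (∏ l ∈ L, blk l.1 (f.1 l.2) j)⁻¹ ∈ U
  mem_of_dominated : ∀ g : Fam I X, (∀ ε : ℝ, 0 < ε → ∃ S : Set G, IsCompact S ∧ ∃ δ : ℝ, 0 < δ ∧
    ∀ i, ∀ χ : PontryaginDual X, (∀ s ∈ S, ‖(χ (s.1 i) : ℂ) - 1‖ < δ) →
      ‖(χ (g i) : ℂ) - 1‖ < ε) → g ∈ G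
  nice_dense : ∀ g ∈ G, ∀ U ∈ 𝓝 (1 : X), ∃ g' ∈ G, Nice g' ∧ (∀ i, g i * (g' i)⁻¹ ∈ U) ∧
    ∀ i, g' i = 1 ∨ ∃ j, g' i = g j
  nice_mul : ∀ N : Set X, IsCompact N → ∀ g ∈ G, Nice g → ∀ n : Fam I X, (∀ i, n i ∈ N) →
    (∀ i, g i = 1 → n i = 1) → g * n ∈ G

variable {G : Subgroup (Fam I X)} {𝒜 : Set (Set I)} {Nice : Fam I X → Prop}

/-- The character `χ ∘ π_i`. -/
def coordChar (G : Subgroup (Fam I X)) (i : I) : PontryaginDual X →ₜ* PontryaginDual G :=
  PontryaginDual.map (coordHom G i)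

@[simp] lemma coordChar_apply (i : I) (χ : PontryaginDual X) (g : G) :
    coordChar G i χ g = χ (g.1 i) := rfl

/-- The block character `φ ∘ ι_A`. -/
def blkChar (A : Set I) (hA : ∀ x, blk A x ∈ G) : PontryaginDual G →ₜ* PontryaginDual X :=
  PontryaginDual.map (blkHom G A hA)

@[simp] lemma blkChar_apply (A : Set I) (hA : ∀ x, blk A x ∈ G) (φ : PontryaginDual G) (x : X) :
    blkChar A hA φ x = φ ⟨blk A x, hA x⟩ := rfl

/-- The product of blocks approximating a family. -/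
def blkProd (L : Finset (Set I × I)) (hL : ∀ l ∈ L, ∀ x, blk l.1 x ∈ G) (f : G) : G :=
  ∏ l : L, (⟨blk l.1.1 (f.1 l.1.2), hL l.1 l.2 _⟩ : G)

lemma blkProd_apply (L : Finset (Set I × I)) (hL : ∀ l ∈ L, ∀ x, blk l.1 x ∈ G) (f : G) (j : I) :
    (blkProd L hL f).1 j = ∏ l ∈ L, blk l.1 (f.1 l.2) j := by
  rw [blkProd, Subgroup.val_finset_prod, Fam.prod_apply,
    ← Finset.prod_coe_sort L (fun l => blk l.1 (f.1 l.2) j)]

/-- The subgroup generated by the characters `χ ∘ π_i`. -/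
def coordSub (G : Subgroup (Fam I X)) : Subgroup (PontryaginDual G) :=
  Subgroup.closure {φ | ∃ i χ, φ = coordChar G i χ}

/-- The product of the characters `φ ∘ ι_A ∘ π_i`. -/
def approxChar (L : Finset (Set I × I)) (hL : ∀ l ∈ L, ∀ x, blk l.1 x ∈ G)
    (φ : PontryaginDual G) : PontryaginDual G :=
  ∏ l : L, coordChar G l.1.2 (blkChar l.1.1 (hL l.1 l.2) φ)

lemma approxChar_mem (L : Finset (Set I × I)) (hL : ∀ l ∈ L, ∀ x, blk l.1 x ∈ G)
    (φ : PontryaginDual G) : approxChar L hL φ ∈ coordSub G :=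
  Subgroup.prod_mem _ fun _ _ => Subgroup.subset_closure ⟨_, _, rfl⟩

lemma approxChar_apply (L : Finset (Set I × I)) (hL : ∀ l ∈ L, ∀ x, blk l.1 x ∈ G)
    (φ : PontryaginDual G) (f : G) : approxChar L hL φ f = φ (blkProd L hL f) := by
  rw [blkProd, map_prod]
  have : approxChar L hL φ f = evHom G f (approxChar L hL φ) := rfl
  rw [this, approxChar, map_prod]
  rfl

lemma norm_approxChar_sub (L : Finset (Set I × I)) (hL : ∀ l ∈ L, ∀ x, blk l.1 x ∈ G)
    (φ : PontryaginDual G) (f : G) :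
    ‖(φ f : ℂ) - approxChar L hL φ f‖ = ‖(φ (f * (blkProd L hL f)⁻¹) : ℂ) - 1‖ := by
  rw [approxChar_apply, map_mul, map_inv, norm_div_sub_one]

/-- Approximation of a character by characters of finite type, uniformly on compact sets. -/
lemma Good.exists_approx (hG : Good G 𝒜 Nice) (φ : PontryaginDual G) {S : Set G}
    (hS : IsCompact S) {ε : ℝ} (hε : 0 < ε) :
    ∃ (L : Finset (Set I × I)) (hL : ∀ l ∈ L, l.1 ∈ 𝒜), ∀ s ∈ S,
      ‖(φ s : ℂ) - approxChar L (fun l hl => hG.blk_mem l.1 (hL l hl)) φ s‖ < ε := by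
  obtain ⟨W, hW, hφ⟩ := char_nhds φ hε
  obtain ⟨U, hU, hUW⟩ := (nhds_one_sub G).mem_iff.1 hW
  obtain ⟨L, hL, h⟩ := hG.approx S hS U hU
  refine ⟨L, hL, fun s hs => ?_⟩
  rw [norm_approxChar_sub]
  apply hφ
  apply hUW
  intro j
  have := h s hs j
  rw [← blkProd_apply (G := G) L (fun l hl => hG.blk_mem l.1 (hL l hl)) s j] at this
  exact this

lemma Good.dense (hG : Good G 𝒜 Nice) : Dense (coordSub G : Set (PontryaginDual G)) := by
  intro φ
  rw [mem_closure_iff_nhds_basis (nhds_hasBasis φ)]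
  rintro ⟨S, ε⟩ ⟨hS, hε⟩
  obtain ⟨L, hL, h⟩ := hG.exists_approx φ hS hε
  refine ⟨_, approxChar_mem L (fun l hl => hG.blk_mem l.1 (hL l hl)) φ, fun s hs => ?_⟩
  rw [norm_sub_rev]
  exact h s hs

variable [LocallyCompactSpace X] [T2Space X]

/-- The evaluation map is surjective. -/
lemma Good.surjective (hG : Good G 𝒜 Nice) : Function.Surjective (evHom G) := by
  intro ξ
  have hex : ∀ i, ∃ x : X, ∀ χ : PontryaginDual X, ξ (coordChar G i χ) = χ x := fun i =>
    exists_of_bidual (ξ.comp (coordChar G i))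
  choose g hg using hex
  have hgG : (show Fam I X from g) ∈ G := by
    apply hG.mem_of_dominated
    intro ε hε
    obtain ⟨W, hW, hξ⟩ := char_nhds ξ hε
    obtain ⟨⟨S, δ⟩, ⟨hS, hδ⟩, h⟩ := nhds_one_hasBasis.mem_iff.1 hW
    refine ⟨S, hS, δ, hδ, fun i χ hχ => ?_⟩
    have := hξ (coordChar G i χ) (h hχ)
    rwa [hg] at this
  refine ⟨⟨g, hgG⟩, ?_⟩
  have heq : Set.EqOn (evHom G ⟨g, hgG⟩) ξ (coordSub G : Set (PontryaginDual G)) := by
    have := MonoidHom.eqOn_closure (f := (evHom G ⟨g, hgG⟩ : PontryaginDual G →* Circle))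
      (g := (ξ : PontryaginDual G →* Circle)) (s := {φ | ∃ i χ, φ = coordChar G i χ}) ?_
    · exact this
    · rintro _ ⟨i, χ, rfl⟩
      exact (hg i χ).symm
  have := Continuous.ext_on hG.dense (map_continuous (evHom G ⟨g, hgG⟩)) (map_continuous ξ) heq
  exact PontryaginDual.ext fun φ => congrFun this φ

/-- The topology of `G` is coarser than the one induced from the bidual. -/
lemma exists_compact_of_nhds (G : Subgroup (Fam I X)) {O : Set G} (hO : O ∈ 𝓝 (1 : G)) :
    ∃ E : Set (PontryaginDual G), IsCompact E ∧ ∃ c : ℝ, 0 < c ∧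
      ∀ g : G, (∀ φ ∈ E, ‖(φ g : ℂ) - 1‖ ≤ c) → g ∈ O := by
  obtain ⟨U, hU, hUO⟩ := (nhds_one_sub G).mem_iff.1 hO
  obtain ⟨K, hK, c, hc, hdet⟩ := exists_detect hU
  choose W hW hWK using fun ε : {ε : ℝ // 0 < ε} => exists_nhds_of_isCompact hK ε.2
  refine ⟨{φ : PontryaginDual G | ∀ ε : {ε : ℝ // 0 < ε}, ∀ g ∈ {g : G | ∀ i, g.1 i ∈ W ε},
    ‖(φ g : ℂ) - 1‖ ≤ ε.1}, ?_, c, hc, fun g hg => ?_⟩
  · apply isCompact_equi
    intro ε hε
    exact ⟨⟨ε / 2, half_pos hε⟩, (nhds_one_sub G).mem_of_mem (hW _), by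
      change ε / 2 < ε; linarith⟩
  · apply hUO
    intro i
    apply hdet
    intro γ hγ
    exact hg (coordChar G i γ) fun ε g' hg' => (hWK ε γ hγ _ (hg' i)).le

end C93
end
end

section

/-!
# Compact sets of characters of `G` are equicontinuous
-/

open Filter Topology MeasureTheory
open scoped Pointwise

set_option linter.unusedSectionVars false

noncomputable section

namespace C93

section GenSub

variable {P : Type*} [CommGroup P]

lemma symm_inv (L : Set P) : (L ∪ L⁻¹)⁻¹ = L ∪ L⁻¹ := by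
  rw [Set.union_inv, inv_inv, Set.union_comm]

/-- The subgroup generated by `L`, as the union of the powers of `L ∪ L⁻¹`. -/
def genSub (L : Set P) : Subgroup P where
  carrier := ⋃ k : ℕ, (L ∪ L⁻¹) ^ k
  one_mem' := Set.mem_iUnion.2 ⟨0, by simp⟩
  mul_mem' := by
    intro a b ha hb
    obtain ⟨k, hk⟩ := Set.mem_iUnion.1 ha
    obtain ⟨m, hm⟩ := Set.mem_iUnion.1 hb
    exact Set.mem_iUnion.2 ⟨k + m, by rw [pow_add]; exact Set.mul_mem_mul hk hm⟩
  inv_mem' := by
    intro a ha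
    obtain ⟨k, hk⟩ := Set.mem_iUnion.1 ha
    refine Set.mem_iUnion.2 ⟨k, ?_⟩
    rw [← symm_inv, inv_pow, Set.inv_mem_inv]
    exact hk

lemma mem_genSub {L : Set P} {x : P} : x ∈ genSub L ↔ ∃ k : ℕ, x ∈ (L ∪ L⁻¹) ^ k :=
  Set.mem_iUnion

lemma genSub_mono {L L' : Set P} (h : L ⊆ L') : genSub L ≤ genSub L' := by
  intro x hx
  obtain ⟨k, hk⟩ := mem_genSub.1 hx
  exact mem_genSub.2 ⟨k, Set.pow_subset_pow_left (Set.union_subset_union h
    (Set.inv_subset_inv.2 h)) hk⟩

lemma subset_genSub (L : Set P) : L ⊆ genSub L := fun x hx =>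
  mem_genSub.2 ⟨1, by rw [pow_one]; exact Or.inl hx⟩

variable [TopologicalSpace P] [IsTopologicalGroup P]

lemma isOpen_genSub {L : Set P} (hL : L ∈ 𝓝 (1 : P)) : IsOpen (genSub L : Set P) :=
  Subgroup.isOpen_of_mem_nhds _ (mem_of_superset hL (subset_genSub L))

lemma isCompact_symm {L : Set P} (hL : IsCompact L) : IsCompact (L ∪ L⁻¹) :=
  hL.union hL.inv

lemma isCompact_pow {L : Set P} (hL : IsCompact L) (k : ℕ) : IsCompact (L ^ k) := by
  induction k with
  | zero => rw [pow_zero]; exact isCompact_singleton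
  | succ k ih => rw [pow_succ]; exact ih.mul hL

lemma exhaustion {L : Set P} (hL : L ∈ 𝓝 (1 : P)) {K : Set P} (hK : IsCompact K)
    (hKL : K ⊆ genSub L) : ∀ᶠ k in atTop, K ⊆ (L ∪ L⁻¹) ^ k := by
  have h1 : (1 : P) ∈ L ∪ L⁻¹ := Or.inl (mem_of_mem_nhds hL)
  have key : ∀ T : Set P, IsCompact T → T ⊆ genSub L → ∀ᶠ k in atTop, T ⊆ (L ∪ L⁻¹) ^ k := by
    intro T hT hTL
    refine hT.induction_on (p := fun T => ∀ᶠ k in atTop, T ⊆ (L ∪ L⁻¹) ^ k) ?_ ?_ ?_ ?_
    · exact Eventually.of_forall fun k => Set.empty_subset _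
    · intro s t hst ht
      filter_upwards [ht] with k hk using hst.trans hk
    · intro s t hs ht
      filter_upwards [hs, ht] with k hk hk' using Set.union_subset hk hk'
    · intro x hx
      obtain ⟨m, hm⟩ := mem_genSub.1 (hTL hx)
      refine ⟨{y | x⁻¹ * y ∈ L}, mem_nhdsWithin_of_mem_nhds ?_, ?_⟩
      · have hc : Continuous fun y : P => x⁻¹ * y := continuous_const.mul continuous_id
        have := hc.tendsto x
        rw [inv_mul_cancel] at this
        exact this hL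
      · filter_upwards [eventually_ge_atTop (m + 1)] with k hk y hy
        apply Set.pow_subset_pow_right h1 hk
        rw [pow_succ]
        exact ⟨x, hm, x⁻¹ * y, Or.inl hy, by simp⟩
  exact key K hK hKL

end GenSub

variable {I X : Type*} [CommGroup X] [TopologicalSpace X] [IsTopologicalGroup X]
  [LocallyCompactSpace X] [T2Space X]

variable {G : Subgroup (Fam I X)} {𝒜 : Set (Set I)} {Nice : Fam I X → Prop}

/-- The block characters of a compact set of characters lie in a compactly generated open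
subgroup of the dual group of `X`. -/
lemma Good.exists_genSub (hG : Good G 𝒜 Nice) {C : Set (PontryaginDual G)} (hC : IsCompact C) :
    ∃ L : Set (PontryaginDual X), IsCompact L ∧ L ∈ 𝓝 (1 : PontryaginDual X) ∧
      ∀ φ ∈ C, ∀ A (hA : A ∈ 𝒜), blkChar A (hG.blk_mem A hA) φ ∈ genSub L := by
  classical
  obtain ⟨K0, hK0, hK01⟩ := exists_compact_mem_nhds (1 : PontryaginDual X)
  by_contra hcon
  push Not at hcon
  have h1 : ∀ F : Finset (PontryaginDual X), ∃ φ ∈ C, ∃ A, ∃ hA : A ∈ 𝒜,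
      blkChar A (hG.blk_mem A hA) φ ∉ genSub (K0 ∪ F) := fun F =>
    hcon (K0 ∪ F) (hK0.union F.finite_toSet.isCompact) (mem_of_superset hK01 Set.subset_union_left)
  choose φ hφC A hA hφ using h1
  let p : Finset (PontryaginDual X) → PontryaginDual X := fun F =>
    blkChar (A F) (hG.blk_mem (A F) (hA F)) (φ F)
  obtain ⟨F, hF⟩ : ∃ F : ℕ → Finset (PontryaginDual X), ∀ n, F (n + 1) = insert (p (F n)) (F n) :=
    ⟨fun n => Nat.rec ∅ (fun _ F => insert (p F) F) n, fun n => rfl⟩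
  have hFmono : Monotone F := monotone_nat_of_le_succ fun n => by
    rw [hF]; exact Finset.subset_insert _ _
  let Q : ℕ → Subgroup (PontryaginDual X) := fun n =>
    genSub (K0 ∪ (↑(F n) : Set (PontryaginDual X)))
  have hQmono : Monotone Q := fun m n hmn =>
    genSub_mono (Set.union_subset_union_right _ (Finset.coe_subset.2 (hFmono hmn)))
  have hKQ : ∀ n, K0 ∪ (↑(F n) : Set (PontryaginDual X)) ∈ 𝓝 (1 : PontryaginDual X) := fun n =>
    mem_of_superset hK01 Set.subset_union_left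
  have hQopen : ∀ n, IsOpen (Q n : Set (PontryaginDual X)) := fun n => isOpen_genSub (hKQ n)
  have hpQ : ∀ n, p (F n) ∉ Q n := fun n => hφ (F n)
  have hpQ' : ∀ n, p (F n) ∈ Q (n + 1) := fun n =>
    subset_genSub _ (Or.inr (by rw [hF]; exact Finset.mem_coe.2 (Finset.mem_insert_self _ _)))
  -- the union
  have hdir : Directed (· ≤ ·) Q := hQmono.directed_le
  have hQ'mem : ∀ x, x ∈ iSup Q ↔ ∃ n, x ∈ Q n := fun x => Subgroup.mem_iSup_of_directed hdir
  have hQ'open : IsOpen ((iSup Q : Subgroup _) : Set (PontryaginDual X)) :=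
    Subgroup.isOpen_mono (le_iSup Q 0) (hQopen 0)
  -- the characters
  have h2 := fun n => exists_char (Q n) (hpQ n)
  choose h hh1 hh2 using h2
  have h3 := fun n => exists_of_hom (Q n) ((hQopen n).mem_nhds (Q n).one_mem) (h n) 1
    (fun χ hχ => by rw [hh1 n χ hχ, map_one])
  choose x hx using h3
  obtain ⟨g', hg'1, hg'2, -⟩ := lift_null (I := Unit) (iSup Q) hQ'open (fun n => (Q n : Set _))
    (by
      intro K hK hKQ'
      refine hK.induction_on (p := fun T => ∀ᶠ k in atTop, T ⊆ (Q k : Set _)) ?_ ?_ ?_ ?_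
      · exact Eventually.of_forall fun k => Set.empty_subset _
      · intro s t hst ht
        filter_upwards [ht] with k hk using hst.trans hk
      · intro s t hs ht
        filter_upwards [hs, ht] with k hk hk' using Set.union_subset hk hk'
      · intro y hy
        obtain ⟨m, hm⟩ := (hQ'mem y).1 (hKQ' hy)
        refine ⟨Q m, mem_nhdsWithin_of_mem_nhds ((hQopen m).mem_nhds hm), ?_⟩
        filter_upwards [eventually_ge_atTop m] with k hk using hQmono hk)
    (fun n _ => x n)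
    (by
      intro k χ hχ _
      rw [← hx, hh1 k χ hχ]
      simp only [Circle.coe_one, sub_self, norm_zero]
      positivity)
  -- the null sequence in `G`
  let s : ℕ → G := fun n => blkHom G (A (F n)) (hG.blk_mem _ (hA (F n))) (g' n ())
  have hs : Tendsto s atTop (𝓝 1) := by
    rw [(nhds_one_sub G).tendsto_right_iff]
    intro U hU
    filter_upwards [hg'1 U hU] with n hn i
    exact blk_mem_of_mem hU (hn ()) i
  obtain ⟨n, hn⟩ := (eventually_of_isCompact hC hs one_pos).exists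
  have h4 := hn (φ (F n)) (hφC (F n))
  have h5 : φ (F n) (s n) = p (F n) (g' n ()) := rfl
  rw [h5, hg'2 n () _ ((hQ'mem _).2 ⟨n + 1, hpQ' n⟩), ← hx] at h4
  exact absurd (hh2 n) (not_le.2 h4)

/-- The annihilator of an open subgroup of the dual group is compact. -/
lemma isCompact_annihilator (P1 : Subgroup (PontryaginDual X))
    (hP1 : IsOpen (P1 : Set (PontryaginDual X))) :
    IsCompact {x : X | ∀ χ ∈ P1, χ x = 1} := by
  have h1 : IsCompact {ζ : PontryaginDual (PontryaginDual X) |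
      ∀ _ : Unit, ∀ χ ∈ (P1 : Set (PontryaginDual X)), ‖(ζ χ : ℂ) - 1‖ ≤ 0} := by
    apply isCompact_equi (fun _ : Unit => (P1 : Set (PontryaginDual X))) (fun _ => 0)
    intro ε hε
    exact ⟨(), hP1.mem_nhds P1.one_mem, hε⟩
  obtain ⟨e, he⟩ := reflexive_of_locallyCompact (G := X)
  have h2 := h1.image (show Continuous e.symm from e.symm.continuous)
  convert h2 using 1
  ext x
  constructor
  · intro hx
    refine ⟨e x, fun _ χ hχ => ?_, e.symm_apply_apply x⟩
    rw [he, hx χ hχ]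
    simp
  · rintro ⟨ζ, hζ, rfl⟩ χ hχ
    have := hζ () χ hχ
    rw [← he, e.apply_symm_apply]
    exact circle_eq_one_of this

/-- Characters all of whose blocks lie in `P1` vanish on families with values in the annihilator
of `P1`. -/
lemma Good.eq_one (hG : Good G 𝒜 Nice) (P1 : Subgroup (PontryaginDual X)) (φ : PontryaginDual G)
    (hφ : ∀ A (hA : A ∈ 𝒜), blkChar A (hG.blk_mem A hA) φ ∈ P1) (n : G)
    (hn : ∀ i, ∀ χ ∈ P1, χ (n.1 i) = 1) : φ n = 1 := by
  apply circle_eq_one_of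
  apply le_of_forall_pos_lt_add
  intro ε hε
  obtain ⟨L, hL, h⟩ := hG.exists_approx φ (isCompact_singleton (x := n)) hε
  have h1 : approxChar L (fun l hl => hG.blk_mem l.1 (hL l hl)) φ n = 1 := by
    have : approxChar L (fun l hl => hG.blk_mem l.1 (hL l hl)) φ n =
      evHom G n (approxChar L (fun l hl => hG.blk_mem l.1 (hL l hl)) φ) := rfl
    rw [this, approxChar, map_prod]
    apply Finset.prod_eq_one
    intro l _
    exact hn _ _ (hφ _ (hL l.1 l.2))
  have h2 := h n rfl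
  rw [h1] at h2
  simpa using h2

/-- **Compact sets of characters are equicontinuous.** -/
lemma Good.equi (hG : Good G 𝒜 Nice) {C : Set (PontryaginDual G)} (hC : IsCompact C) {ε : ℝ}
    (hε : 0 < ε) : ∃ O ∈ 𝓝 (1 : G), ∀ φ ∈ C, ∀ g ∈ O, ‖(φ g : ℂ) - 1‖ < ε := by
  by_contra hcon
  push Not at hcon
  obtain ⟨L, hLc, hL1, hL⟩ := hG.exists_genSub hC
  have hP1 : IsOpen (genSub L : Set (PontryaginDual X)) := isOpen_genSub hL1
  have h1 : ∀ k : ℕ, ∃ U ∈ 𝓝 (1 : X), ∀ χ ∈ (L ∪ L⁻¹) ^ k, ∀ y ∈ U,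
      ‖(χ y : ℂ) - 1‖ < 1 / ((k : ℝ) + 1) := fun k =>
    exists_nhds_of_isCompact (isCompact_pow (isCompact_symm hLc) k) (by positivity)
  choose U hU hUk using h1
  have h2 : ∀ k, ∃ φ ∈ C, ∃ g : G, Nice g.1 ∧ (∀ i, g.1 i ∈ U k) ∧
      ε / 2 ≤ ‖(φ g : ℂ) - 1‖ := by
    intro k
    obtain ⟨φ, hφ, g, hg, hge⟩ := hcon {g : G | ∀ i, g.1 i ∈ U k}
      ((nhds_one_sub G).mem_of_mem (hU k))
    obtain ⟨W, hW, hφW⟩ := char_nhds φ (half_pos hε)
    obtain ⟨V, hV, hVW⟩ := (nhds_one_sub G).mem_iff.1 hW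
    obtain ⟨g', hg'G, hg'N, hgV, hg'v⟩ := hG.nice_dense g.1 g.2 V hV
    refine ⟨φ, hφ, ⟨g', hg'G⟩, hg'N, fun i => ?_, ?_⟩
    · rcases hg'v i with h | ⟨j, h⟩
      · change g' i ∈ U k
        rw [h]
        exact mem_of_mem_nhds (hU k)
      · change g' i ∈ U k
        rw [h]
        exact hg j
    · have h3 : ‖(φ (g * ⟨g', hg'G⟩⁻¹) : ℂ) - 1‖ < ε / 2 := hφW _ (hVW fun i => hgV i)
      have h4 : φ g = φ (g * ⟨g', hg'G⟩⁻¹) * φ ⟨g', hg'G⟩ := by
        rw [← map_mul, inv_mul_cancel_right]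
      have h5 := norm_mul_sub_one_le (φ (g * ⟨g', hg'G⟩⁻¹)) (φ ⟨g', hg'G⟩)
      rw [← h4] at h5
      linarith
  choose φ hφC g hgN hgU hge using h2
  obtain ⟨g', hg'1, hg'2, hg'3⟩ : ∃ g' : ℕ → Fam I X,
      (∀ U ∈ 𝓝 (1 : X), ∀ᶠ k in atTop, ∀ i, g' k i ∈ U) ∧
      (∀ k i, ∀ χ ∈ genSub L, χ (g' k i) = χ ((g k).1 i)) ∧
      (∀ k i, (g k).1 i = 1 → g' k i = 1) :=
    lift_null (genSub L) hP1 (fun k => (L ∪ L⁻¹) ^ k)
      (fun K hK hKL => exhaustion hL1 hK hKL) (fun k i => (g k).1 i)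
      (fun k χ hχ i => hUk k χ hχ _ (hgU k i))
  -- the correction terms
  set n : ℕ → Fam I X := fun k => g' k * ((g k).1)⁻¹ with hn
  have hn1 : ∀ k i, n k i ∈ {x : X | ∀ χ ∈ genSub L, χ x = 1} := by
    intro k i χ hχ
    change χ (g' k i * ((g k).1 i)⁻¹) = 1
    rw [map_mul, map_inv, hg'2 k i χ hχ, mul_inv_cancel]
  have hn2 : ∀ k i, (g k).1 i = 1 → n k i = 1 := by
    intro k i hk
    change g' k i * ((g k).1 i)⁻¹ = 1
    rw [hg'3 k i hk, hk, inv_one, mul_one]
  have hg'eq : ∀ k, g' k = (g k).1 * n k := by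
    intro k
    rw [hn]
    simp only
    rw [mul_comm, inv_mul_cancel_right]
  have hg'G : ∀ k, g' k ∈ G := by
    intro k
    rw [hg'eq k]
    exact hG.nice_mul _ (isCompact_annihilator _ hP1) _ (g k).2 (hgN k) (n k) (hn1 k) (hn2 k)
  have hnG : ∀ k, n k ∈ G := fun k => G.mul_mem (hg'G k) (G.inv_mem (g k).2)
  let s : ℕ → G := fun k => ⟨g' k, hg'G k⟩
  have hs : Tendsto s atTop (𝓝 1) := by
    rw [(nhds_one_sub G).tendsto_right_iff]
    intro V hV
    filter_upwards [hg'1 V hV] with k hk i using hk i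
  obtain ⟨k, hk⟩ := (eventually_of_isCompact hC hs (half_pos hε)).exists
  have h4 := hk (φ k) (hφC k)
  have h5 : φ k ⟨n k, hnG k⟩ = 1 :=
    hG.eq_one (genSub L) (φ k) (fun A hA => hL _ (hφC k) A hA) _ (fun i => hn1 k i)
  have h6 : s k = g k * ⟨n k, hnG k⟩ := Subtype.ext (hg'eq k)
  rw [h6, map_mul, h5, mul_one] at h4
  exact absurd (hge k) (not_le.2 h4)

/-- Criterion for reflexivity. -/
lemma reflexive_of' {A : Type*} [CommGroup A] [TopologicalSpace A] [IsTopologicalGroup A]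
    [T2Space A] (hsurj : Function.Surjective (evHom A))
    (hcont : ∀ C : Set (PontryaginDual A), IsCompact C → ∀ ε : ℝ, 0 < ε →
      ∃ O ∈ 𝓝 (1 : A), ∀ φ ∈ C, ∀ g ∈ O, ‖(φ g : ℂ) - 1‖ < ε)
    (hdet : ∀ O ∈ 𝓝 (1 : A), ∃ E : Set (PontryaginDual A), IsCompact E ∧ ∃ c : ℝ, 0 < c ∧
      ∀ g : A, (∀ φ ∈ E, ‖(φ g : ℂ) - 1‖ ≤ c) → g ∈ O) : Reflexive A := by
  refine reflexive_of hsurj ?_
  rw [IsTopologicalGroup.isInducing_iff_nhds_one]
  apply le_antisymm
  · rw [← tendsto_iff_comap, nhds_one_hasBasis.tendsto_right_iff]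
    rintro ⟨C, ε⟩ ⟨hC, hε⟩
    obtain ⟨O, hO, h⟩ := hcont C hC ε hε
    filter_upwards [hO] with g hg φ hφ using h φ hφ g hg
  · intro O hO
    obtain ⟨E, hE, c, hc, h⟩ := hdet O hO
    rw [mem_comap]
    exact ⟨_, mem_nhds_one_of_isCompact hE hc, fun g hg => h g fun φ hφ => (hg φ hφ).le⟩

/-- **Main theorem** for good subgroups. -/
theorem Good.reflexive (hG : Good G 𝒜 Nice) : Reflexive G :=
  reflexive_of' hG.surjective (fun _ hC _ hε => hG.equi hC hε)
    (fun _ hO => exists_compact_of_nhds G hO)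

end C93
end
end

section

/-!
# `cZero` and `ℓ_∞` are good subgroups
-/

open Filter Topology MeasureTheory
open scoped Pointwise

set_option linter.unusedSectionVars false

noncomputable section

namespace C93

variable {I X : Type*} [CommGroup X] [TopologicalSpace X] [IsTopologicalGroup X]

/-- Compact sets are covered by finitely many translates of a basic neighbourhood. -/
lemma exists_finite_cover {G : Subgroup (Fam I X)} {S : Set G} (hS : IsCompact S) {V : Set X}
    (hV : V ∈ 𝓝 (1 : X)) : ∃ t : Finset G, ∀ f ∈ S, ∃ g ∈ t, ∀ i, g.1 i * f.1 i ∈ V := by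
  obtain ⟨t, ht⟩ := compact_covered_by_mul_left_translates hS
    (V := {g : G | ∀ i, g.1 i ∈ V}) ⟨1, mem_interior_iff_mem_nhds.2
      ((nhds_one_sub G).mem_of_mem hV)⟩
  refine ⟨t, fun f hf => ?_⟩
  obtain ⟨g, hg, hgf⟩ := Set.mem_iUnion₂.1 (ht hf)
  exact ⟨g, hg, hgf⟩

/-- A compact subset of `cZero` is uniformly null. -/
lemma cZero_uniform {S : Set (cZero I X)} (hS : IsCompact S) {U : Set X} (hU : U ∈ 𝓝 (1 : X)) :
    ∃ B : Finset I, ∀ f ∈ S, ∀ i ∉ B, f.1 i ∈ U := by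
  classical
  obtain ⟨V, hV, h⟩ := exists_nhds_one_split hU
  obtain ⟨t, ht⟩ := exists_finite_cover hS hV
  have hfin : ∀ g ∈ t, {i | (g.1 i)⁻¹ ∉ V}.Finite := fun g _ => by
    have := (g⁻¹).2 V hV
    exact this
  have hfin2 : (⋃ g ∈ t, {i | (g.1 i)⁻¹ ∉ V}).Finite := Set.Finite.biUnion t.finite_toSet hfin
  refine ⟨hfin2.toFinset, fun f hf i hi => ?_⟩
  obtain ⟨g, hg, hgf⟩ := ht f hf
  rw [Set.Finite.mem_toFinset] at hi
  have h1 : (g.1 i)⁻¹ ∈ V := by
    by_contra hcon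
    exact hi (Set.mem_iUnion₂.2 ⟨g, hg, hcon⟩)
  have := h _ h1 _ (hgf i)
  rwa [inv_mul_cancel_left] at this

/-- A compact subset of `ℓ_∞` is uniformly bounded. -/
lemma lInf_uniform [LocallyCompactSpace X] {S : Set (lInf I X)} (hS : IsCompact S) :
    ∃ K : Set X, IsCompact K ∧ ∀ f ∈ S, ∀ i, f.1 i ∈ K := by
  obtain ⟨C, hC, hC1⟩ := exists_compact_mem_nhds (1 : X)
  obtain ⟨t, ht⟩ := exists_finite_cover hS hC1
  have h1 : ∀ g : lInf I X, ∃ K : Set X, IsCompact K ∧ ∀ i, (g.1 i)⁻¹ ∈ K := by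
    intro g
    obtain ⟨K, hK, hgK⟩ := Precompact.exists_isCompact (g⁻¹).2
    exact ⟨K, hK, fun i => hgK ⟨i, rfl⟩⟩
  choose K hK hgK using h1
  refine ⟨(⋃ g ∈ t, K g) * C, (t.isCompact_biUnion fun g _ => hK g).mul hC, fun f hf i => ?_⟩
  obtain ⟨g, hg, hgf⟩ := ht f hf
  refine ⟨(g.1 i)⁻¹, Set.mem_iUnion₂.2 ⟨g, hg, hgK g i⟩, g.1 i * f.1 i, hgf i, ?_⟩
  simp

open Classical in
/-- The truncation of a family to a finite set. -/
def trunc (B : Finset I) (f : Fam I X) : Fam I X := fun i => if i ∈ B then f i else 1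

lemma trunc_of_mem {B : Finset I} {i : I} (h : i ∈ B) (f : Fam I X) : trunc B f i = f i :=
  if_pos h

lemma trunc_of_notMem {B : Finset I} {i : I} (h : i ∉ B) (f : Fam I X) : trunc B f i = 1 :=
  if_neg h

lemma mem_cZero_of_finite {f : Fam I X} (B : Finset I) (h : ∀ i ∉ B, f i = 1) : f ∈ cZero I X := by
  intro U hU
  refine B.finite_toSet.subset fun i hi => ?_
  by_contra hcon
  exact hi (by rw [h i hcon]; exact mem_of_mem_nhds hU)

theorem good_cZero [LocallyCompactSpace X] [T2Space X] :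
    Good (cZero I X) {A : Set I | A.Finite} (fun g => ∃ B : Finset I, ∀ i ∉ B, g i = 1) where
  blk_mem A hA x := by
    apply mem_cZero_of_finite hA.toFinset
    intro i hi
    rw [Set.Finite.mem_toFinset] at hi
    exact blk_of_notMem hi x
  approx S hS U hU := by
    classical
    obtain ⟨B, hB⟩ := cZero_uniform hS hU
    refine ⟨B.image fun i => ({i}, i), fun l hl => ?_, fun f hf j => ?_⟩
    · obtain ⟨i, _, rfl⟩ := Finset.mem_image.1 hl
      exact Set.finite_singleton i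
    · rw [Finset.prod_image (fun a _ b _ h => congrArg Prod.snd h)]
      by_cases hj : j ∈ B
      · rw [Finset.prod_eq_single_of_mem j hj]
        · rw [blk_of_mem (Set.mem_singleton j), mul_inv_cancel]
          exact mem_of_mem_nhds hU
        · intro i _ hij
          exact blk_of_notMem (fun h => hij (Set.mem_singleton_iff.1 h).symm) _
      · rw [Finset.prod_eq_one, inv_one, mul_one]
        · exact hB f hf j hj
        · intro i hi
          exact blk_of_notMem (fun h => hj (by rwa [Set.mem_singleton_iff.1 h])) _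
  mem_of_dominated g hg := by
    intro U hU
    obtain ⟨K, hK, c, hc, hdet⟩ := exists_detect hU
    obtain ⟨S, hS, δ, hδ, h⟩ := hg c hc
    obtain ⟨V, hV, hKV⟩ := exists_nhds_of_isCompact hK hδ
    obtain ⟨B, hB⟩ := cZero_uniform hS hV
    refine B.finite_toSet.subset fun i hi => ?_
    by_contra hcon
    apply hi
    apply hdet
    intro χ hχ
    exact (h i χ fun s hs => hKV χ hχ _ (hB s hs i hcon)).le
  nice_dense g hg U hU := by
    classical
    refine ⟨trunc (hg U hU).toFinset g, ?_, ⟨(hg U hU).toFinset, fun i hi => trunc_of_notMem hi g⟩,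
      fun i => ?_, fun i => ?_⟩
    · exact mem_cZero_of_finite (hg U hU).toFinset fun i hi => trunc_of_notMem hi g
    · by_cases hi : i ∈ (hg U hU).toFinset
      · rw [trunc_of_mem hi, mul_inv_cancel]
        exact mem_of_mem_nhds hU
      · rw [trunc_of_notMem hi, inv_one, mul_one]
        rw [Set.Finite.mem_toFinset] at hi
        by_contra hcon
        exact hi hcon
    · by_cases hi : i ∈ (hg U hU).toFinset
      · exact Or.inr ⟨i, trunc_of_mem hi g⟩
      · exact Or.inl (trunc_of_notMem hi g)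
  nice_mul N _ g _ hgN n _ hn := by
    obtain ⟨B, hB⟩ := hgN
    apply mem_cZero_of_finite B
    intro i hi
    rw [Fam.mul_apply, hB i hi, hn i (hB i hi), mul_one]

lemma alg_identity {Y : Type*} [CommGroup Y] (a b x y u : Y) :
    x * y⁻¹ = (a * x) * (b * y)⁻¹ * (u⁻¹ * b) * (u⁻¹ * a)⁻¹ := by
  have h : ∀ (a b x y u : Additive Y), x + -y = (a + x) + -(b + y) + (-u + b) + -(-u + a) := by
    intro a b x y u
    abel
  exact h a b x y u

theorem good_lInf [LocallyCompactSpace X] [T2Space X] :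
    Good (lInf I X) Set.univ (fun _ => True) where
  blk_mem A _ x := by
    apply precompact_of_finite
    apply (Set.toFinite {x, (1 : X)}).subset
    rintro _ ⟨i, rfl⟩
    by_cases h : i ∈ A
    · left; exact blk_of_mem h x
    · right; exact blk_of_notMem h x
  approx S hS U hU := by
    classical
    obtain ⟨V₀, hV₀, hV4⟩ := exists_nhds_one_split4 hU
    set V := V₀ ∩ V₀⁻¹ with hVdef
    have hV : V ∈ 𝓝 (1 : X) := inter_mem hV₀ (inv_mem_nhds_one X hV₀)
    obtain ⟨t, ht⟩ := exists_finite_cover hS hV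
    have h1 : ∀ g : lInf I X, ∃ F : Set X, F.Finite ∧ ∀ i, ∃ c ∈ F, c⁻¹ * g.1 i ∈ V := by
      intro g
      obtain ⟨F, hF, h⟩ := g.2 V hV
      refine ⟨F, hF, fun i => ?_⟩
      obtain ⟨c, hc, v, hv, hcv⟩ := h ⟨i, rfl⟩
      refine ⟨c, hc, ?_⟩
      rw [← hcv]
      simpa using hv
    choose F hF c hcF hc using h1
    -- the colouring
    let col : I → (t → X) := fun i g => c g.1 i
    have hcol : (Set.range col).Finite := by
      apply (Set.Finite.pi' (t := fun g : t => F g.1) fun g => hF g.1).subset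
      rintro _ ⟨i, rfl⟩ g
      exact hcF g.1 i
    let T : Finset (t → X) := hcol.toFinset
    have hT : ∀ v : T, ∃ i, col i = v.1 := fun v => by
      have := v.2
      rw [Set.Finite.mem_toFinset] at this
      exact this
    choose rep hrep using hT
    have hmemT : ∀ j, col j ∈ T := fun j => by
      rw [Set.Finite.mem_toFinset]; exact ⟨j, rfl⟩
    refine ⟨Finset.univ.image fun v : T => ({i | col i = v.1}, rep v), fun l _ => Set.mem_univ _,
      fun f hf j => ?_⟩
    rw [Finset.prod_image]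
    swap
    · intro v _ w _ hvw
      have h2 : rep v = rep w := congrArg Prod.snd hvw
      apply Subtype.ext
      rw [← hrep v, h2, hrep w]
    rw [Finset.prod_eq_single_of_mem (⟨col j, hmemT j⟩ : T) (Finset.mem_univ _)]
    swap
    · intro v _ hv
      apply blk_of_notMem
      intro h
      apply hv
      apply Subtype.ext
      exact h.symm
    rw [blk_of_mem (show j ∈ {i | col i = (⟨col j, hmemT j⟩ : T).1} from rfl)]
    set i := rep ⟨col j, hmemT j⟩ with hi
    have hij : col i = col j := hrep _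
    obtain ⟨g, hg, hgf⟩ := ht f hf
    have hcij : c g i = c g j := congrFun hij ⟨g, hg⟩
    -- the estimate
    have e : f.1 j * (f.1 i)⁻¹ = (g.1 j * f.1 j) * (g.1 i * f.1 i)⁻¹ *
        ((c g i)⁻¹ * g.1 i) * ((c g j)⁻¹ * g.1 j)⁻¹ := by
      rw [hcij]
      exact alg_identity _ _ _ _ _
    rw [e]
    exact hV4 (hgf j).1 (hgf i).2 (hc g i).1 (hc g j).2
  mem_of_dominated g hg := by
    have h1 : ∀ ε : {ε : ℝ // 0 < ε}, ∃ W ∈ 𝓝 (1 : PontryaginDual X), ∀ i, ∀ χ ∈ W,
        ‖(χ (g i) : ℂ) - 1‖ < ε := by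
      rintro ⟨ε, hε⟩
      obtain ⟨S, hS, δ, hδ, h⟩ := hg ε hε
      obtain ⟨K, hK, hSK⟩ := lInf_uniform hS
      exact ⟨_, mem_nhds_one_of_isCompact hK hδ, fun i χ hχ =>
        h i χ fun s hs => hχ _ (hSK s hs i)⟩
    choose W hW hgW using h1
    have h2 : IsCompact {ζ : PontryaginDual (PontryaginDual X) |
        ∀ ε : {ε : ℝ // 0 < ε}, ∀ χ ∈ W ε, ‖(ζ χ : ℂ) - 1‖ ≤ ε.1} := by
      apply isCompact_equi
      intro ε hε
      exact ⟨⟨ε / 2, half_pos hε⟩, hW _, by change ε / 2 < ε; linarith⟩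
    obtain ⟨e, he⟩ := reflexive_of_locallyCompact (G := X)
    have h3 := h2.image (show Continuous e.symm from e.symm.continuous)
    refine (IsCompact.precompact h3).mono ?_
    rintro _ ⟨i, rfl⟩
    refine ⟨e (g i), fun ε χ hχ => ?_, e.symm_apply_apply _⟩
    rw [he]
    exact (hgW ε i χ hχ).le
  nice_dense g hg U hU := ⟨g, hg, trivial, fun i => by
    rw [mul_inv_cancel]; exact mem_of_mem_nhds hU, fun i => Or.inr ⟨i, rfl⟩⟩
  nice_mul N hN g hg _ n hn _ := by
    apply (lInf I X).mul_mem hg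
    refine (IsCompact.precompact hN).mono ?_
    rintro _ ⟨i, rfl⟩
    exact hn i

/-- `c_0^I(X)` is reflexive. -/
theorem reflexive_cZero [LocallyCompactSpace X] [T2Space X] : Reflexive (cZero I X) := good_cZero.reflexive

/-- `ℓ_∞^I(X)` is reflexive. -/
theorem reflexive_lInf [LocallyCompactSpace X] [T2Space X] : Reflexive (lInf I X) :=
  good_lInf.reflexive

end C93
end
end

section

/-!
# Reflexivity passes from an open subgroup to the whole group
-/

open Filter Topology MeasureTheory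
open scoped Pointwise

set_option linter.unusedSectionVars false

noncomputable section

namespace C93

variable {A : Type*} [CommGroup A] [TopologicalSpace A] [IsTopologicalGroup A]

lemma Reflexive.equi (h : Reflexive A) {C : Set (PontryaginDual A)} (hC : IsCompact C) {ε : ℝ}
    (hε : 0 < ε) : ∃ O ∈ 𝓝 (1 : A), ∀ φ ∈ C, ∀ g ∈ O, ‖(φ g : ℂ) - 1‖ < ε := by
  have h1 := h.inducing.continuous.tendsto 1
  rw [map_one] at h1
  exact ⟨_, h1 (mem_nhds_one_of_isCompact hC hε), fun φ hφ g hg => hg φ hφ⟩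

lemma Reflexive.detect (h : Reflexive A) {O : Set A} (hO : O ∈ 𝓝 (1 : A)) :
    ∃ E : Set (PontryaginDual A), IsCompact E ∧ ∃ c : ℝ, 0 < c ∧
      ∀ g : A, (∀ φ ∈ E, ‖(φ g : ℂ) - 1‖ < c) → g ∈ O := by
  rw [h.inducing.nhds_eq_comap, map_one, mem_comap] at hO
  obtain ⟨W, hW, hWO⟩ := hO
  obtain ⟨⟨E, c⟩, ⟨hE, hc⟩, h1⟩ := nhds_one_hasBasis.mem_iff.1 hW
  exact ⟨E, hE, c, hc, fun g hg => hWO (h1 fun φ hφ => hg φ hφ)⟩

variable (H : Subgroup A) (hH : IsOpen (H : Set A))

/-- Restriction of characters to a subgroup. -/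
def resChar : PontryaginDual A →ₜ* PontryaginDual H :=
  PontryaginDual.map { H.subtype with continuous_toFun := continuous_subtype_val }

@[simp] lemma resChar_apply (φ : PontryaginDual A) (x : H) : resChar H φ x = φ x := rfl

include hH in
lemma image_mem_nhds_of_open {W : Set H} (hW : W ∈ 𝓝 (1 : H)) :
    (Subtype.val '' W : Set A) ∈ 𝓝 (1 : A) :=
  hH.isOpenMap_subtype_val.image_mem_nhds hW

include hH in
lemma cont_of_open (ψ : PontryaginDual H) (φ : A →* Circle) (h : ∀ x : H, φ x = ψ x) :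
    ∀ ε : ℝ, 0 < ε → ∃ U ∈ 𝓝 (1 : A), ∀ a ∈ U, ‖(φ a : ℂ) - 1‖ < ε := by
  intro ε hε
  obtain ⟨U, hU, hψ⟩ := char_nhds ψ hε
  refine ⟨_, image_mem_nhds_of_open H hH hU, ?_⟩
  rintro _ ⟨x, hx, rfl⟩
  rw [h]
  exact hψ x hx

include hH in
lemma exists_extension (ψ : PontryaginDual H) : ∃ φ : PontryaginDual A, resChar H φ = ψ := by
  obtain ⟨φ, hφ⟩ := exists_circle_ext H (ψ : H →* Circle)
  exact ⟨mkChar φ (cont_of_open H hH ψ φ hφ), PontryaginDual.ext fun x => hφ x⟩

include hH in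
/-- The restriction map on characters is open at the identity. -/
lemma exists_open_restrict {W : Set (PontryaginDual A)} (hW : W ∈ 𝓝 (1 : PontryaginDual A)) :
    ∃ W' ∈ 𝓝 (1 : PontryaginDual H), ∀ ψ ∈ W', ∃ φ ∈ W, resChar H φ = ψ := by
  classical
  obtain ⟨⟨K, δ⟩, ⟨hK, hδ⟩, hKW⟩ := nhds_one_hasBasis.mem_iff.1 hW
  -- finitely many cosets
  obtain ⟨F, hF⟩ : ∃ F : Finset A, ∀ x ∈ K, ∃ s ∈ F, s⁻¹ * x ∈ H := by
    obtain ⟨t, ht⟩ := compact_covered_by_mul_left_translates hK (V := (H : Set A))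
      ⟨1, mem_interior_iff_mem_nhds.2 (hH.mem_nhds H.one_mem)⟩
    refine ⟨t.image (·⁻¹), fun x hx => ?_⟩
    obtain ⟨g, hg, hgx⟩ := Set.mem_iUnion₂.1 (ht hx)
    exact ⟨g⁻¹, Finset.mem_image_of_mem _ hg, by rw [inv_inv]; exact hgx⟩
  have hKs : ∀ s : A, IsCompact {h : H | s * h.1 ∈ K} := by
    intro s
    have hcl : Topology.IsClosedEmbedding (fun h : H => s * h.1) :=
      (Homeomorph.mulLeft s).isClosedEmbedding.comp
        (H.isClosed_of_isOpen hH).isClosedEmbedding_subtypeVal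
    exact hcl.isCompact_preimage hK
  obtain ⟨K2, hK2, δ2, hδ2, hext⟩ := exists_finite_ext H F (half_pos hδ)
  have hcomp : IsCompact ((⋃ s ∈ F, {h : H | s * h.1 ∈ K}) ∪ K2) :=
    (F.isCompact_biUnion fun s _ => hKs s).union hK2.isCompact
  refine ⟨_, mem_nhds_one_of_isCompact hcomp (lt_min (half_pos hδ) hδ2), fun ψ hψ => ?_⟩
  obtain ⟨φ, hφ, hφF⟩ := hext (ψ : H →* Circle) fun h hh =>
    (hψ h (Or.inr hh)).trans_le (min_le_right _ _)
  refine ⟨mkChar φ (cont_of_open H hH ψ φ hφ), hKW fun x hx => ?_,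
    PontryaginDual.ext fun x => hφ x⟩
  obtain ⟨s, hs, hsx⟩ := hF x hx
  have h1 : (⟨s⁻¹ * x, hsx⟩ : H) ∈ {h : H | s * h.1 ∈ K} := by
    change s * (s⁻¹ * x) ∈ K
    rwa [mul_inv_cancel_left]
  have h2 := (hψ _ (Or.inl (Set.mem_iUnion₂.2 ⟨s, hs, h1⟩))).trans_le (min_le_left _ _)
  have h3 : φ (s⁻¹ * x) = ψ ⟨s⁻¹ * x, hsx⟩ := hφ ⟨s⁻¹ * x, hsx⟩
  rw [← h3] at h2
  have h4 := hφF s hs
  have h5 := norm_mul_sub_one_le (φ s) (φ (s⁻¹ * x))
  rw [← map_mul, mul_inv_cancel_left] at h5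
  change ‖(φ x : ℂ) - 1‖ < δ
  linarith

/-- **A topological abelian group with a reflexive open subgroup is reflexive.** -/
theorem reflexive_of_openSubgroup [T2Space A] (h : Reflexive H) (hH : IsOpen (H : Set A)) :
    Reflexive A := by
  refine reflexive_of' (fun ξ => ?_) (fun C hC ε hε => ?_) (fun O hO => ?_)
  · -- surjectivity
    have : DiscreteTopology (A ⧸ H) := QuotientGroup.discreteTopology hH
    let q : A →ₜ* (A ⧸ H) := { QuotientGroup.mk' H with
      continuous_toFun := QuotientGroup.continuous_mk }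
    obtain ⟨a', ha'⟩ := exists_of_bidual (X := A ⧸ H) (ξ.comp (PontryaginDual.map q))
    obtain ⟨a, rfl⟩ := QuotientGroup.mk_surjective a'
    set ξ₁ : PontryaginDual (PontryaginDual A) := ξ * (evHom A a)⁻¹ with hξ₁
    have hker : ∀ φ : PontryaginDual A, resChar H φ = 1 → ξ₁ φ = 1 := by
      intro φ hφ
      have hle : H ≤ (φ : A →* Circle).ker := by
        intro x hx
        have := DFunLike.congr_fun hφ ⟨x, hx⟩
        exact this
      let χ : PontryaginDual (A ⧸ H) :=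
        { QuotientGroup.lift H (φ : A →* Circle) hle with
          continuous_toFun := continuous_of_discreteTopology }
      have hχ : PontryaginDual.map q χ = φ := PontryaginDual.ext fun x => rfl
      have h1 : ξ φ = χ (a : A ⧸ H) := by
        rw [← ha' χ]
        change ξ φ = ξ (PontryaginDual.map q χ)
        rw [hχ]
      change ξ φ * (φ a)⁻¹ = 1
      rw [h1]
      change φ a * (φ a)⁻¹ = 1
      rw [mul_inv_cancel]
    choose ext hext using exists_extension H hH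
    have hind : ∀ φ φ' : PontryaginDual A, resChar H φ = resChar H φ' → ξ₁ φ = ξ₁ φ' := by
      intro φ φ' hφ
      have := hker (φ * φ'⁻¹) (by rw [map_mul, map_inv, hφ, mul_inv_cancel])
      rw [map_mul, map_inv, mul_inv_eq_one] at this
      exact this
    let η₀ : PontryaginDual H →* Circle :=
      { toFun := fun ψ => ξ₁ (ext ψ)
        map_one' := by
          rw [hind (ext 1) 1 (by rw [hext, map_one]), map_one]
        map_mul' := fun ψ ψ' => by
          rw [hind (ext (ψ * ψ')) (ext ψ * ext ψ') (by rw [hext, map_mul, hext, hext]), map_mul] }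
    have hη₀ : ∀ ε : ℝ, 0 < ε → ∃ U ∈ 𝓝 (1 : PontryaginDual H), ∀ ψ ∈ U,
        ‖(η₀ ψ : ℂ) - 1‖ < ε := by
      intro ε hε
      obtain ⟨W, hW, hWξ⟩ := char_nhds ξ₁ hε
      obtain ⟨W', hW', h1⟩ := exists_open_restrict H hH hW
      refine ⟨W', hW', fun ψ hψ => ?_⟩
      obtain ⟨φ, hφ, hφψ⟩ := h1 ψ hψ
      have h2 : η₀ ψ = ξ₁ φ := hind _ _ (by rw [hext, hφψ])
      rw [h2]
      exact hWξ φ hφ
    obtain ⟨x, hx⟩ := h.surj (mkChar η₀ hη₀)
    refine ⟨x.1 * a, PontryaginDual.ext fun φ => ?_⟩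
    have h1 : ξ₁ φ = φ x.1 := by
      have h2 : ξ₁ φ = η₀ (resChar H φ) := hind _ _ (by rw [hext])
      rw [h2]
      have h3 := DFunLike.congr_fun hx (resChar H φ)
      exact h3.symm
    have h4 : ξ₁ φ = ξ φ * (φ a)⁻¹ := rfl
    rw [evHom_apply, map_mul, ← h1, h4, inv_mul_cancel_right]
  · -- continuity
    obtain ⟨O, hO, h1⟩ := h.equi (hC.image (map_continuous (resChar H))) hε
    refine ⟨_, image_mem_nhds_of_open H hH hO, fun φ hφ => ?_⟩
    rintro _ ⟨x, hx, rfl⟩
    exact h1 (resChar H φ) ⟨φ, hφ, rfl⟩ x hx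
  · -- detection
    have hO' : Subtype.val ⁻¹' O ∈ 𝓝 (1 : H) := by
      have := (continuous_subtype_val (p := fun x => x ∈ H)).tendsto (1 : H)
      exact this hO
    obtain ⟨E0, hE0, c, hc, hdet⟩ := h.detect hO'
    choose W hW hWE using fun ε : {ε : ℝ // 0 < ε} => h.equi hE0 ε.2
    refine ⟨{φ : PontryaginDual A | ∀ ε : {ε : ℝ // 0 < ε}, ∀ a ∈ (Subtype.val '' W ε : Set A),
      ‖(φ a : ℂ) - 1‖ ≤ ε.1}, ?_, min (c / 2) (1 / 2), by positivity, fun a ha => ?_⟩
    · apply isCompact_equi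
      intro ε hε
      exact ⟨⟨ε / 2, half_pos hε⟩, image_mem_nhds_of_open H hH (hW _), by
        change ε / 2 < ε; linarith⟩
    · have haH : a ∈ H := by
        by_contra hcon
        obtain ⟨φ, hφ1, hφ2⟩ := exists_char H hcon
        have := ha (mkChar φ (cont_of_open H hH 1 φ fun x => hφ1 x.1 x.2)) (by
          rintro ε _ ⟨x, hx, rfl⟩
          rw [mkChar_apply, hφ1 x.1 x.2]
          simpa using ε.2.le)
        rw [mkChar_apply] at this
        have := this.trans (min_le_right _ _)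
        linarith
      have h1 : (⟨a, haH⟩ : H) ∈ Subtype.val ⁻¹' O := by
        apply hdet
        intro ψ hψ
        obtain ⟨φ, rfl⟩ := exists_extension H hH ψ
        have h2 := ha φ (by
          rintro ε _ ⟨x, hx, rfl⟩
          exact (hWE ε _ hψ x hx).le)
        have h3 := h2.trans (min_le_left _ _)
        rw [resChar_apply]
        linarith
      exact h1

/-- `ℓ_∞^I(X)` is open in `X^I`. -/
lemma isOpen_lInf {I X : Type*} [CommGroup X] [TopologicalSpace X] [IsTopologicalGroup X]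
    [LocallyCompactSpace X] : IsOpen (lInf I X : Set (Fam I X)) := by
  obtain ⟨C, hC, hC1⟩ := exists_compact_mem_nhds (1 : X)
  apply Subgroup.isOpen_of_mem_nhds _ (g := 1)
  refine mem_of_superset ((Fam.nhds_one_hasBasis I X).mem_of_mem hC1) fun f hf => ?_
  refine (IsCompact.precompact hC).mono ?_
  rintro _ ⟨i, rfl⟩
  exact hf i

/-- The group of all families is reflexive. -/
theorem reflexive_fam {I X : Type*} [CommGroup X] [TopologicalSpace X] [IsTopologicalGroup X]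
    [LocallyCompactSpace X] [T2Space X] : Reflexive (Fam I X) :=
  reflexive_of_openSubgroup (lInf I X) reflexive_lInf isOpen_lInf

end C93
end
end
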